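import Mathlib

/-!
# Dense subsets of tables of commutative groups: statements
-/

set_option autoImplicit false

namespace Pool.Agent.Helper41K9.WN

open Finset

/-- The addition table of a commutative group: `U` is the group of the cells, `a, b, c` give the
column, the row and the symbol of a cell (they are constant on the cosets of three subgroups, any two
of which are complementary). -/
structure Tab (U A B C : Type) [AddCommGroup U] where
  a : U → A
  b : U → B
  c : U → C
  adda : ∀ x y z, a x = a y → a (x + z) = a (y + z)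
  addb : ∀ x y z, b x = b y → b (x + z) = b (y + z)
  addc : ∀ x y z, c x = c y → c (x + z) = c (y + z)
  ab : ∀ x y, a x = a y → b x = b y → x = y
  ac : ∀ x y, a x = a y → c x = c y → x = y
  bc : ∀ x y, b x = b y → c x = c y → x = y
  tab : ∀ x y, ∃ z, a z = a x ∧ b z = b y
  tac : ∀ x y, ∃ z, a z = a x ∧ c z = c y
  tbc : ∀ x y, ∃ z, b z = b x ∧ c z = c y

/-- Some `e` cells in `D` meet at most `e + 3` columns, rows and symbols. -/
def HasConf {U A B C : Type} [AddCommGroup U] (t : Tab U A B C) (e : ℕ) (D : Finset U) : Prop :=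
  ∃ T ⊆ D, #T = e ∧ Nat.card ↥(t.a '' (T : Set U)) + Nat.card ↥(t.b '' (T : Set U)) +
    Nat.card ↥(t.c '' (T : Set U)) ≤ e + 3

/-- Density Hales-Jewett in commutative groups. -/
def S_LINE : Prop :=
  ∀ (α : Type) [Fintype α] [Nonempty α] (δ : ℝ), 0 < δ → ∃ N : ℕ, 0 < N ∧
    ∀ (U : Type) [AddCommGroup U] [Fintype U] (φ : Fin N → α → U) (D : Finset U),
      δ * (Fintype.card U : ℝ) ≤ #D →
        ∃ S : Finset (Fin N), S.Nonempty ∧ ∃ x : U, ∀ v : α, x + ∑ t ∈ S, φ t v ∈ D

/-- An element of large order in the kernel of `a`. -/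
def S_LONG : Prop :=
  ∀ (e : ℕ) (δ : ℝ), 1 ≤ e → 0 < δ → ∃ M : ℕ, ∀ (U A B C : Type) [AddCommGroup U] [Fintype U]
    (t : Tab U A B C), (∃ g : U, t.a g = t.a 0 ∧ M ≤ addOrderOf g) →
      ∀ D : Finset U, δ * (Fintype.card U : ℝ) ≤ #D → HasConf t e D

/-- All elements of the kernel of `a` have small order. -/
def S_SHORT : Prop :=
  ∀ (e M : ℕ) (δ : ℝ), 1 ≤ e → 0 < δ → ∃ s : ℕ, ∀ (U A B C : Type) [AddCommGroup U] [Fintype U]
    (t : Tab U A B C), (∀ g : U, t.a g = t.a 0 → addOrderOf g ≤ M) → s ≤ Fintype.card U →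
      ∀ D : Finset U, δ * (Fintype.card U : ℝ) ≤ #D → HasConf t e D

end Pool.Agent.Helper41K9.WN
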