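import Pool.Agent.Helper41K9.WN.Latin
import Pool.Agent.Helper41K9.WN.St

/-!
# Connected linear relations with a weak near-unanimity operation are tables of commutative groups
-/

set_option autoImplicit false

namespace Pool.Agent.Helper41K9.WN

open Finset Function Relation

variable {k : ℕ} {U A B C : Type}

/-- Rotate the roles of `a`, `b`, `c`. -/
def Sys.rot (S : Sys k U A B C) : Sys k U B C A where
  w := S.w
  a := S.b
  b := S.c
  c := S.a
  wa := S.wb
  wb := S.wc
  wc := S.wa
  idem := S.idem
  wnu := S.wnu
  ab := S.bc
  ac := fun x y h1 h2 => S.ab x y h2 h1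
  bc := fun x y h1 h2 => S.ac x y h2 h1

/-- Any two of the kernels of `a`, `b`, `c` generate the full relation. -/
structure Tot (S : Sys k U A B C) : Prop where
  t1 : ∀ x y, S.Conn x y
  t2 : ∀ x y, S.rot.Conn x y
  t3 : ∀ x y, S.rot.rot.Conn x y

theorem Tot.rot {S : Sys k U A B C} (h : Tot S) : Tot S.rot := ⟨h.t2, h.t3, h.t1⟩

/-- `f` is compatible with the kernel of `p`. -/
def Cmp {X J1 J2 : Type} (p : U → X) (f : (J1 → U) → (J2 → U) → U) : Prop :=
  ∀ u u' v v', (∀ j, p (u j) = p (u' j)) → (∀ j, p (v j) = p (v' j)) → p (f u v) = p (f u' v')

/-- Change all coordinates, one after the other and along chains. -/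
theorem chain {J : Type} [Finite J] {r : U → U → Prop} (hr : ∀ x y, ReflTransGen r x y)
    (Q : (J → U) → Prop)
    (hQ : ∀ (w : J → U) (j : J) (t t' : U) [DecidableEq J], r t t' → Q (update w j t) →
      Q (update w j t')) (u v : J → U) (hu : Q u) : Q v := by
  classical
  have _ := Fintype.ofFinite J
  have h1 : ∀ s : Finset J, Q fun j => if j ∈ s then v j else u j := by
    intro s
    induction s using Finset.induction_on with
    | empty => simpa using hu
    | insert j s hj ih =>
      have h2 : ∀ t, ReflTransGen r (u j) t →
          Q (update (fun j => if j ∈ s then v j else u j) j t) := by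
        intro t ht
        induction ht with
        | refl =>
          have : update (fun j => if j ∈ s then v j else u j) j (u j) =
              fun j => if j ∈ s then v j else u j := by
            funext i
            by_cases hi : i = j
            · subst hi
              simp [hj]
            · simp [hi]
          rw [this]
          exact ih
        | tail _ h ih2 => exact hQ _ _ _ _ h ih2
      have h3 := h2 _ (hr (u j) (v j))
      have h4 : update (fun j => if j ∈ s then v j else u j) j (v j) =
          fun i => if i ∈ insert j s then v i else u i := by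
        funext i
        by_cases hi : i = j
        · subst hi
          simp
        · simp [hi]
      rw [h4] at h3
      exact h3
  simpa using h1 univ

theorem update_rel {J X : Type} [DecidableEq J] (p : U → X) (w : J → U) (j : J) {t t' : U}
    (h : p t = p t') (i : J) : p (update w j t i) = p (update w j t' i) := by
  by_cases hi : i = j
  · subst hi
    simp [h]
  · simp [hi]

/-- The term condition for vectors. -/
theorem Sys.tcv (S : Sys k U A B C) (h1 : ∀ x y, S.Conn x y) {J1 J2 : Type} [Finite J1]
    {f : (J1 → U) → (J2 → U) → U} (fa : Cmp S.a f) (fb : Cmp S.b f) (fc : Cmp S.c f)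
    (p q : J2 → U) (hpq : ∀ j, S.a (p j) = S.a (q j)) (u v : J1 → U) (h : f u p = f u q) :
    f v p = f v q := by
  refine chain h1 (fun u => f u p = f u q) ?_ u v h
  intro w j t t' _ ht hQ
  have ha := fa (update w j t') (update w j t') p q (fun _ => rfl) hpq
  rcases ht with ht | ht
  · refine S.ab _ _ ha ?_
    rw [fb (update w j t') (update w j t) p p (update_rel S.b w j ht.symm) (fun _ => rfl), hQ]
    exact fb _ _ q q (update_rel S.b w j ht) (fun _ => rfl)
  · refine S.ac _ _ ha ?_
    rw [fc (update w j t') (update w j t) p p (update_rel S.c w j ht.symm) (fun _ => rfl), hQ]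
    exact fc _ _ q q (update_rel S.c w j ht) (fun _ => rfl)

/-- The term condition with the roles exchanged. -/
theorem Sys.ab1 (S : Sys k U A B C) (hk : 2 ≤ k) (h1 : ∀ x y, S.Conn x y) {J1 J2 : Type}
    [Finite J2] {f : (J1 → U) → (J2 → U) → U} (fa : Cmp S.a f) (fb : Cmp S.b f)
    (fc : Cmp S.c f) (p q : J2 → U) (u v : J1 → U) (huv : ∀ j, S.a (u j) = S.a (v j))
    (h : f u p = f u q) : f v p = f v q := by
  let i0 : Fin k := ⟨0, by omega⟩
  let i1 : Fin k := ⟨1, by omega⟩
  have h01 : i0 ≠ i1 := by
    intro h
    have := congrArg Fin.val h
    simp [i0, i1] at this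
  let g : (J2 → U) → (J1 ⊕ J1 → U) → U := fun x ξ =>
    S.w fun i => if i = i0 then f (fun j => ξ (Sum.inl j)) x else
      if i = i1 then f (fun j => ξ (Sum.inr j)) p else f u p
  have hg : ∀ {X : Type} (φ : U → X), Cmp φ f →
      (∀ z z' : Fin k → U, (∀ i, φ (z i) = φ (z' i)) → φ (S.w z) = φ (S.w z')) → Cmp φ g := by
    intro X φ hφ hw x x' ξ ξ' hx hξ
    refine hw _ _ fun i => ?_
    by_cases hi : i = i0
    · simp only [hi, if_true]
      exact hφ _ _ _ _ (fun j => hξ _) hx
    · by_cases hi1 : i = i1
      · simp only [hi1, h01.symm, if_false, if_true]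
        exact hφ _ _ _ _ (fun j => hξ _) (fun _ => rfl)
      · simp only [hi, hi1, if_false]
  have h2 := S.tcv h1 (hg S.a fa S.wa) (hg S.b fb S.wb) (hg S.c fc S.wc)
    (Sum.elim u v) (Sum.elim v u) (fun j => by
      rcases j with j | j
      · exact huv j
      · exact (huv j).symm) p q
  have e1 : ∀ y : U, (fun i => if i = i0 then y else if i = i1 then f u p else f u p) =
      update (fun _ => f u p) i0 y := by
    intro y
    funext i
    by_cases hi : i = i0
    · subst hi
      simp
    · simp [hi]
  have e2 : ∀ y : U, (fun i => if i = i0 then f u p else if i = i1 then y else f u p) =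
      update (fun _ => f u p) i1 y := by
    intro y
    funext i
    by_cases hi : i = i0
    · subst hi
      simp [h01]
    · by_cases hi1 : i = i1
      · subst hi1
        simp [h01.symm]
      · simp [hi, hi1]
  have h3 : g p (Sum.elim u v) = g p (Sum.elim v u) := by
    show (S.w fun i => if i = i0 then f u p else if i = i1 then f v p else f u p) =
      S.w fun i => if i = i0 then f v p else if i = i1 then f u p else f u p
    rw [e1, e2]
    exact S.wnu _ _ _ _
  have h4 := h2 h3
  have h5 : S.w (update (fun _ => f u p) i1 (f v p)) = S.w (update (fun _ => f u p) i1 (f v q)) := by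
    have h6 : (S.w fun i => if i = i0 then f u q else if i = i1 then f v p else f u p) =
      S.w fun i => if i = i0 then f v q else if i = i1 then f u p else f u p := h4
    rw [← h, e1, e2] at h6
    rw [h6]
    exact S.wnu _ _ _ _
  refine S.cancel (fun _ => f u p) i1 _ _ (fun _ => h1 _ _) (h1 _ _) ?_ ?_
  · refine (fa v u p p (fun j => (huv j).symm) fun _ => rfl).trans ?_
    rw [h]
    exact fa u v q q huv fun _ => rfl
  · have e3 : ∀ y, S.pol {i1} (fun _ => f u p) y = S.w (update (fun _ => f u p) i1 y) := by
      intro y
      unfold Sys.pol
      congr 1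
      funext i
      by_cases hi : i = i1
      · subst hi
        simp
      · simp [hi]
    rw [e3, e3]
    exact h5

/-- `U` is abelian. -/
theorem Tot.AB {S : Sys k U A B C} (hk : 2 ≤ k) (hS : Tot S) {J1 J2 : Type}
    [Finite J1] [Finite J2] {f : (J1 → U) → (J2 → U) → U} (fa : Cmp S.a f) (fb : Cmp S.b f)
    (fc : Cmp S.c f) (p q : J2 → U) (u v : J1 → U) (h : f u p = f u q) : f v p = f v q := by
  refine chain hS.t3 (fun u => f u p = f u q) ?_ u v h
  intro w j t t' _ ht hQ
  rcases ht with ht | ht
  · exact S.ab1 hk hS.t1 fa fb fc p q _ _ (update_rel S.a w j ht) hQ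
  · exact S.rot.ab1 hk hS.t2 fb fc fa p q _ _ (update_rel S.b w j ht) hQ

/-- Cancellation without conditions. -/
theorem Tot.cancel {S : Sys k U A B C} (hk : 2 ≤ k) (hS : Tot S) (z : Fin k → U) (i : Fin k)
    (y y' : U) (h : S.pol {i} z y = S.pol {i} z y') : y = y' := by
  have hw : ∀ (s : Finset (Fin k)) {X : Type} (φ : U → X),
      (∀ z z' : Fin k → U, (∀ i, φ (z i) = φ (z' i)) → φ (S.w z) = φ (S.w z')) →
      ∀ i : Fin k, Cmp (J2 := Unit) φ fun (u : Fin k → U) (p : Unit → U) =>
        S.w fun l => if l = i then p () else u l := by
    intro s X φ hφ i u u' p p' hu hp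
    refine hφ _ _ fun l => ?_
    split_ifs
    · exact hp ()
    · exact hu l
  have ea : ∀ (z : Fin k → U) (i : Fin k) (y : U), S.pol {i} z y =
      S.w fun l => if l = i then y else z l := by
    intro z i y
    unfold Sys.pol
    congr 1
    funext l
    simp
  -- the background becomes constant
  have h1 : ∀ (z' : Fin k → U), (S.w fun l => if l = i then y else z' l) =
      S.w fun l => if l = i then y' else z' l := by
    intro z'
    rw [ea, ea] at h
    exact hS.AB hk (hw ∅ S.a S.wa i) (hw ∅ S.b S.wb i) (hw ∅ S.c S.wc i)
      (fun _ => y) (fun _ => y') z z' h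
  have h2 : ∀ j : Fin k, S.w (update (fun _ => y) j y') = y := by
    intro j
    rw [S.wnu y y' j i]
    have h3 := h1 fun _ => y
    have e1 : (fun l => if l = i then y else y) = fun _ : Fin k => y := by
      funext l
      simp
    have e2 : (fun l => if l = i then y' else y) = update (fun _ => y) i y' := by
      funext l
      by_cases hl : l = i
      · subst hl
        simp
      · simp [hl]
    rw [e1, e2, S.idem] at h3
    exact h3.symm
  have h5 : ∀ s : Finset (Fin k), S.pol s (fun _ => y) y' = y := by
    intro s
    induction s using Finset.induction_on with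
    | empty =>
      unfold Sys.pol
      simp [S.idem]
    | insert j s hj ih =>
      have hc : ∀ {X : Type} (φ : U → X),
          (∀ z z' : Fin k → U, (∀ i, φ (z i) = φ (z' i)) → φ (S.w z) = φ (S.w z')) →
          Cmp φ fun (u : Unit → U) (p : Unit → U) =>
            S.w fun l => if l = j then p () else if l ∈ s then u () else y := by
        intro X φ hφ u u' p p' hu hp
        refine hφ _ _ fun l => ?_
        split_ifs
        · exact hp ()
        · exact hu ()
        · rfl
      have h6 := hS.AB hk (hc S.a S.wa) (hc S.b S.wb) (hc S.c S.wc) (fun _ => y) (fun _ => y')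
        (fun _ => y) (fun _ => y')
      have e1 : (S.w fun l => if l = j then y else if l ∈ s then y else y) = y := by
        simp [S.idem]
      have e2 : (S.w fun l => if l = j then y' else if l ∈ s then y else y) = y := by
        have : (fun l => if l = j then y' else if l ∈ s then y else y) =
            update (fun _ => y) j y' := by
          funext l
          by_cases hl : l = j
          · subst hl
            simp
          · simp [hl]
        rw [this, h2]
      have h7 := h6 (e1.trans e2.symm)
      have e3 : (S.w fun l => if l = j then y else if l ∈ s then y' else y) =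
          S.pol s (fun _ => y) y' := by
        unfold Sys.pol
        congr 1
        funext l
        by_cases hl : l = j
        · subst hl
          simp [hj]
        · simp [hl]
      have e4 : (S.w fun l => if l = j then y' else if l ∈ s then y' else y) =
          S.pol (insert j s) (fun _ => y) y' := by
        unfold Sys.pol
        congr 1
        funext l
        by_cases hl : l = j
        · subst hl
          simp
        · simp [hl]
      have h8 : (S.w fun l => if l = j then y else if l ∈ s then y' else y) =
        S.w fun l => if l = j then y' else if l ∈ s then y' else y := h7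
      rw [e3, e4] at h8
      rw [← h8]
      exact ih
  have h6 := h5 univ
  unfold Sys.pol at h6
  simp only [mem_univ, if_true] at h6
  rw [S.idem] at h6
  exact h6.symm

end Pool.Agent.Helper41K9.WN
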