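import Mathlib

/-!
# Ternary relations preserved by a weak near-unanimity operation: cancellation and permutability

`R` is a finite linear ternary relation with the coordinates `a, b, c`, and `w` is an idempotent
weak near-unanimity operation of arity `k` on `R` which acts on each coordinate.
-/

set_option autoImplicit false

namespace Pool.Agent.Helper41K9.WN

open Finset Function Relation

/-- A linear ternary relation `R` (with coordinates `a, b, c`) together with an idempotent weak
near-unanimity operation `w` acting on each coordinate. -/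
structure Sys (k : ℕ) (R A B C : Type) where
  w : (Fin k → R) → R
  a : R → A
  b : R → B
  c : R → C
  wa : ∀ z z' : Fin k → R, (∀ i, a (z i) = a (z' i)) → a (w z) = a (w z')
  wb : ∀ z z' : Fin k → R, (∀ i, b (z i) = b (z' i)) → b (w z) = b (w z')
  wc : ∀ z z' : Fin k → R, (∀ i, c (z i) = c (z' i)) → c (w z) = c (w z')
  idem : ∀ x, w (fun _ => x) = x
  wnu : ∀ x y i j, w (update (fun _ => x) i y) = w (update (fun _ => x) j y)
  ab : ∀ x y, a x = a y → b x = b y → x = y
  ac : ∀ x y, a x = a y → c x = c y → x = y
  bc : ∀ x y, b x = b y → c x = c y → x = y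

variable {k : ℕ} {R A B C : Type}

/-- Exchange the roles of `b` and `c`. -/
def Sys.swap (S : Sys k R A B C) : Sys k R A C B where
  w := S.w
  a := S.a
  b := S.c
  c := S.b
  wa := S.wa
  wb := S.wc
  wc := S.wb
  idem := S.idem
  wnu := S.wnu
  ab := S.ac
  ac := S.ab
  bc := fun x y h1 h2 => S.bc x y h2 h1

def Sys.St (S : Sys k R A B C) (x y : R) : Prop := S.b x = S.b y ∨ S.c x = S.c y

/-- The join of the kernels of `b` and `c`. -/
def Sys.Conn (S : Sys k R A B C) : R → R → Prop := ReflTransGen S.St

theorem Sys.conn_symm (S : Sys k R A B C) {x y : R} (h : S.Conn x y) : S.Conn y x := by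
  induction h with
  | refl => exact ReflTransGen.refl
  | tail _ h ih =>
    exact ReflTransGen.head (h.elim (fun h => Or.inl h.symm) fun h => Or.inr h.symm) ih

theorem Sys.conn_swap (S : Sys k R A B C) {x y : R} (h : S.Conn x y) : S.swap.Conn x y := by
  induction h with
  | refl => exact ReflTransGen.refl
  | tail _ h ih => exact ReflTransGen.tail ih (Or.symm h)

/-- The map `u ↦ w(z)` with the coordinates in `s` replaced by `u`. -/
def Sys.pol (S : Sys k R A B C) (s : Finset (Fin k)) (z : Fin k → R) (u : R) : R :=
  S.w fun l => if l ∈ s then u else z l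

theorem Sys.pol_a (S : Sys k R A B C) (s : Finset (Fin k)) (z : Fin k → R) {x y : R}
    (h : S.a x = S.a y) : S.a (S.pol s z x) = S.a (S.pol s z y) :=
  S.wa _ _ fun i => by split_ifs <;> first | exact h | rfl

theorem Sys.pol_b (S : Sys k R A B C) (s : Finset (Fin k)) (z : Fin k → R) {x y : R}
    (h : S.b x = S.b y) : S.b (S.pol s z x) = S.b (S.pol s z y) :=
  S.wb _ _ fun i => by split_ifs <;> first | exact h | rfl

theorem Sys.pol_c (S : Sys k R A B C) (s : Finset (Fin k)) (z : Fin k → R) {x y : R}
    (h : S.c x = S.c y) : S.c (S.pol s z x) = S.c (S.pol s z y) :=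
  S.wc _ _ fun i => by split_ifs <;> first | exact h | rfl

theorem Sys.pol_st (S : Sys k R A B C) (s : Finset (Fin k)) (z : Fin k → R) {x y : R}
    (h : S.St x y) : S.St (S.pol s z x) (S.pol s z y) :=
  h.elim (fun h => Or.inl (S.pol_b s z h)) fun h => Or.inr (S.pol_c s z h)

theorem Sys.pol_conn (S : Sys k R A B C) (s : Finset (Fin k)) (z : Fin k → R) {x y : R}
    (h : S.Conn x y) : S.Conn (S.pol s z x) (S.pol s z y) := by
  induction h with
  | refl => exact ReflTransGen.refl
  | tail _ h ih => exact ReflTransGen.tail ih (S.pol_st s z h)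

theorem Sys.w_conn (S : Sys k R A B C) {z z' : Fin k → R} (h : ∀ i, S.Conn (z i) (z' i)) :
    S.Conn (S.w z) (S.w z') := by
  have h1 : ∀ s : Finset (Fin k), S.Conn (S.w z) (S.w fun l => if l ∈ s then z' l else z l) := by
    intro s
    induction s using Finset.induction_on with
    | empty =>
      have : (fun l => if l ∈ (∅ : Finset (Fin k)) then z' l else z l) = z := by
        funext l
        simp
      rw [this]
      exact ReflTransGen.refl
    | insert j s hj ih =>
      refine ReflTransGen.trans ih ?_
      have h2 := S.pol_conn {j} (fun l => if l ∈ s then z' l else z l) (h j)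
      have h3 : S.pol {j} (fun l => if l ∈ s then z' l else z l) (z j) =
          S.w fun l => if l ∈ s then z' l else z l := by
        unfold Sys.pol
        congr 1
        funext l
        by_cases hl : l = j
        · subst hl
          simp [hj]
        · simp [hl]
      have h4 : S.pol {j} (fun l => if l ∈ s then z' l else z l) (z' j) =
          S.w fun l => if l ∈ insert j s then z' l else z l := by
        unfold Sys.pol
        congr 1
        funext l
        by_cases hl : l = j
        · subst hl
          simp
        · simp [hl]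
      rw [h3, h4] at h2
      exact h2
  have h2 := h1 univ
  simpa using h2

/-- The term condition. -/
theorem Sys.tc (S : Sys k R A B C) (s : Finset (Fin k)) (z z' : Fin k → R)
    (hz : ∀ l, l ∉ s → S.a (z l) = S.a (z' l)) {x y : R} (h : S.Conn x y)
    (hx : S.pol s z x = S.pol s z' x) : S.pol s z y = S.pol s z' y := by
  have ha : ∀ u, S.a (S.pol s z u) = S.a (S.pol s z' u) := fun u =>
    S.wa _ _ fun i => by
      by_cases hi : i ∈ s
      · simp [hi]
      · simp [hi, hz i hi]
  induction h with
  | refl => exact hx
  | tail _ hbc ih =>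
    rcases hbc with h | h
    · exact S.ab _ _ (ha _) (by rw [← S.pol_b s z h, ← S.pol_b s z' h, ih])
    · exact S.ac _ _ (ha _) (by rw [← S.pol_c s z h, ← S.pol_c s z' h, ih])

/-- Cancellation. -/
theorem Sys.cancel (S : Sys k R A B C) (z : Fin k → R) (i : Fin k) (y y' : R)
    (hz : ∀ j, S.Conn (z j) y) (hy : S.Conn y y') (ha : S.a y = S.a y')
    (h : S.pol {i} z y = S.pol {i} z y') : y = y' := by
  have h1 : ∀ s : Finset (Fin k),
      S.pol {i} (fun l => if l ∈ s then y else z l) y =
        S.pol {i} (fun l => if l ∈ s then y else z l) y' := by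
    intro s
    induction s using Finset.induction_on with
    | empty =>
      have : (fun l => if l ∈ (∅ : Finset (Fin k)) then y else z l) = z := by
        funext l
        simp
      rw [this]
      exact h
    | insert j s hj ih =>
      by_cases hji : j = i
      · subst hji
        have h2 : ∀ u, S.pol {j} (fun l => if l ∈ insert j s then y else z l) u =
            S.pol {j} (fun l => if l ∈ s then y else z l) u := by
          intro u
          unfold Sys.pol
          congr 1
          funext l
          by_cases hl : l = j
          · subst hl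
            simp
          · simp [hl]
        rw [h2, h2]
        exact ih
      · have h2 := S.tc {j} (fun l => if l = i then y else if l ∈ s then y else z l)
          (fun l => if l = i then y' else if l ∈ s then y else z l)
          (fun l _ => by
            by_cases hl : l = i
            · simp [hl, ha]
            · simp [hl]) (hz j)
        have h3 : ∀ v, S.pol {j} (fun l => if l = i then v else if l ∈ s then y else z l) (z j) =
            S.pol {i} (fun l => if l ∈ s then y else z l) v := by
          intro v
          unfold Sys.pol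
          congr 1
          funext l
          by_cases hl : l = j
          · subst hl
            simp [hji, hj]
          · simp [hl]
        have h4 : ∀ v, S.pol {j} (fun l => if l = i then v else if l ∈ s then y else z l) y =
            S.pol {i} (fun l => if l ∈ insert j s then y else z l) v := by
          intro v
          unfold Sys.pol
          congr 1
          funext l
          by_cases hl : l = j
          · subst hl
            simp [hji]
          · simp [hl]
        rw [h3, h3, h4, h4] at h2
        exact h2 ih
  have h2 : y = S.w (update (fun _ => y) i y') := by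
    have h3 := h1 univ
    have h4 : ∀ u, S.pol {i} (fun l => if l ∈ (univ : Finset (Fin k)) then y else z l) u =
        S.w (update (fun _ => y) i u) := by
      intro u
      unfold Sys.pol
      congr 1
      funext l
      by_cases hl : l = i
      · subst hl
        simp
      · simp [hl]
    rw [h4, h4] at h3
    rw [← h3, update_eq_self i (fun _ : Fin k => y), S.idem]
  have h5 : ∀ s : Finset (Fin k), S.pol s (fun _ => y) y' = y := by
    intro s
    induction s using Finset.induction_on with
    | empty =>
      unfold Sys.pol
      simp [S.idem]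
    | insert j s hj ih =>
      have h6 := S.tc s (fun _ => y) (update (fun _ => y) j y')
        (fun l _ => by
          by_cases hl : l = j
          · subst hl
            simp [ha]
          · simp [hl]) hy
      have h7 : S.pol s (fun _ => y) y = y := by
        unfold Sys.pol
        simp [S.idem]
      have h8 : S.pol s (update (fun _ => y) j y') y = y := by
        have h9 : S.pol s (update (fun _ => y) j y') y = S.w (update (fun _ => y) j y') := by
          unfold Sys.pol
          congr 1
          funext l
          by_cases hl : l = j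
          · subst hl
            simp [hj]
          · simp [hl]
        rw [h9, S.wnu y y' j i, ← h2]
      have h10 : S.pol s (update (fun _ => y) j y') y' = S.pol (insert j s) (fun _ => y) y' := by
        unfold Sys.pol
        congr 1
        funext l
        by_cases hl : l = j
        · subst hl
          simp
        · simp [hl]
      rw [← h10, ← h6 (h7.trans h8.symm)]
      exact ih
  have h6 := h5 univ
  unfold Sys.pol at h6
  simp only [mem_univ, if_true] at h6
  rw [S.idem] at h6
  exact h6.symm

/-- The composition of the kernels of `b` and `c`. -/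
def Sys.rho (S : Sys k R A B C) (x y : R) : Prop := ∃ m, S.b x = S.b m ∧ S.c m = S.c y

theorem Sys.rho_refl (S : Sys k R A B C) (x : R) : S.rho x x := ⟨x, rfl, rfl⟩

theorem Sys.rho_pol (S : Sys k R A B C) (s : Finset (Fin k)) (z : Fin k → R) {x y : R}
    (h : S.rho x y) : S.rho (S.pol s z x) (S.pol s z y) := by
  obtain ⟨m, h1, h2⟩ := h
  exact ⟨S.pol s z m, S.pol_b s z h1, S.pol_c s z h2⟩

theorem Sys.rho_conn (S : Sys k R A B C) {x y : R} (h : S.rho x y) : S.Conn x y := by
  obtain ⟨m, h1, h2⟩ := h
  exact ReflTransGen.tail (ReflTransGen.single (Or.inl h1)) (Or.inr h2)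

/-- The `n`-th power of `rho`. -/
def Sys.Rn (S : Sys k R A B C) : ℕ → R → R → Prop
  | 0, x, y => x = y
  | n + 1, x, y => ∃ t, S.rho x t ∧ S.Rn n t y

theorem Sys.Rn_pol (S : Sys k R A B C) (s : Finset (Fin k)) (z : Fin k → R) :
    ∀ (n : ℕ) {x y : R}, S.Rn n x y → S.Rn n (S.pol s z x) (S.pol s z y)
  | 0, x, y, h => by
    have h' : x = y := h
    rw [h']
    exact rfl
  | n + 1, x, y, h => by
    obtain ⟨t, h1, h2⟩ := h
    exact ⟨_, S.rho_pol s z h1, S.Rn_pol s z n h2⟩

theorem Sys.conn_Rn (S : Sys k R A B C) {x y : R} (h : S.Conn x y) : ∃ n, S.Rn (n + 1) x y := by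
  have h1 : ∃ n, S.Rn n x y := by
    induction h using ReflTransGen.head_induction_on with
    | refl => exact ⟨0, rfl⟩
    | head h _ ih =>
      obtain ⟨n, hn⟩ := ih
      rcases h with h | h
      · exact ⟨n + 1, _, ⟨_, h, rfl⟩, hn⟩
      · exact ⟨n + 1, _, ⟨_, rfl, h⟩, hn⟩
  obtain ⟨n, hn⟩ := h1
  exact ⟨n, x, S.rho_refl x, hn⟩

/-- An injective family with constant `a`, pairwise connected. -/
def Sys.Good (S : Sys k R A B C) {I : Type} (g : I → R) : Prop :=
  Injective g ∧ ∀ i j, S.a (g i) = S.a (g j) ∧ S.Conn (g i) (g j)

theorem Sys.good_pol (S : Sys k R A B C) {I : Type} {g : I → R} (hg : S.Good g) (z : Fin k → R)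
    (l : Fin k) (hz : ∀ i j, S.Conn (z j) (g i)) : S.Good fun i => S.pol {l} z (g i) := by
  refine ⟨fun i j hij => hg.1 ?_, fun i j => ⟨S.pol_a _ _ (hg.2 i j).1, S.pol_conn _ _ (hg.2 i j).2⟩⟩
  exact S.cancel z l (g i) (g j) (hz i) (hg.2 i j).2 (hg.2 i j).1 hij

/-- Shortening of a chain. -/
theorem Sys.short (S : Sys k R A B C) (hk : 2 ≤ k) {I : Type} (i0 j0 : I) :
    ∀ (n : ℕ) (g : I → R), S.Good g → S.Rn (n + 1) (g i0) (g j0) →
      ∃ g' : I → R, S.Good g' ∧ S.rho (g' i0) (g' j0) ∧
        ∀ i j, S.rho (g i) (g j) → S.rho (g' i) (g' j) := by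
  intro n
  induction n with
  | zero =>
    intro g hg h
    obtain ⟨t, h1, h2⟩ := h
    have h3 : t = g j0 := h2
    rw [h3] at h1
    exact ⟨g, hg, h1, fun _ _ h => h⟩
  | succ n ih =>
    intro g hg h
    obtain ⟨x2, hx2, x4, hx4, hn⟩ := h
    obtain ⟨x1, h1, h2⟩ := hx2
    obtain ⟨x3, h3, h4⟩ := hx4
    let m : Fin k := ⟨0, by omega⟩
    let l : Fin k := ⟨1, by omega⟩
    have hml : m ≠ l := by
      intro h
      have := congrArg Fin.val h
      simp [m, l] at this
    set z : Fin k → R := update (fun _ => g i0) m x2 with hzdef
    have hc2 : S.Conn (g i0) x2 := S.rho_conn ⟨x1, h1, h2⟩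
    have hz : ∀ i j, S.Conn (z j) (g i) := by
      intro i j
      by_cases hj : j = m
      · rw [hj, hzdef, update_self]
        exact (S.conn_symm hc2).trans (hg.2 i0 i).2
      · rw [hzdef, update_of_ne hj]
        exact (hg.2 i0 i).2
    have hg1 := S.good_pol hg z l hz
    have hr : S.rho (S.pol {l} z (g i0)) (S.pol {l} z x4) := by
      refine ⟨S.w (update (update (fun _ => g i0) m x1) l x3), ?_, ?_⟩
      · have e1 : S.pol {l} z (g i0) = S.w (update (fun _ => g i0) l x2) := by
          rw [← S.wnu (g i0) x2 m l]
          unfold Sys.pol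
          congr 1
          funext i
          by_cases hi : i = l
          · subst hi
            simp [update_of_ne hml.symm]
          · simp [hi, hzdef]
        rw [e1]
        refine S.wb _ _ fun i => ?_
        by_cases hi : i = l
        · subst hi
          simp [h3]
        · rw [update_of_ne hi, update_of_ne hi]
          by_cases him : i = m
          · subst him
            rw [update_self, h1]
          · rw [update_of_ne him]
      · refine S.wc _ _ fun i => ?_
        by_cases hi : i = l
        · subst hi
          simp [h4]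
        · rw [update_of_ne hi]
          simp only [mem_singleton, hi, if_false, hzdef]
          by_cases him : i = m
          · subst him
            rw [update_self, update_self, h2]
          · rw [update_of_ne him, update_of_ne him]
    obtain ⟨g', hg', h5, h6⟩ := ih (fun i => S.pol {l} z (g i)) hg1
      ⟨S.pol {l} z x4, hr, S.Rn_pol {l} z n hn⟩
    exact ⟨g', hg', h5, fun i j hij => h6 i j (S.rho_pol _ _ hij)⟩

/-- All pairs can be made `rho`-related. -/
theorem Sys.join (S : Sys k R A B C) (hk : 2 ≤ k) {I : Type} [Fintype I] (g : I → R)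
    (hg : S.Good g) : ∃ g' : I → R, S.Good g' ∧ ∀ i j, S.rho (g' i) (g' j) := by
  classical
  have h1 : ∀ P : Finset (I × I), ∃ g' : I → R, S.Good g' ∧ ∀ p ∈ P, S.rho (g' p.1) (g' p.2) := by
    intro P
    induction P using Finset.induction_on with
    | empty => exact ⟨g, hg, fun p hp => absurd hp (notMem_empty p)⟩
    | insert p P _ ih =>
      obtain ⟨g1, hg1, h1⟩ := ih
      obtain ⟨n, hn⟩ := S.conn_Rn (hg1.2 p.1 p.2).2
      obtain ⟨g2, hg2, h2, h3⟩ := S.short hk p.1 p.2 n g1 hg1 hn
      refine ⟨g2, hg2, fun q hq => ?_⟩
      rcases mem_insert.1 hq with rfl | hq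
      · exact h2
      · exact h3 _ _ (h1 q hq)
  obtain ⟨g', hg', h⟩ := h1 univ
  exact ⟨g', hg', fun i j => h (i, j) (mem_univ _)⟩

end Pool.Agent.Helper41K9.WN
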