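import Pool.Agent.Helper41K9.WN.Latin

/-!
# Sparse subsets of Latin squares, and the size of the blocks
-/

set_option autoImplicit false

namespace Pool.Agent.Helper41K9.WN

open Finset Function Relation

variable {k : ℕ} {R A B C : Type}

section greedy

variable [DecidableEq R] [DecidableEq A] [DecidableEq B] [DecidableEq C]

theorem card_image_insert {D : Type} [DecidableEq D] (f : R → D) (z : R) (T : Finset R) :
    #((insert z T).image f) ≤ #(T.image f) + 1 := by
  rw [image_insert]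
  exact card_insert_le _ _

theorem card_image_insert_mem {D : Type} [DecidableEq D] (f : R → D) (z : R) (T : Finset R)
    (h : f z ∈ T.image f) : #((insert z T).image f) = #(T.image f) := by
  rw [image_insert, insert_eq_of_mem h]

omit [DecidableEq R] in
theorem card_eq_mul {D E : Type} [DecidableEq D] [DecidableEq E] (f : R → D) (g : R → E)
    (T : Finset R) (hinj : ∀ x y, f x = f y → g x = g y → x = y)
    (hs : ∀ x ∈ T, ∀ y ∈ T, ∃ z ∈ T, f z = f x ∧ g z = g y) :
    #T = #(T.image f) * #(T.image g) := by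
  rw [← card_product]
  refine card_bij (fun x _ => (f x, g x)) (fun x hx => ?_) (fun x _ y _ h => ?_) fun p hp => ?_
  · exact mem_product.2 ⟨mem_image_of_mem f hx, mem_image_of_mem g hx⟩
  · exact hinj x y (congrArg Prod.fst h) (congrArg Prod.snd h)
  · rw [mem_product, mem_image, mem_image] at hp
    obtain ⟨⟨x, hx, h1⟩, ⟨y, hy, h2⟩⟩ := hp
    obtain ⟨z, hz, h3, h4⟩ := hs x hx y hy
    exact ⟨z, hz, Prod.ext (h3.trans h1) (h4.trans h2)⟩

/-- In a Latin square of at least `t ≥ 1` cells there are `t` cells which meet at most `t + 3` rows,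
columns and symbols. -/
theorem greedy (S : Sys k R A B C) (T : Finset R)
    (hab : ∀ x ∈ T, ∀ y ∈ T, ∃ z ∈ T, S.a z = S.a x ∧ S.b z = S.b y)
    (hac : ∀ x ∈ T, ∀ y ∈ T, ∃ z ∈ T, S.a z = S.a x ∧ S.c z = S.c y)
    (hbc : ∀ x ∈ T, ∀ y ∈ T, ∃ z ∈ T, S.b z = S.b x ∧ S.c z = S.c y) (t : ℕ) (ht : t + 1 ≤ #T) :
    ∃ T' ⊆ T, #T' = t + 1 ∧
      #(T'.image S.a) + #(T'.image S.b) + #(T'.image S.c) ≤ (t + 1) + 3 := by
  induction t with
  | zero =>
    obtain ⟨x, hx⟩ := card_pos.1 ht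
    exact ⟨{x}, singleton_subset_iff.2 hx, card_singleton x, by simp⟩
  | succ t ih =>
    obtain ⟨T', hT', h1, h2⟩ := ih (by omega)
    have hne : T'.Nonempty := card_pos.1 (by omega)
    by_cases hst : ∃ z ∈ T, z ∉ T' ∧
      ((S.a z ∈ T'.image S.a ∧ S.b z ∈ T'.image S.b) ∨
        (S.a z ∈ T'.image S.a ∧ S.c z ∈ T'.image S.c) ∨
        (S.b z ∈ T'.image S.b ∧ S.c z ∈ T'.image S.c))
    · obtain ⟨z, hz, hz', h3⟩ := hst
      refine ⟨insert z T', insert_subset hz hT', by rw [card_insert_of_notMem hz', h1], ?_⟩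
      have ia := card_image_insert S.a z T'
      have ib := card_image_insert S.b z T'
      have ic := card_image_insert S.c z T'
      rcases h3 with ⟨h3, h4⟩ | ⟨h3, h4⟩ | ⟨h3, h4⟩
      · rw [card_image_insert_mem S.a z T' h3, card_image_insert_mem S.b z T' h4]
        omega
      · rw [card_image_insert_mem S.a z T' h3, card_image_insert_mem S.c z T' h4]
        omega
      · rw [card_image_insert_mem S.b z T' h3, card_image_insert_mem S.c z T' h4]
        omega
    · have kab : #T' = #(T'.image S.a) * #(T'.image S.b) :=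
        card_eq_mul S.a S.b T' S.ab fun x hx y hy => by
          obtain ⟨z, hz, h3, h4⟩ := hab x (hT' hx) y (hT' hy)
          refine ⟨z, ?_, h3, h4⟩
          by_contra hz'
          exact hst ⟨z, hz, hz', Or.inl ⟨h3 ▸ mem_image_of_mem _ hx, h4 ▸ mem_image_of_mem _ hy⟩⟩
      have kac : #T' = #(T'.image S.a) * #(T'.image S.c) :=
        card_eq_mul S.a S.c T' S.ac fun x hx y hy => by
          obtain ⟨z, hz, h3, h4⟩ := hac x (hT' hx) y (hT' hy)
          refine ⟨z, ?_, h3, h4⟩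
          by_contra hz'
          exact hst ⟨z, hz, hz', Or.inr (Or.inl
            ⟨h3 ▸ mem_image_of_mem _ hx, h4 ▸ mem_image_of_mem _ hy⟩)⟩
      have kbc : #T' = #(T'.image S.b) * #(T'.image S.c) :=
        card_eq_mul S.b S.c T' S.bc fun x hx y hy => by
          obtain ⟨z, hz, h3, h4⟩ := hbc x (hT' hx) y (hT' hy)
          refine ⟨z, ?_, h3, h4⟩
          by_contra hz'
          exact hst ⟨z, hz, hz', Or.inr (Or.inr
            ⟨h3 ▸ mem_image_of_mem _ hx, h4 ▸ mem_image_of_mem _ hy⟩)⟩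
      have pa : 0 < #(T'.image S.a) := card_pos.2 (hne.image _)
      have pb : 0 < #(T'.image S.b) := card_pos.2 (hne.image _)
      have e1 : #(T'.image S.b) = #(T'.image S.c) :=
        Nat.eq_of_mul_eq_mul_left pa (kab.symm.trans kac)
      have e2 : #(T'.image S.a) = #(T'.image S.c) := by
        refine Nat.eq_of_mul_eq_mul_left pb ?_
        rw [mul_comm, ← kab, kbc]
      have h3 : #(T'.image S.a) + #(T'.image S.b) + #(T'.image S.c) ≤ #T' + 2 := by
        rw [kab, e1, e2]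
        rw [e2] at pa
        generalize #(T'.image S.c) = m at pa ⊢
        obtain ⟨q, rfl⟩ : ∃ q, m = q + 1 := ⟨m - 1, by omega⟩
        nlinarith [Nat.zero_le (q * q), Nat.le_mul_self q]
      -- find an edge outside which shares one coordinate
      have h4 : ∃ z ∈ T, z ∉ T' ∧ (S.b z ∈ T'.image S.b ∨ S.c z ∈ T'.image S.c) := by
        obtain ⟨z0, hz0, hz0'⟩ : ∃ z0 ∈ T, z0 ∉ T' := by
          by_contra hcon
          push Not at hcon
          have := card_le_card (show T ⊆ T' from hcon)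
          omega
        obtain ⟨x, hx⟩ := hne
        obtain ⟨z, hz, h5, h6⟩ := hbc x (hT' hx) z0 hz0
        by_cases hz' : z ∈ T'
        · exact ⟨z0, hz0, hz0', Or.inr (h6 ▸ mem_image_of_mem _ hz')⟩
        · exact ⟨z, hz, hz', Or.inl (h5 ▸ mem_image_of_mem _ hx)⟩
      obtain ⟨z, hz, hz', h5⟩ := h4
      refine ⟨insert z T', insert_subset hz hT', by rw [card_insert_of_notMem hz', h1], ?_⟩
      have ia := card_image_insert S.a z T'
      have ib := card_image_insert S.b z T'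
      have ic := card_image_insert S.c z T'
      rcases h5 with h5 | h5
      · rw [card_image_insert_mem S.b z T' h5]
        omega
      · rw [card_image_insert_mem S.c z T' h5]
        omega

end greedy

/-- `T` is a Latin square of order `s` (its cells are the elements of `T`). -/
structure IsLatin [DecidableEq A] [DecidableEq B] [DecidableEq C] (S : Sys k R A B C)
    (T : Finset R) (s : ℕ) : Prop where
  ab : ∀ x ∈ T, ∀ y ∈ T, ∃ z ∈ T, S.a z = S.a x ∧ S.b z = S.b y
  ac : ∀ x ∈ T, ∀ y ∈ T, ∃ z ∈ T, S.a z = S.a x ∧ S.c z = S.c y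
  bc : ∀ x ∈ T, ∀ y ∈ T, ∃ z ∈ T, S.b z = S.b x ∧ S.c z = S.c y
  card : #T = s ^ 2
  ca : #(T.image S.a) = s
  cb : #(T.image S.b) = s
  cc : #(T.image S.c) = s

/-- A block of at least `s` elements gives a Latin square of order at least `s`. -/
theorem block_latin [Fintype R] [DecidableEq A] [DecidableEq B] [DecidableEq C]
    (S : Sys k R A B C) (hk : 2 ≤ k)
    (W : Finset R) (hWa : ∀ x ∈ W, ∀ y ∈ W, S.a x = S.a y)
    (hWc : ∀ x ∈ W, ∀ y ∈ W, S.Conn x y) : ∃ (T : Finset R) (s : ℕ), IsLatin S T s ∧ #W ≤ s := by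
  classical
  have hg : S.Good (fun x : {x // x ∈ W} => x.1) :=
    ⟨Subtype.val_injective, fun i j => ⟨hWa _ i.2 _ j.2, hWc _ i.2 _ j.2⟩⟩
  obtain ⟨g', hg', hr⟩ := S.join hk _ hg
  have hb := blk_cl S hg' hr
  set K : R → Prop := Cl S fun x => ∃ i, g' i = x with hK
  have hgK : ∀ i, K (g' i) := fun i => Cl.base _ ⟨i, rfl⟩
  let T : Finset R := univ.filter fun z => Rect S K z
  have hKT : ∀ z, K z → z ∈ T := fun z hz => mem_filter.2 ⟨mem_univ _, z, z, hz, hz, rfl, rfl⟩
  have hco : ∀ x ∈ T, ∀ y ∈ T, _ := fun x hx y hy =>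
    hb.complete hk (mem_filter.1 hx).2 (mem_filter.1 hy).2
  have hab : ∀ x ∈ T, ∀ y ∈ T, ∃ z ∈ T, S.a z = S.a x ∧ S.b z = S.b y := fun x hx y hy => by
    obtain ⟨z, hz, h⟩ := (hco x hx y hy).1
    exact ⟨z, mem_filter.2 ⟨mem_univ _, hz⟩, h⟩
  have hac : ∀ x ∈ T, ∀ y ∈ T, ∃ z ∈ T, S.a z = S.a x ∧ S.c z = S.c y := fun x hx y hy => by
    obtain ⟨z, hz, h⟩ := (hco x hx y hy).2.1
    exact ⟨z, mem_filter.2 ⟨mem_univ _, hz⟩, h⟩
  have hbc : ∀ x ∈ T, ∀ y ∈ T, ∃ z ∈ T, S.b z = S.b x ∧ S.c z = S.c y := fun x hx y hy => by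
    obtain ⟨z, hz, h⟩ := (hco x hx y hy).2.2
    exact ⟨z, mem_filter.2 ⟨mem_univ _, hz⟩, h⟩
  have hW : #W ≤ #(T.image S.b) := by
    have h2 : Injective fun i => S.b (g' i) := fun i j hij =>
      hg'.1 (S.ab _ _ (hg'.2 _ _).1 hij)
    have h3 : univ.image (fun i => S.b (g' i)) ⊆ T.image S.b := by
      intro y hy
      obtain ⟨i, -, rfl⟩ := mem_image.1 hy
      exact mem_image_of_mem _ (hKT _ (hgK i))
    have h4 := card_le_card h3
    rwa [card_image_of_injective _ h2, card_univ, Fintype.card_coe] at h4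
  have kab := card_eq_mul S.a S.b T S.ab hab
  have kac := card_eq_mul S.a S.c T S.ac hac
  have kbc := card_eq_mul S.b S.c T S.bc hbc
  rcases T.eq_empty_or_nonempty with hT | hT
  · refine ⟨T, 0, ⟨hab, hac, hbc, by simp [hT], by simp [hT], by simp [hT], by simp [hT]⟩, ?_⟩
    simpa [hT] using hW
  · have pa : 0 < #(T.image S.a) := card_pos.2 (hT.image _)
    have pc : 0 < #(T.image S.c) := card_pos.2 (hT.image _)
    have e1 : #(T.image S.b) = #(T.image S.c) :=
      Nat.eq_of_mul_eq_mul_left pa (kab.symm.trans kac)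
    have e2 : #(T.image S.a) = #(T.image S.b) :=
      Nat.eq_of_mul_eq_mul_right pc (kac.symm.trans kbc)
    exact ⟨T, #(T.image S.b), ⟨hab, hac, hbc, by rw [kab, e2, pow_two], e2, rfl, e1.symm⟩, hW⟩

/-- An application of the inequality of Cauchy and Schwarz. -/
theorem cauchy {Q : Type} [Fintype Q] (N s nA nB nC : ℕ) (W Wb Wc : Q → ℕ) (h1 : N = ∑ q, W q)
    (h2 : ∀ q, W q ≤ s * nA) (h3 : ∀ q, W q ≤ Wb q * Wc q) (h4 : ∑ q, Wb q ≤ nB)
    (h5 : ∑ q, Wc q ≤ nC) : N ^ 2 ≤ s * (nA * nB * nC) := by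
  have hK : (0 : ℝ) ≤ √((s : ℝ) * nA) := Real.sqrt_nonneg _
  have h6 : ∀ q, (W q : ℝ) ≤ √((s : ℝ) * nA) * (√(Wb q : ℝ) * √(Wc q : ℝ)) := by
    intro q
    have e2 : (W q : ℝ) ≤ (s : ℝ) * nA := by exact_mod_cast h2 q
    have e3 : (W q : ℝ) ≤ (Wb q : ℝ) * (Wc q : ℝ) := by exact_mod_cast h3 q
    rw [← Real.sqrt_mul (Nat.cast_nonneg (Wb q))]
    calc (W q : ℝ) = √(W q : ℝ) * √(W q : ℝ) := (Real.mul_self_sqrt (Nat.cast_nonneg _)).symm
      _ ≤ _ := mul_le_mul (Real.sqrt_le_sqrt e2) (Real.sqrt_le_sqrt e3) (Real.sqrt_nonneg _) hK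
  have h7 : (N : ℝ) ≤ √((s : ℝ) * nA) * (√(nB : ℝ) * √(nC : ℝ)) := by
    have e4 := Real.sum_sqrt_mul_sqrt_le (univ : Finset Q)
      (f := fun q => (Wb q : ℝ)) (g := fun q => (Wc q : ℝ))
      (fun _ => Nat.cast_nonneg _) (fun _ => Nat.cast_nonneg _)
    have e5 : √(∑ q, (Wb q : ℝ)) ≤ √(nB : ℝ) := Real.sqrt_le_sqrt (by exact_mod_cast h4)
    have e6 : √(∑ q, (Wc q : ℝ)) ≤ √(nC : ℝ) := Real.sqrt_le_sqrt (by exact_mod_cast h5)
    calc (N : ℝ) = ∑ q, (W q : ℝ) := by rw [h1]; push_cast; rfl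
      _ ≤ ∑ q, √((s : ℝ) * nA) * (√(Wb q : ℝ) * √(Wc q : ℝ)) := sum_le_sum fun q _ => h6 q
      _ = √((s : ℝ) * nA) * ∑ q, √(Wb q : ℝ) * √(Wc q : ℝ) := by rw [mul_sum]
      _ ≤ √((s : ℝ) * nA) * (√(∑ q, (Wb q : ℝ)) * √(∑ q, (Wc q : ℝ))) :=
        mul_le_mul_of_nonneg_left e4 hK
      _ ≤ _ := mul_le_mul_of_nonneg_left
        (mul_le_mul e5 e6 (Real.sqrt_nonneg _) (Real.sqrt_nonneg _)) hK
  have h8 : (N : ℝ) ^ 2 ≤ s * (nA * nB * nC) := by
    calc (N : ℝ) ^ 2 ≤ (√((s : ℝ) * nA) * (√(nB : ℝ) * √(nC : ℝ))) ^ 2 :=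
        pow_le_pow_left₀ (Nat.cast_nonneg _) h7 2
      _ = s * (nA * nB * nC) := by
        rw [mul_pow, mul_pow, Real.sq_sqrt (by positivity), Real.sq_sqrt (by positivity),
          Real.sq_sqrt (by positivity)]
        ring
  exact_mod_cast h8

/-- Counting. -/
theorem count [Fintype R] [DecidableEq A] [DecidableEq B] [DecidableEq C]
    (S : Sys k R A B C) (s : ℕ)
    (hs : ∀ W : Finset R, (∀ x ∈ W, ∀ y ∈ W, S.a x = S.a y) →
      (∀ x ∈ W, ∀ y ∈ W, S.Conn x y) → #W ≤ s) :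
    Fintype.card R ^ 2 ≤
      s * (#((univ : Finset R).image S.a) * #((univ : Finset R).image S.b) *
        #((univ : Finset R).image S.c)) := by
  classical
  let st : Setoid R := ⟨S.Conn, fun _ => ReflTransGen.refl, S.conn_symm, fun h1 h2 => h1.trans h2⟩
  let cl : R → Quotient st := fun x => Quotient.mk st x
  have hcl : ∀ x y, cl x = cl y → S.Conn x y := fun x y h => Quotient.exact h
  let W : Quotient st → Finset R := fun q => univ.filter fun x => cl x = q
  have hW : ∀ q, ∀ x ∈ W q, ∀ y ∈ W q, S.Conn x y := fun q x hx y hy =>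
    hcl x y ((mem_filter.1 hx).2.trans (mem_filter.1 hy).2.symm)
  have h1 : Fintype.card R = ∑ q, #(W q) := by
    rw [← card_univ]
    exact card_eq_sum_card_fiberwise fun x _ => by simp
  have h2 : ∀ q, #(W q) ≤ s * #((univ : Finset R).image S.a) := by
    intro q
    refine (card_le_mul_card_image (f := S.a) (W q) s fun α _ => ?_).trans
      (Nat.mul_le_mul_left _ (card_le_card (image_subset_image (subset_univ _))))
    refine hs _ (fun x hx y hy => ?_) fun x hx y hy => ?_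
    · rw [(mem_filter.1 hx).2, (mem_filter.1 hy).2]
    · exact hW q x (mem_filter.1 hx).1 y (mem_filter.1 hy).1
  have h3 : ∀ q, #(W q) ≤ #((W q).image S.b) * #((W q).image S.c) := by
    intro q
    rw [← card_product]
    refine card_le_card_of_injOn (fun x => (S.b x, S.c x)) (fun x hx => ?_) fun x _ y _ h => ?_
    · exact mem_coe.2 (mem_product.2 ⟨mem_image_of_mem _ hx, mem_image_of_mem _ hx⟩)
    · exact S.bc x y (congrArg Prod.fst h) (congrArg Prod.snd h)
  have h4 : ∑ q, #((W q).image S.b) ≤ #((univ : Finset R).image S.b) := by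
    rw [← card_biUnion]
    · refine card_le_card fun β hβ => ?_
      obtain ⟨q, -, hq⟩ := mem_biUnion.1 hβ
      exact image_subset_image (subset_univ _) hq
    · intro q _ q' _ hqq'
      refine disjoint_left.2 fun β hβ hβ' => hqq' ?_
      obtain ⟨x, hx, rfl⟩ := mem_image.1 hβ
      obtain ⟨y, hy, hxy⟩ := mem_image.1 hβ'
      rw [← (mem_filter.1 hx).2, ← (mem_filter.1 hy).2]
      exact Quotient.sound (ReflTransGen.single (Or.inl hxy.symm))
  have h5 : ∑ q, #((W q).image S.c) ≤ #((univ : Finset R).image S.c) := by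
    rw [← card_biUnion]
    · refine card_le_card fun β hβ => ?_
      obtain ⟨q, -, hq⟩ := mem_biUnion.1 hβ
      exact image_subset_image (subset_univ _) hq
    · intro q _ q' _ hqq'
      refine disjoint_left.2 fun β hβ hβ' => hqq' ?_
      obtain ⟨x, hx, rfl⟩ := mem_image.1 hβ
      obtain ⟨y, hy, hxy⟩ := mem_image.1 hβ'
      rw [← (mem_filter.1 hx).2, ← (mem_filter.1 hy).2]
      exact Quotient.sound (ReflTransGen.single (Or.inr hxy.symm))
  generalize #((univ : Finset R).image S.a) = nA at *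
  generalize #((univ : Finset R).image S.b) = nB at *
  generalize #((univ : Finset R).image S.c) = nC at *
  exact cauchy (Fintype.card R) s nA nB nC (fun q => #(W q)) (fun q => #((W q).image S.b))
    (fun q => #((W q).image S.c)) h1 h2 h3 h4 h5

/-- A relation with many elements contains a large Latin square. -/
theorem exists_latin [Fintype R] [DecidableEq A] [DecidableEq B] [DecidableEq C]
    (S : Sys k R A B C) (hk : 2 ≤ k) : ∃ (T : Finset R) (s : ℕ), IsLatin S T s ∧
      Fintype.card R ^ 2 ≤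
        s * (#((univ : Finset R).image S.a) * #((univ : Finset R).image S.b) *
          #((univ : Finset R).image S.c)) := by
  classical
  obtain ⟨W, hW, hmax⟩ := exists_max_image
    (univ.filter fun W : Finset R => (∀ x ∈ W, ∀ y ∈ W, S.a x = S.a y) ∧
      ∀ x ∈ W, ∀ y ∈ W, S.Conn x y) (fun W => #W)
    ⟨∅, mem_filter.2 ⟨mem_univ _, by simp, by simp⟩⟩
  obtain ⟨T, s, hT, hs⟩ := block_latin S hk W (mem_filter.1 hW).2.1 (mem_filter.1 hW).2.2
  refine ⟨T, s, hT, count S s fun W' h1 h2 => ?_⟩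
  exact (hmax W' (mem_filter.2 ⟨mem_univ _, h1, h2⟩)).trans hs

/-- The bound for three coordinates. -/
theorem three [Fintype R] [DecidableEq A] [DecidableEq B] [DecidableEq C]
    (S : Sys k R A B C) (hk : 2 ≤ k) (e : ℕ) (he : 1 ≤ e)
    (hsp : ∀ T : Finset R, #T = e →
      e + 3 < #(T.image S.a) + #(T.image S.b) + #(T.image S.c)) :
    Fintype.card R ^ 2 ≤
      Nat.sqrt (e - 1) * (#((univ : Finset R).image S.a) * #((univ : Finset R).image S.b) *
        #((univ : Finset R).image S.c)) := by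
  classical
  obtain ⟨T, s, hT, h1⟩ := exists_latin S hk
  refine h1.trans (Nat.mul_le_mul_right _ (Nat.le_sqrt'.2 ?_))
  by_contra hcon
  have h2 : e - 1 + 1 ≤ #T := by
    rw [hT.card]
    omega
  obtain ⟨T', -, h3, h4⟩ := greedy S T hT.ab hT.ac hT.bc (e - 1) h2
  rw [Nat.sub_add_cancel he] at h3 h4
  exact absurd (hsp T' h3) (by omega)

end Pool.Agent.Helper41K9.WN
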