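import Pool.Agent.Helper41K9.WN.Abel
import Pool.Agent.Helper41K9.WN.Greedy

/-!
# A dense subset of a relation is dense in a connected subalgebra
-/

set_option autoImplicit false

namespace Pool.Agent.Helper41K9.WN

open Finset Function Relation

variable {k : ℕ} {R A B C : Type}

/-- Cauchy and Schwarz, with weights. -/
theorem cauchy2 {Q : Type} [Fintype Q] [Nonempty Q] (d κ1 κ2 nA nB nC : ℕ) (D Wa Wb Wc : Q → ℕ)
    (h1 : d = ∑ q, D q) (h2 : ∀ q, Wa q ≤ nA)
    (h3 : ∀ q, κ2 * D q ^ 2 < κ1 * (Wa q * Wb q * Wc q)) (h4 : ∑ q, Wb q ≤ nB)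
    (h5 : ∑ q, Wc q ≤ nC) : κ2 * d ^ 2 < κ1 * (nA * nB * nC) := by
  have hK : (0 : ℝ) ≤ √((κ1 : ℝ) * nA) := Real.sqrt_nonneg _
  have h6 : ∀ q, √(κ2 : ℝ) * (D q : ℝ) < √((κ1 : ℝ) * nA) * (√(Wb q : ℝ) * √(Wc q : ℝ)) := by
    intro q
    have e3 : (κ2 : ℝ) * (D q : ℝ) ^ 2 < (κ1 : ℝ) * nA * ((Wb q : ℝ) * (Wc q : ℝ)) := by
      have e4 : κ2 * D q ^ 2 < κ1 * nA * (Wb q * Wc q) := by
        refine (h3 q).trans_le ?_
        calc κ1 * (Wa q * Wb q * Wc q) = κ1 * Wa q * (Wb q * Wc q) := by ring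
          _ ≤ κ1 * nA * (Wb q * Wc q) := by
            have := h2 q
            gcongr
      exact_mod_cast e4
    rw [← Real.sqrt_mul (Nat.cast_nonneg (Wb q)), ← Real.sqrt_mul (by positivity)]
    refine Real.lt_sqrt_of_sq_lt ?_
    rw [mul_pow, Real.sq_sqrt (by positivity)]
    exact e3
  have h7 : √(κ2 : ℝ) * (d : ℝ) < √((κ1 : ℝ) * nA) * (√(nB : ℝ) * √(nC : ℝ)) := by
    have e4 := Real.sum_sqrt_mul_sqrt_le (univ : Finset Q)
      (f := fun q => (Wb q : ℝ)) (g := fun q => (Wc q : ℝ))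
      (fun _ => Nat.cast_nonneg _) (fun _ => Nat.cast_nonneg _)
    have e5 : √(∑ q, (Wb q : ℝ)) ≤ √(nB : ℝ) := Real.sqrt_le_sqrt (by exact_mod_cast h4)
    have e6 : √(∑ q, (Wc q : ℝ)) ≤ √(nC : ℝ) := Real.sqrt_le_sqrt (by exact_mod_cast h5)
    calc √(κ2 : ℝ) * (d : ℝ) = ∑ q, √(κ2 : ℝ) * (D q : ℝ) := by
          rw [← mul_sum, h1]
          push_cast
          rfl
      _ < ∑ q, √((κ1 : ℝ) * nA) * (√(Wb q : ℝ) * √(Wc q : ℝ)) :=
        sum_lt_sum_of_nonempty univ_nonempty fun q _ => h6 q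
      _ = √((κ1 : ℝ) * nA) * ∑ q, √(Wb q : ℝ) * √(Wc q : ℝ) := by rw [mul_sum]
      _ ≤ √((κ1 : ℝ) * nA) * (√(∑ q, (Wb q : ℝ)) * √(∑ q, (Wc q : ℝ))) :=
        mul_le_mul_of_nonneg_left e4 hK
      _ ≤ _ := mul_le_mul_of_nonneg_left
        (mul_le_mul e5 e6 (Real.sqrt_nonneg _) (Real.sqrt_nonneg _)) hK
  have h8 : (κ2 : ℝ) * (d : ℝ) ^ 2 < κ1 * (nA * nB * nC) := by
    calc (κ2 : ℝ) * (d : ℝ) ^ 2 = (√(κ2 : ℝ) * (d : ℝ)) ^ 2 := by
          rw [mul_pow, Real.sq_sqrt (by positivity)]
      _ < (√((κ1 : ℝ) * nA) * (√(nB : ℝ) * √(nC : ℝ))) ^ 2 :=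
        pow_lt_pow_left₀ h7 (by positivity) (by norm_num)
      _ = κ1 * (nA * nB * nC) := by
        rw [mul_pow, mul_pow, Real.sq_sqrt (by positivity), Real.sq_sqrt (by positivity),
          Real.sq_sqrt (by positivity)]
        ring
  exact_mod_cast h8

/-- One of the classes of the join of the kernels of `b` and `c` is as good as the whole relation. -/
theorem cut [Fintype R] [Nonempty R] [DecidableEq R] [DecidableEq A] [DecidableEq B]
    [DecidableEq C] (S : Sys k R A B C) (D : Finset R) (κ1 κ2 : ℕ)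
    (h : κ1 * (#((univ : Finset R).image S.a) * #((univ : Finset R).image S.b) *
      #((univ : Finset R).image S.c)) ≤ κ2 * #D ^ 2) :
    ∃ (x : R) (W : Finset R), (∀ y, y ∈ W ↔ S.Conn x y) ∧
      κ1 * (#(W.image S.a) * #(W.image S.b) * #(W.image S.c)) ≤ κ2 * #(D ∩ W) ^ 2 := by
  classical
  let st : Setoid R := ⟨S.Conn, fun _ => ReflTransGen.refl, S.conn_symm, fun h1 h2 => h1.trans h2⟩
  let cl : R → Quotient st := fun x => Quotient.mk st x
  let W : Quotient st → Finset R := fun q => univ.filter fun x => cl x = q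
  have hWm : ∀ x y, y ∈ W (cl x) ↔ S.Conn x y := by
    intro x y
    rw [mem_filter]
    constructor
    · rintro ⟨-, h⟩
      exact S.conn_symm (Quotient.exact h)
    · intro h
      exact ⟨mem_univ _, Quotient.sound (S.conn_symm h)⟩
  by_contra hcon
  push Not at hcon
  have _ : Nonempty (Quotient st) := ⟨cl (Classical.arbitrary R)⟩
  have hne : ∀ q : Quotient st, ∃ x, cl x = q := fun q => Quotient.exists_rep q
  have h3 : ∀ q, κ2 * #(D ∩ W q) ^ 2 <
      κ1 * (#((W q).image S.a) * #((W q).image S.b) * #((W q).image S.c)) := by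
    intro q
    obtain ⟨x, rfl⟩ := hne q
    exact hcon x (W (cl x)) (hWm x)
  have h1 : #D = ∑ q, #(D ∩ W q) := by
    rw [card_eq_sum_card_fiberwise (f := cl) (s := D) (t := univ) fun x _ => by simp]
    refine sum_congr rfl fun q _ => ?_
    congr 1
    ext x
    simp [W]
  have h2 : ∀ q, #((W q).image S.a) ≤ #((univ : Finset R).image S.a) := fun q =>
    card_le_card (image_subset_image (subset_univ _))
  have h4 : ∑ q, #((W q).image S.b) ≤ #((univ : Finset R).image S.b) := by
    rw [← card_biUnion]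
    · refine card_le_card fun β hβ => ?_
      obtain ⟨q, -, hq⟩ := mem_biUnion.1 hβ
      exact image_subset_image (subset_univ _) hq
    · intro q _ q' _ hqq'
      refine disjoint_left.2 fun β hβ hβ' => hqq' ?_
      obtain ⟨x, hx, rfl⟩ := mem_image.1 hβ
      obtain ⟨y, hy, hxy⟩ := mem_image.1 hβ'
      rw [← (mem_filter.1 hx).2, ← (mem_filter.1 hy).2]
      exact Quotient.sound (ReflTransGen.single (Or.inl hxy.symm))
  have h5 : ∑ q, #((W q).image S.c) ≤ #((univ : Finset R).image S.c) := by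
    rw [← card_biUnion]
    · refine card_le_card fun β hβ => ?_
      obtain ⟨q, -, hq⟩ := mem_biUnion.1 hβ
      exact image_subset_image (subset_univ _) hq
    · intro q _ q' _ hqq'
      refine disjoint_left.2 fun β hβ hβ' => hqq' ?_
      obtain ⟨x, hx, rfl⟩ := mem_image.1 hβ
      obtain ⟨y, hy, hxy⟩ := mem_image.1 hβ'
      rw [← (mem_filter.1 hx).2, ← (mem_filter.1 hy).2]
      exact Quotient.sound (ReflTransGen.single (Or.inr hxy.symm))
  have := cauchy2 #D κ1 κ2 _ _ _ (fun q => #(D ∩ W q)) (fun q => #((W q).image S.a))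
    (fun q => #((W q).image S.b)) (fun q => #((W q).image S.c)) h1 h2 h3 h4 h5
  omega

/-- The restriction of a system to a subalgebra. -/
def Sys.sub (S : Sys k R A B C) (K : Finset R) (hK : ∀ z : Fin k → R, (∀ i, z i ∈ K) → S.w z ∈ K) :
    Sys k {x // x ∈ K} A B C where
  w := fun z => ⟨S.w fun i => (z i).1, hK _ fun i => (z i).2⟩
  a := fun x => S.a x.1
  b := fun x => S.b x.1
  c := fun x => S.c x.1
  wa := fun z z' h => S.wa _ _ h
  wb := fun z z' h => S.wb _ _ h
  wc := fun z z' h => S.wc _ _ h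
  idem := fun x => Subtype.ext (S.idem x.1)
  wnu := fun x y i j => Subtype.ext (by
    have h0 : ∀ m : Fin k, (fun i => (update (fun _ => x) m y i).1) =
        update (fun _ => x.1) m y.1 := by
      intro m
      funext j
      by_cases hj : j = m
      · subst hj
        simp
      · simp [hj]
    show (S.w fun i' => (update (fun _ => x) i y i').1) =
      S.w fun i' => (update (fun _ => x) j y i').1
    rw [h0, h0]
    exact S.wnu _ _ _ _)
  ab := fun x y h1 h2 => Subtype.ext (S.ab _ _ h1 h2)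
  ac := fun x y h1 h2 => Subtype.ext (S.ac _ _ h1 h2)
  bc := fun x y h1 h2 => Subtype.ext (S.bc _ _ h1 h2)

theorem exists_tot [Fintype R] [DecidableEq R] [DecidableEq A] [DecidableEq B]
    [DecidableEq C] (S : Sys k R A B C) (D : Finset R) (hD : D.Nonempty) :
    ∃ (K : Finset R) (hK : ∀ z : Fin k → R, (∀ i, z i ∈ K) → S.w z ∈ K), K.Nonempty ∧
      Tot (S.sub K hK) ∧
      #D ^ 2 * (#(K.image S.a) * #(K.image S.b) * #(K.image S.c)) ≤
        (#((univ : Finset R).image S.a) * #((univ : Finset R).image S.b) *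
          #((univ : Finset R).image S.c)) * #(D ∩ K) ^ 2 := by
  classical
  set κ1 := #D ^ 2 with hκ1
  set κ2 := #((univ : Finset R).image S.a) * #((univ : Finset R).image S.b) *
          #((univ : Finset R).image S.c) with hκ2
  let P : Finset R → Prop := fun K => (∀ z : Fin k → R, (∀ i, z i ∈ K) → S.w z ∈ K) ∧ K.Nonempty ∧
    κ1 * (#(K.image S.a) * #(K.image S.b) * #(K.image S.c)) ≤ κ2 * #(D ∩ K) ^ 2
  obtain ⟨K, hK, hmin⟩ := exists_min_image (univ.filter P) (fun K => #K)
    ⟨univ, mem_filter.2 ⟨mem_univ _, fun _ _ => mem_univ _, hD.mono (subset_univ _), by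
      rw [inter_univ, hκ1, hκ2, mul_comm]⟩⟩
  obtain ⟨hKc, hKne, hKP⟩ := (mem_filter.1 hK).2
  -- a general statement for the three rotations
  have key : ∀ {A' B' C' : Type} [DecidableEq A'] [DecidableEq B'] [DecidableEq C']
      (S' : Sys k {x // x ∈ K} A' B' C') (f : R → A') (g : R → B') (h : R → C'),
      S'.w = (S.sub K hKc).w → (∀ x, S'.a x = f x.1) → (∀ x, S'.b x = g x.1) →
      (∀ x, S'.c x = h x.1) →
      (∀ K' : Finset R, #(K'.image f) * #(K'.image g) * #(K'.image h) =
        #(K'.image S.a) * #(K'.image S.b) * #(K'.image S.c)) →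
      ∀ x y, S'.Conn x y := by
    intro A' B' C' _ _ _ S' f g h hw hf hg hh hprod
    have himg : ∀ W : Finset {x // x ∈ K}, #(W.image S'.a) * #(W.image S'.b) * #(W.image S'.c) =
        #((W.image Subtype.val).image S.a) * #((W.image Subtype.val).image S.b) *
          #((W.image Subtype.val).image S.c) := by
      intro W
      rw [← hprod, image_image, image_image, image_image]
      have e1 : W.image S'.a = W.image (f ∘ Subtype.val) := image_congr fun x _ => hf x
      have e2 : W.image S'.b = W.image (g ∘ Subtype.val) := image_congr fun x _ => hg x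
      have e3 : W.image S'.c = W.image (h ∘ Subtype.val) := image_congr fun x _ => hh x
      rw [e1, e2, e3]
    have _ : Nonempty {x // x ∈ K} := ⟨⟨hKne.choose, hKne.choose_spec⟩⟩
    have huniv : (univ : Finset {x // x ∈ K}).image Subtype.val = K := by
      ext x
      simp
    let D' : Finset {x // x ∈ K} := univ.filter fun x => x.1 ∈ D
    have hD' : ∀ W : Finset {x // x ∈ K}, #(D' ∩ W) = #(D ∩ W.image Subtype.val) := by
      intro W
      rw [← card_image_of_injective (D' ∩ W) Subtype.val_injective]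
      congr 1
      ext x
      simp only [mem_image, mem_inter, D', mem_filter, mem_univ, true_and]
      constructor
      · rintro ⟨y, ⟨h1, h2⟩, rfl⟩
        exact ⟨h1, y, h2, rfl⟩
      · rintro ⟨h1, y, h2, rfl⟩
        exact ⟨y, ⟨h1, h2⟩, rfl⟩
    obtain ⟨x, W, hW, hP⟩ := cut S' D' κ1 κ2 (by
      rw [himg, huniv]
      have := hD' univ
      rw [inter_univ, huniv] at this
      rw [this]
      exact hKP)
    rw [himg, hD'] at hP
    have hWP : P (W.image Subtype.val) := by
      refine ⟨fun z hz => ?_, ⟨x.1, mem_image_of_mem _ ((hW x).2 ReflTransGen.refl)⟩, hP⟩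
      have hz' : ∀ i, ∃ y : {x // x ∈ K}, y ∈ W ∧ y.1 = z i := fun i => by
        obtain ⟨y, hy, h⟩ := mem_image.1 (hz i)
        exact ⟨y, hy, h⟩
      choose z' hz1 hz2 using hz'
      have h1 : S'.Conn (S'.w fun _ => x) (S'.w z') :=
        S'.w_conn fun i => (hW _).1 (hz1 i)
      rw [S'.idem] at h1
      refine mem_image.2 ⟨S'.w z', (hW _).2 h1, ?_⟩
      rw [hw]
      show S.w (fun i => (z' i).1) = S.w z
      congr 1
      funext i
      exact hz2 i
    have h2 := hmin _ (mem_filter.2 ⟨mem_univ _, hWP⟩)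
    rw [card_image_of_injective _ Subtype.val_injective] at h2
    have h3 : W = univ := by
      refine (card_eq_iff_eq_univ W).1 (le_antisymm (card_le_univ W) ?_)
      rw [Fintype.card_coe]
      exact h2
    intro y z
    have h4 : S'.Conn x y := (hW y).1 (by rw [h3]; exact mem_univ _)
    have h5 : S'.Conn x z := (hW z).1 (by rw [h3]; exact mem_univ _)
    exact (S'.conn_symm h4).trans h5
  refine ⟨K, hKc, hKne, ⟨?_, ?_, ?_⟩, hKP⟩
  · exact key (S.sub K hKc) S.a S.b S.c rfl (fun _ => rfl) (fun _ => rfl) (fun _ => rfl)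
      fun _ => rfl
  · exact key (S.sub K hKc).rot S.b S.c S.a rfl (fun _ => rfl) (fun _ => rfl) (fun _ => rfl)
      fun K' => by ring
  · exact key (S.sub K hKc).rot.rot S.c S.a S.b rfl (fun _ => rfl) (fun _ => rfl) (fun _ => rfl)
      fun K' => by ring

end Pool.Agent.Helper41K9.WN
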