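import Pool.Agent.Helper41K9.WN.Abel

/-!
# The group
-/

set_option autoImplicit false

namespace Pool.Agent.Helper41K9.WN

open Finset Function Relation

variable {k : ℕ} {U A B C : Type}

/-- A permutation which respects `p` has an inverse which respects `p`. -/
theorem perm_symm [Finite U] {X : Type} (p : U → X) (σ : Equiv.Perm U)
    (h : ∀ x y, p x = p y → p (σ x) = p (σ y)) (x y : U) (hxy : p (σ x) = p (σ y)) : p x = p y := by
  have h1 : ∀ n : ℕ, ∀ x y, p x = p y → p ((σ ^ n) x) = p ((σ ^ n) y) := by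
    intro n
    induction n with
    | zero => intro x y hxy; simpa using hxy
    | succ n ih =>
      intro x y hxy
      rw [pow_succ', Equiv.Perm.mul_apply, Equiv.Perm.mul_apply]
      exact h _ _ (ih _ _ hxy)
  have h2 := h1 (orderOf σ - 1) _ _ hxy
  have h3 : ∀ z, (σ ^ (orderOf σ - 1)) (σ z) = z := by
    intro z
    rw [← Equiv.Perm.mul_apply, ← pow_succ, Nat.sub_add_cancel (orderOf_pos σ), pow_orderOf_eq_one]
    rfl
  rw [h3, h3] at h2
  exact h2

/-- The kernels of `b` and `c` permute. -/
theorem Tot.rho {S : Sys k U A B C} [Finite U] (hk : 2 ≤ k) (hS : Tot S) (x y : U) :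
    S.rho x y := by
  have htr : ∀ x x2 x4, S.rho x x2 → S.rho x2 x4 → S.rho x x4 := by
    intro x x2 x4 hx2 hx4
    obtain ⟨x1, h1, h2⟩ := hx2
    obtain ⟨x3, h3, h4⟩ := hx4
    let m : Fin k := ⟨0, by omega⟩
    let l : Fin k := ⟨1, by omega⟩
    have hml : m ≠ l := by
      intro h
      have := congrArg Fin.val h
      simp [m, l] at this
    set z : Fin k → U := update (fun _ => x) m x2 with hzdef
    have hr : S.rho (S.pol {l} z x) (S.pol {l} z x4) := by
      refine ⟨S.w (update (update (fun _ => x) m x1) l x3), ?_, ?_⟩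
      · have e1 : S.pol {l} z x = S.w (update (fun _ => x) l x2) := by
          rw [← S.wnu x x2 m l]
          unfold Sys.pol
          congr 1
          funext i
          by_cases hi : i = l
          · subst hi
            simp [update_of_ne hml.symm]
          · simp [hi, hzdef]
        rw [e1]
        refine S.wb _ _ fun i => ?_
        by_cases hi : i = l
        · subst hi
          simp [h3]
        · rw [update_of_ne hi, update_of_ne hi]
          by_cases him : i = m
          · subst him
            rw [update_self, h1]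
          · rw [update_of_ne him]
      · refine S.wc _ _ fun i => ?_
        by_cases hi : i = l
        · subst hi
          simp [h4]
        · rw [update_of_ne hi]
          simp only [mem_singleton, hi, if_false, hzdef]
          by_cases him : i = m
          · subst him
            rw [update_self, update_self, h2]
          · rw [update_of_ne him, update_of_ne him]
    have hinj : Injective (S.pol {l} z) := fun y y' h => hS.cancel hk z l y y' h
    let σ : Equiv.Perm U := Equiv.ofBijective _ ⟨hinj, Finite.surjective_of_injective hinj⟩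
    have h5 : ∀ n : ℕ, S.rho ((σ ^ (n + 1)) x) ((σ ^ (n + 1)) x4) := by
      intro n
      induction n with
      | zero =>
        rw [zero_add, pow_one]
        exact hr
      | succ n ih =>
        rw [pow_succ' σ (n + 1), Equiv.Perm.mul_apply, Equiv.Perm.mul_apply]
        exact S.rho_pol _ _ ih
    have h6 := h5 (orderOf σ - 1)
    rw [Nat.sub_add_cancel (orderOf_pos σ), pow_orderOf_eq_one] at h6
    exact h6
  have h := hS.t1 x y
  induction h with
  | refl => exact S.rho_refl x
  | tail _ h ih =>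
    refine htr _ _ _ ih ?_
    rcases h with h | h
    · exact ⟨_, h, rfl⟩
    · exact ⟨_, rfl, h⟩

/-- A compatible binary operation with a neutral element, divisible on the left. -/
structure Loop (S : Sys k U A B C) where
  o : U
  add : U → U → U
  sub : U → U → U
  add_o : ∀ x, add x o = x
  o_add : ∀ x, add o x = x
  sub_add : ∀ s t, add (sub s t) t = s
  add_inj : ∀ s t v, add s v = add t v → s = t
  ca : ∀ x x' y y', S.a x = S.a x' → S.a y = S.a y' → S.a (add x y) = S.a (add x' y')
  cb : ∀ x x' y y', S.b x = S.b x' → S.b y = S.b y' → S.b (add x y) = S.b (add x' y')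
  cc : ∀ x x' y y', S.c x = S.c x' → S.c y = S.c y' → S.c (add x y) = S.c (add x' y')
  da : ∀ x x' y y', S.a x = S.a x' → S.a y = S.a y' → S.a (sub x y) = S.a (sub x' y')
  db : ∀ x x' y y', S.b x = S.b x' → S.b y = S.b y' → S.b (sub x y) = S.b (sub x' y')
  dc : ∀ x x' y y', S.c x = S.c x' → S.c y = S.c y' → S.c (sub x y) = S.c (sub x' y')

theorem Loop.sub_self {S : Sys k U A B C} (L : Loop S) (x : U) : L.sub x x = L.o :=
  L.add_inj _ _ x (by rw [L.sub_add, L.o_add])

theorem Loop.eq_of_sub {S : Sys k U A B C} (L : Loop S) {x y : U} (h : L.sub x y = L.o) : x = y := by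
  rw [← L.sub_add x y, h, L.o_add]

theorem Loop.comm {S : Sys k U A B C} (hk : 2 ≤ k) (hS : Tot S) (L : Loop S) (x y : U) :
    L.add x y = L.add y x := by
  let f : (Unit → U) → (Unit → U) → U := fun u v =>
    L.sub (L.add (v ()) (u ())) (L.add (u ()) (v ()))
  have h := hS.AB hk (f := f)
    (fun u u' v v' hu hv => L.da _ _ _ _ (L.ca _ _ _ _ (hv ()) (hu ())) (L.ca _ _ _ _ (hu ()) (hv ())))
    (fun u u' v v' hu hv => L.db _ _ _ _ (L.cb _ _ _ _ (hv ()) (hu ())) (L.cb _ _ _ _ (hu ()) (hv ())))
    (fun u u' v v' hu hv => L.dc _ _ _ _ (L.cc _ _ _ _ (hv ()) (hu ())) (L.cc _ _ _ _ (hu ()) (hv ())))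
    (fun _ => x) (fun _ => L.o) (fun _ => L.o) (fun _ => y) (by
      show L.sub (L.add x L.o) (L.add L.o x) = L.sub (L.add L.o L.o) (L.add L.o L.o)
      rw [L.add_o, L.o_add, L.sub_self, L.sub_self])
  have h' : L.sub (L.add x y) (L.add y x) = L.sub (L.add L.o y) (L.add y L.o) := h
  rw [L.add_o, L.o_add, L.sub_self] at h'
  exact L.eq_of_sub h'

theorem Loop.assoc {S : Sys k U A B C} (hk : 2 ≤ k) (hS : Tot S) (L : Loop S) (x y z : U) :
    L.add (L.add x y) z = L.add x (L.add y z) := by
  let f : (Unit → U) → (Bool → U) → U := fun u v =>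
    L.sub (L.add (L.add (v true) (v false)) (u ())) (L.add (v true) (L.add (v false) (u ())))
  have h := hS.AB hk (f := f)
    (fun u u' v v' hu hv => L.da _ _ _ _
      (L.ca _ _ _ _ (L.ca _ _ _ _ (hv true) (hv false)) (hu ()))
      (L.ca _ _ _ _ (hv true) (L.ca _ _ _ _ (hv false) (hu ()))))
    (fun u u' v v' hu hv => L.db _ _ _ _
      (L.cb _ _ _ _ (L.cb _ _ _ _ (hv true) (hv false)) (hu ()))
      (L.cb _ _ _ _ (hv true) (L.cb _ _ _ _ (hv false) (hu ()))))
    (fun u u' v v' hu hv => L.dc _ _ _ _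
      (L.cc _ _ _ _ (L.cc _ _ _ _ (hv true) (hv false)) (hu ()))
      (L.cc _ _ _ _ (hv true) (L.cc _ _ _ _ (hv false) (hu ()))))
    (fun i => if i then x else y) (fun _ => L.o) (fun _ => L.o) (fun _ => z) (by
      show L.sub (L.add (L.add x y) L.o) (L.add x (L.add y L.o)) =
        L.sub (L.add (L.add L.o L.o) L.o) (L.add L.o (L.add L.o L.o))
      simp only [L.add_o, L.sub_self])
  have h' : L.sub (L.add (L.add x y) z) (L.add x (L.add y z)) =
    L.sub (L.add (L.add L.o L.o) z) (L.add L.o (L.add L.o z)) := h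
  rw [L.o_add, L.o_add, L.o_add, L.sub_self] at h'
  exact L.eq_of_sub h'

/-- The loop of a connected system. -/
theorem Tot.loop {S : Sys k U A B C} [Finite U] (hk : 2 ≤ k) (hS : Tot S) (o : U) :
    Nonempty (Loop S) := by
  let i0 : Fin k := ⟨0, by omega⟩
  let i1 : Fin k := ⟨1, by omega⟩
  have h01 : i0 ≠ i1 := by
    intro h
    have := congrArg Fin.val h
    simp [i0, i1] at this
  let M : U → U → U := fun u c => S.w fun i => if i = i0 then u else if i = i1 then c else o
  have hMo : M o o = o := by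
    show (S.w fun i => if i = i0 then o else if i = i1 then o else o) = o
    simp [S.idem]
  have hM : ∀ {X : Type} (φ : U → X),
      (∀ z z' : Fin k → U, (∀ i, φ (z i) = φ (z' i)) → φ (S.w z) = φ (S.w z')) →
      ∀ x x' y y', φ x = φ x' → φ y = φ y' → φ (M x y) = φ (M x' y') := by
    intro X φ hφ x x' y y' hx hy
    refine hφ _ _ fun i => ?_
    split_ifs
    · exact hx
    · exact hy
    · rfl
  have hM1 : ∀ c, Injective fun u => M u c := by
    intro c u u' h
    refine hS.cancel hk (fun i => if i = i1 then c else o) i0 u u' ?_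
    have e : ∀ u, S.pol {i0} (fun i => if i = i1 then c else o) u = M u c := by
      intro u
      unfold Sys.pol
      show S.w _ = S.w _
      congr 1
      funext i
      simp
    rw [e, e]
    exact h
  have hM2 : ∀ u, Injective fun c => M u c := by
    intro u c c' h
    refine hS.cancel hk (fun i => if i = i0 then u else o) i1 c c' ?_
    have e : ∀ c, S.pol {i1} (fun i => if i = i0 then u else o) c = M u c := by
      intro c
      unfold Sys.pol
      show S.w _ = S.w _
      congr 1
      funext i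
      by_cases hi : i = i1
      · subst hi
        simp [h01.symm]
      · simp [hi]
    rw [e, e]
    exact h
  let Rt : U → Equiv.Perm U := fun c =>
    Equiv.ofBijective _ ⟨hM1 c, Finite.surjective_of_injective (hM1 c)⟩
  let Lt : U → Equiv.Perm U := fun u =>
    Equiv.ofBijective _ ⟨hM2 u, Finite.surjective_of_injective (hM2 u)⟩
  have hR : ∀ c u, Rt c u = M u c := fun c u => rfl
  have hL : ∀ u c, Lt u c = M u c := fun u c => rfl
  have hRs : ∀ c x, M ((Rt c).symm x) c = x := fun c x => by rw [← hR, Equiv.apply_symm_apply]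
  have hLs : ∀ u x, M u ((Lt u).symm x) = x := fun u x => by rw [← hL, Equiv.apply_symm_apply]
  have hLo : (Lt o).symm o = o := by rw [Equiv.symm_apply_eq, hL, hMo]
  have hRo : (Rt o).symm o = o := by rw [Equiv.symm_apply_eq, hR, hMo]
  -- compatibility of the divisions
  have cR : ∀ {X : Type} (φ : U → X),
      (∀ z z' : Fin k → U, (∀ i, φ (z i) = φ (z' i)) → φ (S.w z) = φ (S.w z')) →
      ∀ x x' y y', φ x = φ x' → φ y = φ y' → φ ((Rt x).symm y) = φ ((Rt x').symm y') := by
    intro X φ hφ x x' y y' hx hy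
    refine perm_symm φ (Rt x') (fun u u' h => hM φ hφ _ _ _ _ h rfl) _ _ ?_
    rw [Equiv.apply_symm_apply, hR, ← hy]
    have h1 : φ (M ((Rt x).symm y) x) = φ y := by rw [hRs]
    rw [← h1]
    exact hM φ hφ _ _ _ _ rfl hx.symm
  have cL : ∀ {X : Type} (φ : U → X),
      (∀ z z' : Fin k → U, (∀ i, φ (z i) = φ (z' i)) → φ (S.w z) = φ (S.w z')) →
      ∀ y y', φ y = φ y' → φ ((Lt o).symm y) = φ ((Lt o).symm y') := by
    intro X φ hφ y y' hy
    refine perm_symm φ (Lt o) (fun u u' h => hM φ hφ _ _ _ _ rfl h) _ _ ?_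
    rw [Equiv.apply_symm_apply, Equiv.apply_symm_apply]
    exact hy
  exact ⟨{
    o := o
    add := fun x y => M ((Rt o).symm x) ((Lt o).symm y)
    sub := fun s t => Rt o ((Rt ((Lt o).symm t)).symm s)
    add_o := fun x => by
      show M ((Rt o).symm x) ((Lt o).symm o) = x
      rw [hLo, hRs]
    o_add := fun x => by
      show M ((Rt o).symm o) ((Lt o).symm x) = x
      rw [hRo, hLs]
    sub_add := fun s t => by
      show M ((Rt o).symm (Rt o ((Rt ((Lt o).symm t)).symm s))) ((Lt o).symm t) = s
      rw [Equiv.symm_apply_apply, hRs]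
    add_inj := fun s t v h => (Rt o).symm.injective (hM1 _ h)
    ca := fun x x' y y' hx hy => hM S.a S.wa _ _ _ _ (cR S.a S.wa _ _ _ _ rfl hx) (cL S.a S.wa _ _ hy)
    cb := fun x x' y y' hx hy => hM S.b S.wb _ _ _ _ (cR S.b S.wb _ _ _ _ rfl hx) (cL S.b S.wb _ _ hy)
    cc := fun x x' y y' hx hy => hM S.c S.wc _ _ _ _ (cR S.c S.wc _ _ _ _ rfl hx) (cL S.c S.wc _ _ hy)
    da := fun x x' y y' hx hy => hM S.a S.wa _ _ _ _ (cR S.a S.wa _ _ _ _ (cL S.a S.wa _ _ hy) hx) rfl
    db := fun x x' y y' hx hy => hM S.b S.wb _ _ _ _ (cR S.b S.wb _ _ _ _ (cL S.b S.wb _ _ hy) hx) rfl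
    dc := fun x x' y y' hx hy => hM S.c S.wc _ _ _ _ (cR S.c S.wc _ _ _ _ (cL S.c S.wc _ _ hy) hx) rfl }⟩

/-- A connected linear relation with a weak near-unanimity operation is the table of a commutative
group. -/
theorem Tot.table {S : Sys k U A B C} [Finite U] (hk : 2 ≤ k) (hS : Tot S) (o : U) :
    ∃ (_ : AddCommGroup U) (t : Tab U A B C), t.a = S.a ∧ t.b = S.b ∧ t.c = S.c := by
  obtain ⟨L⟩ := hS.loop hk o
  let _ : Add U := ⟨L.add⟩
  let _ : Zero U := ⟨L.o⟩
  let _ : Neg U := ⟨fun x => L.sub L.o x⟩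
  let G : AddGroup U := AddGroup.ofLeftAxioms (fun x y z => L.assoc hk hS x y z)
    (fun x => L.o_add x) (fun x => L.sub_add L.o x)
  let G' : AddCommGroup U := { G with add_comm := fun x y => L.comm hk hS x y }
  refine ⟨G', {
    a := S.a
    b := S.b
    c := S.c
    adda := fun x y z h => L.ca x y z z h rfl
    addb := fun x y z h => L.cb x y z z h rfl
    addc := fun x y z h => L.cc x y z z h rfl
    ab := S.ab
    ac := S.ac
    bc := S.bc
    tab := fun x y => ?_
    tac := fun x y => ?_
    tbc := fun x y => ?_ }, rfl, rfl, rfl⟩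
  · obtain ⟨m, h1, h2⟩ := hS.rot.rot.rho hk x y
    exact ⟨m, h1.symm, h2⟩
  · obtain ⟨m, h1, h2⟩ := hS.rot.rho hk y x
    exact ⟨m, h2, h1.symm⟩
  · obtain ⟨m, h1, h2⟩ := hS.rho hk x y
    exact ⟨m, h1.symm, h2⟩

end Pool.Agent.Helper41K9.WN
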