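import Pool.Agent.Helper41K9.WN.St
import Pool.Agent.H602R3.DHJ.Main

/-!
# Density Hales-Jewett in commutative groups
-/

set_option autoImplicit false

namespace Pool.Agent.Helper41K9.WN

open Finset Pool.Agent.H602R3.DHJ

theorem line : S_LINE := by
  classical
  intro α _ _ δ hδ
  obtain ⟨k, hk⟩ : ∃ k, Fintype.card α = k + 1 :=
    ⟨Fintype.card α - 1, by have := Fintype.card_pos (α := α); omega⟩
  have hD : D α := D_equiv (Fintype.equivFinOfCardEq hk).symm (dhj k)
  obtain ⟨N, hN⟩ := hD δ hδ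
  refine ⟨N + 1, Nat.succ_pos _, fun U _ _ φ D hDc => ?_⟩
  have hup : ∀ A : Set (Fin (N + 1) → α), LFr A → dn A < δ :=
    D_up hN (Fin (N + 1)) (by simp)
  let A : U → Set (Fin (N + 1) → α) := fun x => {w | x + ∑ i, φ i (w i) ∈ D}
  have hU : (0 : ℝ) < Fintype.card U := by
    have : Nonempty U := ⟨0⟩
    exact_mod_cast Fintype.card_pos
  have h1 : av (fun x => dn (A x)) = (#D : ℝ) / Fintype.card U := by
    have h2 : (fun x => dn (A x)) = fun x => av fun w : Fin (N + 1) → α =>
        (A x).indicator (fun _ => (1 : ℝ)) w := rfl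
    rw [h2, av_comm]
    have h3 : (fun w : Fin (N + 1) → α => av fun x => (A x).indicator (fun _ => (1 : ℝ)) w) =
        fun _ => (#D : ℝ) / Fintype.card U := by
      funext w
      unfold av
      congr 1
      have h4 : ∀ x : U, (A x).indicator (fun _ => (1 : ℝ)) w =
          if x + ∑ i, φ i (w i) ∈ D then 1 else 0 := by
        intro x
        rw [Set.indicator_apply]
        rfl
      have h5 : ∑ x, (A x).indicator (fun _ => (1 : ℝ)) w = ∑ y : U, if y ∈ D then (1 : ℝ) else 0 := by
        refine Fintype.sum_equiv (Equiv.addRight (∑ i, φ i (w i))) _ _ fun x => ?_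
        rw [h4 x]
        by_cases hx : x + ∑ i, φ i (w i) ∈ D
        · rw [if_pos hx, if_pos (by simpa using hx)]
        · rw [if_neg hx, if_neg (by simpa using hx)]
      rw [h5]
      simp
    rw [h3, av_const]
  obtain ⟨x, hx⟩ := exists_le_av fun x => dn (A x)
  have h5 : δ ≤ dn (A x) := by
    refine le_trans ?_ hx
    rw [h1, le_div_iff₀ hU]
    exact hDc
  have h6 : ¬ LFr (A x) := fun h => absurd (hup _ h) (not_lt.2 h5)
  unfold LFr at h6
  push Not at h6
  obtain ⟨V, hV, hV2⟩ := h6
  obtain ⟨i0, hi0⟩ := hV ()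
  refine ⟨univ.filter fun i => V i = Sum.inr (), ⟨i0, mem_filter.2 ⟨mem_univ _, hi0⟩⟩,
    x + ∑ i ∈ univ.filter (fun i => ¬ V i = Sum.inr ()),
      φ i (ap V (fun _ => Classical.arbitrary α) i), fun v => ?_⟩
  have h7 : x + ∑ i, φ i (ap V (fun _ => v) i) ∈ D := hV2 v
  rw [← sum_filter_not_add_sum_filter univ (fun i => V i = Sum.inr ())] at h7
  have h8 : ∑ i ∈ univ.filter (fun i => ¬ V i = Sum.inr ()), φ i (ap V (fun _ => v) i) =
      ∑ i ∈ univ.filter (fun i => ¬ V i = Sum.inr ()),
        φ i (ap V (fun _ => Classical.arbitrary α) i) := by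
    refine sum_congr rfl fun i hi => ?_
    have h := (mem_filter.1 hi).2
    congr 1
    unfold ap
    rcases hV : V i with b | u
    · rfl
    · exact absurd (by rw [hV]) h
  have h9 : ∑ i ∈ univ.filter (fun i => V i = Sum.inr ()), φ i (ap V (fun _ => v) i) =
      ∑ i ∈ univ.filter (fun i => V i = Sum.inr ()), φ i v := by
    refine sum_congr rfl fun i hi => ?_
    have h := (mem_filter.1 hi).2
    congr 1
    unfold ap
    rw [h]
    rfl
  rw [h8, h9, ← add_assoc] at h7
  exact h7

end Pool.Agent.Helper41K9.WN
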