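import Pool.Agent.Helper41K9.WN.St

/-!
# Dense subsets of tables with an element of large order
-/

set_option autoImplicit false

namespace Pool.Agent.Helper41K9.WN

open Finset

theorem card_img {U X : Type} (p : U → X) (T : Finset U) (F : ℕ → X) (K : ℕ)
    (h : ∀ u ∈ T, ∃ l < K, p u = F l) : Nat.card ↥(p '' (T : Set U)) ≤ K := by
  classical
  rw [Nat.card_coe_set_eq]
  have h1 : p '' (T : Set U) ⊆ ((range K).image F : Finset X) := by
    rintro _ ⟨u, hu, rfl⟩
    obtain ⟨l, hl, h2⟩ := h u hu
    rw [h2]
    exact mem_coe.2 (mem_image_of_mem F (mem_range.2 hl))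
  refine (Set.ncard_le_ncard h1 (Finset.finite_toSet _)).trans ?_
  rw [Set.ncard_coe_finset]
  exact card_image_le.trans (card_range K).le

theorem shift {U X : Type} [AddCommGroup U] {p : U → X}
    (hp : ∀ x y z, p x = p y → p (x + z) = p (y + z)) {g : U} (hg : p g = p 0) (n : ℕ) (x : U) :
    p (x + n • g) = p x := by
  have h1 : ∀ x, p (x + g) = p x := by
    intro x
    have := hp g 0 x hg
    rw [zero_add, add_comm] at this
    exact this
  induction n with
  | zero => rw [zero_smul, add_zero]
  | succ n ih => rw [add_smul, one_smul, ← add_assoc, h1, ih]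

theorem long (hline : S_LINE) : S_LONG := by
  classical
  intro e δ he hδ
  have : Nonempty (Fin e) := ⟨⟨0, he⟩⟩
  obtain ⟨N, hN, hN2⟩ := hline (Fin e × Fin 2) δ hδ
  refine ⟨(e + 1) * N + 1, fun U A B C _ _ t hg D hD => ?_⟩
  obtain ⟨g, hga, hgo⟩ := hg
  obtain ⟨z, hzb, hzc⟩ := t.tbc g 0
  set g' : U := z - g with hg'
  have hg'b : t.b g' = t.b 0 := by
    have := t.addb z g (-g) hzb
    rw [add_neg_cancel, ← sub_eq_add_neg] at this
    exact this
  have hgg' : t.c (g + g') = t.c 0 := by
    rw [hg', add_sub_cancel]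
    exact hzc
  obtain ⟨S, hS, x, hx⟩ := hN2 U (fun _ v => (v.1 : ℕ) • g + (v.2 : ℕ) • g') D hD
  set m := #S with hm
  have hm1 : 1 ≤ m := card_pos.2 hS
  have hmN : m ≤ N := by
    have := card_le_univ S
    rwa [Fintype.card_fin] at this
  let y : ℕ → ℕ → U := fun i j => x + (m * i) • g + (m * j) • g'
  have hy : ∀ i j, i < e → j < 2 → y i j ∈ D := by
    intro i j hi hj
    have h := hx (⟨i, hi⟩, ⟨j, hj⟩)
    rw [sum_const] at h
    have h2 : x + #S • (i • g + j • g') = y i j := by
      show _ = x + (m * i) • g + (m * j) • g'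
      rw [smul_add, smul_smul, smul_smul, add_assoc]
    rw [← h2]
    exact h
  -- the coordinates
  have ya : ∀ i j, t.a (y i j) = t.a (x + (m * j) • g') := by
    intro i j
    show t.a (x + (m * i) • g + (m * j) • g') = _
    rw [add_right_comm, shift t.adda hga]
  have yb : ∀ i j, t.b (y i j) = t.b (x + (m * i) • g) := by
    intro i j
    show t.b (x + (m * i) • g + (m * j) • g') = _
    rw [shift t.addb hg'b]
  have yc0 : t.c (y 0 1) = t.c (x + m • g') := by
    show t.c (x + (m * 0) • g + (m * 1) • g') = _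
    rw [mul_zero, zero_smul, add_zero, mul_one]
  have yc : ∀ i j, t.c (y (i + j) j) = t.c (x + (m * i) • g) := by
    intro i j
    show t.c (x + (m * (i + j)) • g + (m * j) • g') = _
    have h1 : x + (m * (i + j)) • g + (m * j) • g' = x + (m * i) • g + (m * j) • (g + g') := by
      rw [mul_add, add_smul, smul_add]
      abel
    rw [h1, shift t.addc hgg']
  -- injectivity
  have hinj1 : ∀ i i', i < e → i' < e → (m * i) • g = (m * i') • g → i = i' := by
    intro i i' hi hi' h
    have hb : ∀ i, i < e → m * i < addOrderOf g := by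
      intro i hi
      have h1 : m * i ≤ N * e := Nat.mul_le_mul hmN hi.le
      have h2 : N * e ≤ (e + 1) * N := by nlinarith
      omega
    have h3 := nsmul_injOn_Iio_addOrderOf (hb i hi) (hb i' hi') h
    exact Nat.eq_of_mul_eq_mul_left (by omega) h3
  have hmg : m • g ≠ 0 := by
    intro h
    have h1 := addOrderOf_dvd_iff_nsmul_eq_zero.2 h
    have h2 := Nat.le_of_dvd (by omega) h1
    have h3 : N ≤ (e + 1) * N := by nlinarith
    omega
  have hmg' : m • g' ≠ 0 := by
    intro h
    have h1 : m • (g + g') = m • g := by rw [smul_add, h, add_zero]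
    have h2 : t.c (m • g) = t.c 0 := by
      have := shift t.addc hgg' m 0
      rwa [zero_add, h1] at this
    have h3 : t.a (m • g) = t.a 0 := by
      have := shift t.adda hga m 0
      rwa [zero_add] at this
    exact hmg (t.ac _ _ h3 h2)
  let Y : ℕ → U := fun n => y (n / 2) (1 - n % 2)
  have hYinj : Set.InjOn Y (range e : Finset ℕ) := by
    intro n hn n' hn' h
    rw [coe_range, Set.mem_Iio] at hn hn'
    have h1 : y (n / 2) (1 - n % 2) = y (n' / 2) (1 - n' % 2) := h
    have h2 : x + (m * (n / 2)) • g = x + (m * (n' / 2)) • g := by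
      refine t.ab _ _ ?_ ?_
      · rw [shift t.adda hga, shift t.adda hga]
      · rw [← yb _ (1 - n % 2), h1, yb]
    have h3 : n / 2 = n' / 2 := hinj1 _ _ (by omega) (by omega) (add_left_cancel h2)
    have h4 : (m * (1 - n % 2)) • g' = (m * (1 - n' % 2)) • g' := by
      have h5 : x + (m * (n / 2)) • g + (m * (1 - n % 2)) • g' =
        x + (m * (n' / 2)) • g + (m * (1 - n' % 2)) • g' := h1
      rw [h3] at h5
      exact add_left_cancel h5
    have h6 : n % 2 = n' % 2 := by
      rcases Nat.mod_two_eq_zero_or_one n with h7 | h7 <;>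
        rcases Nat.mod_two_eq_zero_or_one n' with h8 | h8
      · rw [h7, h8]
      · rw [h7, h8] at h4
        simp only [Nat.sub_zero, mul_one, Nat.sub_self, mul_zero, zero_smul] at h4
        exact absurd h4 hmg'
      · rw [h7, h8] at h4
        simp only [Nat.sub_zero, mul_one, Nat.sub_self, mul_zero, zero_smul] at h4
        exact absurd h4.symm hmg'
      · rw [h7, h8]
    omega
  refine ⟨(range e).image Y, ?_, ?_, ?_⟩
  · intro u hu
    obtain ⟨n, hn, rfl⟩ := mem_image.1 hu
    have := mem_range.1 hn
    exact hy _ _ (by omega) (by omega)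
  · rw [card_image_of_injOn hYinj, card_range]
  · have h1 : Nat.card ↥(t.a '' ((range e).image Y : Finset U)) ≤ 2 := by
      refine card_img t.a _ (fun l => t.a (x + (m * l) • g')) 2 fun u hu => ?_
      obtain ⟨n, -, rfl⟩ := mem_image.1 hu
      exact ⟨1 - n % 2, by omega, ya _ _⟩
    have h2 : Nat.card ↥(t.b '' ((range e).image Y : Finset U)) ≤ (e + 1) / 2 := by
      refine card_img t.b _ (fun l => t.b (x + (m * l) • g)) _ fun u hu => ?_
      obtain ⟨n, hn, rfl⟩ := mem_image.1 hu
      have := mem_range.1 hn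
      exact ⟨n / 2, by omega, yb _ _⟩
    have h3 : Nat.card ↥(t.c '' ((range e).image Y : Finset U)) ≤ e / 2 + 1 := by
      refine card_img t.c _ (fun l => if l = 0 then t.c (x + m • g') else
        t.c (x + (m * (l - 1)) • g)) _ fun u hu => ?_
      obtain ⟨n, hn, rfl⟩ := mem_image.1 hu
      have hn' := mem_range.1 hn
      refine ⟨(n + 1) / 2, by omega, ?_⟩
      by_cases h0 : n = 0
      · subst h0
        simp only [zero_add]
        norm_num
        exact yc0
      · have h4 : (n + 1) / 2 ≠ 0 := by omega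
        rw [if_neg h4]
        have h5 := yc ((n + 1) / 2 - 1) (1 - n % 2)
        have h6 : (n + 1) / 2 - 1 + (1 - n % 2) = n / 2 := by omega
        rw [h6] at h5
        exact h5
    omega

end Pool.Agent.Helper41K9.WN
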