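import Pool.Agent.Helper41K9.WN.Greedy
import Pool.Agent.R181.MajPieces

/-!
# Hypergraphs which are unions of pieces preserved by weak near-unanimity operations
-/

set_option autoImplicit false

namespace Pool.Agent.Helper41K9.WN

open Finset Function Pool.Agent.R181.Maj

/-- `w` is an idempotent weak near-unanimity operation: `w(x,…,x) = x` and
`w(y,x,…,x) = w(x,y,x,…,x) = ⋯ = w(x,…,x,y)`. -/
def IsWnu {A : Type} {k : ℕ} (w : (Fin k → A) → A) : Prop :=
  (∀ x, w (fun _ => x) = x) ∧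
    ∀ x y i j, w (Function.update (fun _ => x) i y) = w (Function.update (fun _ => x) j y)

/-- The set of vertices of the edge with the vertex `f i (x i)` in position `i`. -/
noncomputable def edgeOf {V : Type} {r : ℕ} {X : Fin r → Type} (f : ∀ i, X i → V) (x : ∀ i, X i) :
    Finset V := by
  classical exact univ.image fun i => f i (x i)

/-- `F` consists of the sets of `r` vertices `f 0 (x 0), …, f (r-1) (x (r-1))` for `x ∈ E`; here `X i`
is the set of the vertices allowed in position `i` (`f i` is injective), different `x ∈ E` give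
different edges, and `E` is closed under componentwise application of some idempotent weak
near-unanimity operations `w i` on `X i`, all of one arity `k ≥ 2`. -/
def WnuRel {V : Type} {r : ℕ} (X : Fin r → Type) (f : ∀ i, X i → V) (F : Set (Finset V)) : Prop :=
  ∃ (k : ℕ) (w : ∀ i, (Fin k → X i) → X i) (E : Set (∀ i, X i)),
    2 ≤ k ∧ (∀ i, IsWnu (w i)) ∧ (∀ i, Function.Injective (f i)) ∧
    (∀ x ∈ E, Function.Injective fun i => f i (x i)) ∧ Set.InjOn (edgeOf f) E ∧
    (∀ z : Fin k → ∀ i, X i, (∀ j, z j ∈ E) → (fun i => w i fun j => z j i) ∈ E) ∧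
    F = edgeOf f '' E

/-- `F` is a set of edges with `r` vertices preserved by weak near-unanimity operations. -/
def WnuPiece {V : Type} (r : ℕ) (F : Set (Finset V)) : Prop :=
  ∃ (X : Fin r → Type) (f : ∀ i, X i → V), WnuRel X f F

/-- The same, where the `r` sets of vertices are pairwise disjoint. -/
def PartiteWnuPiece {V : Type} (r : ℕ) (F : Set (Finset V)) : Prop :=
  ∃ (X : Fin r → Type) (f : ∀ i, X i → V), WnuRel X f F ∧ ∀ i j a b, f i a = f j b → i = j

/-- Two different vertices are in at most one edge of `F`. -/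
def Linear {V : Type} (F : Set (Finset V)) : Prop :=
  ∀ a ∈ F, ∀ b ∈ F, ∀ u v, u ≠ v → u ∈ a → v ∈ a → u ∈ b → v ∈ b → a = b

theorem mem_edgeOf {V : Type} {r : ℕ} {X : Fin r → Type} (f : ∀ i, X i → V) (x : ∀ i, X i)
    (i : Fin r) : f i (x i) ∈ edgeOf f x := by
  classical
  rw [edgeOf, mem_image]
  exact ⟨i, mem_univ _, rfl⟩

section sys

variable {V : Type} {r k : ℕ} {X : Fin r → Type} {w : ∀ i, (Fin k → X i) → X i}
  {f : ∀ i, X i → V} {E : Set (∀ i, X i)}

theorem linear_coord (hf : ∀ x ∈ E, Function.Injective fun i => f i (x i))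
    (hinj : Set.InjOn (edgeOf f) E) (hlin : Linear (edgeOf f '' E)) {i j : Fin r}
    (hij : i ≠ j) (x y : E) (hi : x.1 i = y.1 i) (hj : x.1 j = y.1 j) : x = y := by
  refine Subtype.ext (hinj x.2 y.2 ?_)
  refine hlin _ ⟨x.1, x.2, rfl⟩ _ ⟨y.1, y.2, rfl⟩ (f i (x.1 i)) (f j (x.1 j)) ?_
    (mem_edgeOf f _ _) (mem_edgeOf f _ _) ?_ ?_
  · intro h
    exact hij (hf x.1 x.2 h)
  · rw [hi]
    exact mem_edgeOf f _ _
  · rw [hj]
    exact mem_edgeOf f _ _

/-- Three coordinates of a linear piece. -/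
def sys (hw : ∀ i, IsWnu (w i)) (hf : ∀ x ∈ E, Function.Injective fun i => f i (x i))
    (hinj : Set.InjOn (edgeOf f) E)
    (hE : ∀ z : Fin k → ∀ i, X i, (∀ j, z j ∈ E) → (fun i => w i fun j => z j i) ∈ E)
    (hlin : Linear (edgeOf f '' E)) (i1 i2 i3 : Fin r) (h12 : i1 ≠ i2) (h13 : i1 ≠ i3)
    (h23 : i2 ≠ i3) : Sys k E (X i1) (X i2) (X i3) where
  w := fun z => ⟨fun i => w i fun j => (z j).1 i, hE _ fun j => (z j).2⟩
  a := fun x => x.1 i1
  b := fun x => x.1 i2
  c := fun x => x.1 i3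
  wa := fun z z' h => congrArg (w i1) (funext h)
  wb := fun z z' h => congrArg (w i2) (funext h)
  wc := fun z z' h => congrArg (w i3) (funext h)
  idem := fun x => Subtype.ext (funext fun i => (hw i).1 (x.1 i))
  wnu := fun x y i j => Subtype.ext (funext fun l => by
    have h0 : ∀ m : Fin k, (fun j => (update (fun _ => x) m y j).1 l) =
        update (fun _ => x.1 l) m (y.1 l) := by
      intro m
      funext j
      by_cases hj : j = m
      · subst hj
        simp
      · simp [hj]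
    show (w l fun j' => (update (fun _ => x) i y j').1 l) =
      w l fun j' => (update (fun _ => x) j y j').1 l
    rw [h0, h0]
    exact (hw l).2 _ _ _ _)
  ab := fun x y h1 h2 => linear_coord hf hinj hlin h12 x y h1 h2
  ac := fun x y h1 h2 => linear_coord hf hinj hlin h13 x y h1 h2
  bc := fun x y h1 h2 => linear_coord hf hinj hlin h23 x y h1 h2

end sys

theorem union_le {V : Type} {r : ℕ} {X : Fin r → Type} [∀ i, DecidableEq (X i)]
    (f : ∀ i, X i → V) (T : Finset (∀ i, X i)) [DecidableEq (Finset V)] :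
    (⋃ a ∈ T.image (edgeOf f), (a : Set V)).ncard ≤ ∑ i, #(T.image fun x => x i) := by
  classical
  have h2 : (⋃ a ∈ T.image (edgeOf f), (a : Set V)) ⊆
      (((univ : Finset (Fin r)).biUnion fun i => (T.image fun x => x i).image (f i) : Finset V) :
        Set V) := by
    intro v hv
    obtain ⟨a, ha, hv⟩ := Set.mem_iUnion₂.1 hv
    obtain ⟨x, hx, rfl⟩ := mem_image.1 ha
    rw [mem_coe, edgeOf, mem_image] at hv
    obtain ⟨i, -, rfl⟩ := hv
    rw [mem_coe, mem_biUnion]
    exact ⟨i, mem_univ _, mem_image_of_mem _ (mem_image_of_mem (fun x => x i) hx)⟩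
  refine (Set.ncard_le_ncard h2 (Finset.finite_toSet _)).trans ?_
  rw [Set.ncard_coe_finset]
  exact card_biUnion_le.trans (sum_le_sum fun i _ => card_image_le)

theorem sum_three {r : ℕ} (g : Fin r → ℕ) (e : ℕ) (i1 i2 i3 : Fin r) (h12 : i1 ≠ i2)
    (h13 : i1 ≠ i3) (h23 : i2 ≠ i3) (hg : ∀ j, g j ≤ e) :
    ∑ j, g j ≤ (g i1 + g i2 + g i3) + (r - 3) * e := by
  rw [← sum_sdiff (subset_univ ({i1, i2, i3} : Finset (Fin r))), add_comm]
  refine Nat.add_le_add ?_ ?_
  · rw [sum_insert (by simp [h12, h13]), sum_insert (by simp [h23]), sum_singleton, add_assoc]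
  · refine (sum_le_card_nsmul _ _ e fun j _ => hg j).trans ?_
    rw [smul_eq_mul]
    refine Nat.mul_le_mul_right _ ?_
    rw [card_sdiff_of_subset (subset_univ _), card_univ, Fintype.card_fin,
      card_insert_of_notMem (by simp [h12, h13]), card_insert_of_notMem (by simp [h23]),
      card_singleton]

theorem cyc_prod (m : ℕ) (x : Fin (m + 3) → ℕ) :
    ∏ i, (x i * x (i + 1) * x (i + 2)) = (∏ i, x i) ^ 3 := by
  rw [prod_mul_distrib, prod_mul_distrib]
  have h1 : ∀ a : Fin (m + 3), ∏ i, x (i + a) = ∏ i, x i := fun a =>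
    Equiv.prod_comp (Equiv.addRight a) x
  rw [h1, h1]
  ring

theorem cyc_ne (m : ℕ) (i : Fin (m + 3)) : i ≠ i + 1 ∧ i ≠ i + 2 ∧ i + 1 ≠ i + 2 := by
  have h1 : (0 : Fin (m + 3)) ≠ 1 := by
    intro h
    have := congrArg Fin.val h
    simp at this
  have hmod : 2 % (m + 3) = 2 := Nat.mod_eq_of_lt (by omega)
  have h2 : (0 : Fin (m + 3)) ≠ 2 := by
    intro h
    have := congrArg Fin.val h
    simp [hmod] at this
  have h3 : (1 : Fin (m + 3)) ≠ 2 := by
    intro h
    have := congrArg Fin.val h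
    simp [hmod] at this
  refine ⟨fun h => h1 ?_, fun h => h2 ?_, fun h => h3 (add_left_cancel h)⟩
  · exact (left_eq_add.1 h).symm
  · exact (left_eq_add.1 h).symm

section bound

variable {V : Type} {r e : ℕ} {X : Fin r → Type} {f : ∀ i, X i → V}

/-- The bound for three positions. -/
theorem rel_bound [∀ i, Fintype (X i)] (hr : 3 ≤ r) (he : 1 ≤ e)
    {H : Set (Finset V)} (hH : SpanMore H e ((r - 2) * e + 3)) {F : Set (Finset V)}
    (hF : WnuRel X f F) (hlin : Linear F) (hFH : F ⊆ H) (i1 i2 i3 : Fin r) (h12 : i1 ≠ i2)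
    (h13 : i1 ≠ i3) (h23 : i2 ≠ i3) :
    F.ncard ^ 2 ≤ Nat.sqrt (e - 1) *
      (Fintype.card (X i1) * Fintype.card (X i2) * Fintype.card (X i3)) := by
  classical
  obtain ⟨k, w, E, hk, hw, -, hf, hinj, hE, rfl⟩ := hF
  have hcard : (edgeOf f '' E).ncard = Fintype.card E := by
    rw [hinj.ncard_image, ← Nat.card_coe_set_eq, Nat.card_eq_fintype_card]
  rw [hcard]
  refine (three (sys hw hf hinj hE hlin i1 i2 i3 h12 h13 h23) hk e he ?_).trans
    (Nat.mul_le_mul_left _
      (Nat.mul_le_mul (Nat.mul_le_mul (card_le_univ _) (card_le_univ _)) (card_le_univ _)))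
  intro T hT
  set T1 : Finset (∀ i, X i) := T.image Subtype.val with hT1
  have hT1c : #T1 = e := by rw [hT1, card_image_of_injective _ Subtype.val_injective, hT]
  have hT1E : ∀ x ∈ T1, x ∈ E := fun x hx => by
    obtain ⟨y, -, rfl⟩ := mem_image.1 hx
    exact y.2
  have h2 := hH (T1.image (edgeOf f)) (by
    rw [coe_image]
    rintro a ⟨x, hx, rfl⟩
    exact hFH ⟨x, hT1E x hx, rfl⟩)
    (by rw [card_image_of_injOn fun x hx y hy h => hinj (hT1E x hx) (hT1E y hy) h, hT1c])
  have h2' := h2.trans_le (union_le f T1)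
  have h3 : ∀ j : Fin r, #(T1.image fun x => x j) = #(T.image fun x => x.1 j) := by
    intro j
    rw [hT1, image_image]
    rfl
  have h4 := sum_three (fun j => #(T1.image fun x => x j)) e i1 i2 i3 h12 h13 h23
    fun j => card_image_le.trans hT1c.le
  have h4' := h2'.trans_le h4
  have e1 : (r - 2) * e = e + (r - 3) * e := by
    obtain ⟨m, rfl⟩ : ∃ m, r = m + 3 := ⟨r - 3, by omega⟩
    have h5 : m + 3 - 2 = m + 1 := by omega
    have h6 : m + 3 - 3 = m := by omega
    rw [h5, h6]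
    ring
  simp only [h3] at h4'
  show e + 3 < #(T.image fun x => x.1 i1) + #(T.image fun x => x.1 i2) +
    #(T.image fun x => x.1 i3)
  omega

end bound

theorem fintype_rel {V : Type} [Fintype V] {r : ℕ} {X : Fin r → Type} {f : ∀ i, X i → V}
    {F : Set (Finset V)} (hF : WnuRel X f F) : Nonempty (∀ i, Fintype (X i)) := by
  obtain ⟨k, w, E, hk, hw, hfi, hf, hinj, hE, rfl⟩ := hF
  have : ∀ i, Finite (X i) := fun i => Finite.of_injective _ (hfi i)
  exact ⟨fun i => Fintype.ofFinite (X i)⟩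

theorem piece_bound {V : Type} [Fintype V] {r e : ℕ} (hr : 3 ≤ r) (he : 1 ≤ e)
    {H : Set (Finset V)} (hH : SpanMore H e ((r - 2) * e + 3)) {F : Set (Finset V)}
    (hF : WnuPiece r F) (hlin : Linear F) (hFH : F ⊆ H) :
    F.ncard ^ 2 ≤ Nat.sqrt (e - 1) * Fintype.card V ^ 3 := by
  obtain ⟨X, f, hF⟩ := hF
  obtain ⟨hX⟩ := fintype_rel hF
  have h1 : ∀ i, Fintype.card (X i) ≤ Fintype.card V := by
    obtain ⟨k, w, E, hk, hw, hfi, -⟩ := hF
    exact fun i => Fintype.card_le_of_injective _ (hfi i)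
  refine (rel_bound hr he hH hF hlin hFH ⟨0, by omega⟩ ⟨1, by omega⟩ ⟨2, by omega⟩
    (by simp [Fin.ext_iff]) (by simp [Fin.ext_iff]) (by simp [Fin.ext_iff])).trans
    (Nat.mul_le_mul_left _ ?_)
  rw [pow_succ, pow_two]
  exact Nat.mul_le_mul (Nat.mul_le_mul (h1 _) (h1 _)) (h1 _)

theorem partite_bound {V : Type} [Fintype V] {r e : ℕ} (hr : 3 ≤ r) (he : 1 ≤ e)
    {H : Set (Finset V)} (hH : SpanMore H e ((r - 2) * e + 3)) {F : Set (Finset V)}
    (hF : PartiteWnuPiece r F) (hlin : Linear F) (hFH : F ⊆ H) :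
    r ^ 3 * F.ncard ^ 2 ≤ Nat.sqrt (e - 1) * Fintype.card V ^ 3 := by
  classical
  obtain ⟨m, rfl⟩ : ∃ m, r = m + 3 := ⟨r - 3, by omega⟩
  obtain ⟨X, f, hF, hp⟩ := hF
  obtain ⟨hX⟩ := fintype_rel hF
  have hfi : ∀ i, Function.Injective (f i) := by
    obtain ⟨k, w, E, hk, hw, hfi, -⟩ := hF
    exact hfi
  set N := F.ncard with hN
  set s := Nat.sqrt (e - 1) with hs
  have h1 : ∀ i : Fin (m + 3), N ^ 2 ≤ s *
      (Fintype.card (X i) * Fintype.card (X (i + 1)) * Fintype.card (X (i + 2))) := by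
    intro i
    obtain ⟨h12, h13, h23⟩ := cyc_ne m i
    exact rel_bound hr he hH hF hlin hFH i (i + 1) (i + 2) h12 h13 h23
  have h2 : (N ^ 2) ^ (m + 3) ≤ s ^ (m + 3) * (∏ i, Fintype.card (X i)) ^ 3 := by
    have h3 := prod_le_prod' fun (i : Fin (m + 3)) (_ : i ∈ univ) => h1 i
    rw [prod_const, card_univ, Fintype.card_fin, prod_mul_distrib, prod_const, card_univ,
      Fintype.card_fin, cyc_prod] at h3
    exact h3
  have h4 := amgm (univ : Finset (Fin (m + 3))) univ_nonempty fun i => Fintype.card (X i)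
  rw [card_univ, Fintype.card_fin] at h4
  have h5 : ∑ i, Fintype.card (X i) ≤ Fintype.card V := by
    rw [← Fintype.card_sigma]
    refine Fintype.card_le_of_injective (fun x : Σ i, X i => f x.1 x.2) ?_
    rintro ⟨i, a⟩ ⟨j, b⟩ h
    obtain rfl := hp i j a b h
    exact congrArg (Sigma.mk i) (hfi i h)
  refine le_of_pow_le_pow_left₀ (n := m + 3) (by omega) (Nat.zero_le _) ?_
  calc ((m + 3) ^ 3 * N ^ 2) ^ (m + 3) = ((m + 3) ^ (m + 3)) ^ 3 * (N ^ 2) ^ (m + 3) := by
        rw [mul_pow]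
        congr 1
        rw [← pow_mul, ← pow_mul, mul_comm]
    _ ≤ ((m + 3) ^ (m + 3)) ^ 3 * (s ^ (m + 3) * (∏ i, Fintype.card (X i)) ^ 3) :=
        Nat.mul_le_mul_left _ h2
    _ = s ^ (m + 3) * ((m + 3) ^ (m + 3) * ∏ i, Fintype.card (X i)) ^ 3 := by ring
    _ ≤ s ^ (m + 3) * ((Fintype.card V) ^ (m + 3)) ^ 3 := by
        refine Nat.mul_le_mul_left _ (Nat.pow_le_pow_left ?_ _)
        exact h4.trans (Nat.pow_le_pow_left h5 _)
    _ = (s * Fintype.card V ^ 3) ^ (m + 3) := by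
        rw [mul_pow]
        congr 1
        rw [← pow_mul, ← pow_mul, mul_comm]

/-- The Latin squares in a piece. -/
theorem piece_latin {V : Type} [Fintype V] {r : ℕ} (hr : 3 ≤ r) {F : Set (Finset V)}
    (hF : WnuPiece r F) (hlin : Linear F) : ∃ (s : ℕ) (T : Finset (Finset V)), ↑T ⊆ F ∧
      F.ncard ^ 2 ≤ s * Fintype.card V ^ 3 ∧ #T = s ^ 2 ∧
      (⋃ a ∈ T, (a : Set V)).ncard ≤ 3 * s + (r - 3) * s ^ 2 := by
  classical
  obtain ⟨X, f, hF⟩ := hF
  obtain ⟨hX⟩ := fintype_rel hF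
  obtain ⟨k, w, E, hk, hw, hfi, hf, hinj, hE, rfl⟩ := hF
  have hcard : (edgeOf f '' E).ncard = Fintype.card E := by
    rw [hinj.ncard_image, ← Nat.card_coe_set_eq, Nat.card_eq_fintype_card]
  have hc : ∀ i, Fintype.card (X i) ≤ Fintype.card V := fun i =>
    Fintype.card_le_of_injective _ (hfi i)
  let i1 : Fin r := ⟨0, by omega⟩
  let i2 : Fin r := ⟨1, by omega⟩
  let i3 : Fin r := ⟨2, by omega⟩
  have h12 : i1 ≠ i2 := by simp [i1, i2, Fin.ext_iff]
  have h13 : i1 ≠ i3 := by simp [i1, i3, Fin.ext_iff]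
  have h23 : i2 ≠ i3 := by simp [i2, i3, Fin.ext_iff]
  obtain ⟨T, s, hT, h⟩ := exists_latin (sys hw hf hinj hE hlin i1 i2 i3 h12 h13 h23) hk
  set T1 : Finset (∀ i, X i) := T.image Subtype.val with hT1
  have hT1c : #T1 = s ^ 2 := by
    rw [hT1, card_image_of_injective _ Subtype.val_injective, hT.card]
  have hT1E : ∀ x ∈ T1, x ∈ E := fun x hx => by
    obtain ⟨y, -, rfl⟩ := mem_image.1 hx
    exact y.2
  refine ⟨s, T1.image (edgeOf f), ?_, ?_, ?_, ?_⟩
  · rw [coe_image]
    rintro a ⟨x, hx, rfl⟩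
    exact ⟨x, hT1E x hx, rfl⟩
  · rw [hcard]
    refine h.trans (Nat.mul_le_mul_left _ ?_)
    rw [pow_succ, pow_two]
    exact Nat.mul_le_mul (Nat.mul_le_mul ((card_le_univ _).trans (hc _))
      ((card_le_univ _).trans (hc _))) ((card_le_univ _).trans (hc _))
  · rw [card_image_of_injOn fun x hx y hy h => hinj (hT1E x hx) (hT1E y hy) h, hT1c]
  · have h3 : ∀ j : Fin r, #(T1.image fun x => x j) = #(T.image fun x => x.1 j) := by
      intro j
      rw [hT1, image_image]
      rfl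
    have h4 := (union_le f T1).trans
      (sum_three (fun j => #(T1.image fun x => x j)) (s ^ 2) i1 i2 i3 h12 h13 h23
        fun j => card_image_le.trans hT1c.le)
    simp only [h3] at h4
    have e1 : #(T.image fun x => x.1 i1) = s := hT.ca
    have e2 : #(T.image fun x => x.1 i2) = s := hT.cb
    have e3 : #(T.image fun x => x.1 i3) = s := hT.cc
    rw [e1, e2, e3] at h4
    refine h4.trans_eq ?_
    ring

/-- Majority operations are weak near-unanimity operations. -/
theorem wnu_of_majority {V : Type} {r : ℕ} {F : Set (Finset V)} (h : MajorityPiece r F) :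
    PartiteWnuPiece r F := by
  obtain ⟨X, μ, f, E, hμ, hf, hE, rfl⟩ := h
  have he : ∀ x, edgeOf (fun i a => f ⟨i, a⟩) x = edge f x := fun x => rfl
  have hp : ∀ i j (a : X i) (b : X j), f ⟨i, a⟩ = f ⟨j, b⟩ → i = j := fun i j a b h =>
    (Sigma.mk.inj (hf h)).1
  refine ⟨X, fun i a => f ⟨i, a⟩, ⟨3, fun i z => μ i (z 0) (z 1) (z 2), E, by norm_num,
    fun i => ⟨?_, ?_⟩, fun i a b h => eq_of_heq (Sigma.mk.inj (hf h)).2,
    fun x _ i j h => hp i j _ _ h, fun x _ y _ h => edge_injective hf h, ?_, rfl⟩, hp⟩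
  · intro x
    exact (hμ i x x).1
  · intro x y
    have h1 : ∀ j : Fin 3, μ i (update (fun _ => x) j y 0) (update (fun _ => x) j y 1)
        (update (fun _ => x) j y 2) = x := by
      intro j
      fin_cases j
      · exact (hμ i x y).2.2
      · exact (hμ i x y).2.1
      · exact (hμ i x y).1
    intro j j'
    exact (h1 j).trans (h1 j').symm
  · intro z hz
    exact hE _ (hz 0) _ (hz 1) _ (hz 2)

end Pool.Agent.Helper41K9.WN
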