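import Pool.Agent.Helper41K9.WN.Cut
import Pool.Agent.Helper41K9.WN.Group
import Pool.Agent.Helper41K9.WN.Line
import Pool.Agent.Helper41K9.WN.Long
import Pool.Agent.Helper41K9.WN.Pieces

/-!
# Dense subsets of relations with a weak near-unanimity operation
-/

set_option autoImplicit false

namespace Pool.Agent.Helper41K9.WN

open Finset Function Pool.Agent.R181.Maj

/-- A dense subset of a linear relation with a weak near-unanimity operation is dense on a
subalgebra which is the table of a large commutative group. -/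
theorem dense_tab {k : ℕ} {R A B C : Type} [Fintype R] [DecidableEq R] [DecidableEq A]
    [DecidableEq B] [DecidableEq C] (S : Sys k R A B C) (n : ℕ) (δ : ℝ) (hδ : 0 < δ) (hk : 2 ≤ k)
    (hn1 : 1 ≤ n)
    (hA : #((univ : Finset R).image S.a) ≤ n) (hB : #((univ : Finset R).image S.b) ≤ n)
    (hC : #((univ : Finset R).image S.c) ≤ n) (D : Finset R) (hD : δ * (n : ℝ) ^ 2 ≤ #D) :
    ∃ (K : Finset R) (_ : AddCommGroup {x // x ∈ K}) (t : Tab {x // x ∈ K} A B C) (s : ℕ),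
      (∀ x, t.a x = S.a x.1) ∧ (∀ x, t.b x = S.b x.1) ∧ (∀ x, t.c x = S.c x.1) ∧
      #K = s ^ 2 ∧ δ ^ 2 * n ≤ s ∧ δ * (s : ℝ) ^ 2 ≤ #(D ∩ K) := by
  classical
  have hn0 : (0 : ℝ) < n := by exact_mod_cast hn1
  have hDpos : (0 : ℝ) < #D := lt_of_lt_of_le (by positivity) hD
  have hDne : D.Nonempty := card_pos.1 (by exact_mod_cast hDpos)
  obtain ⟨K, hK, hKne, hTot, hP⟩ := exists_tot S D hDne
  obtain ⟨o, ho⟩ := hKne
  obtain ⟨G, t, ta, tb, tc⟩ := hTot.table hk ⟨o, ho⟩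
  -- the order of the table
  have kab : #K = #(K.image S.a) * #(K.image S.b) :=
    card_eq_mul S.a S.b K S.ab fun x hx y hy => by
      obtain ⟨z, h1, h2⟩ := t.tab ⟨x, hx⟩ ⟨y, hy⟩
      rw [ta] at h1
      rw [tb] at h2
      exact ⟨z.1, z.2, h1, h2⟩
  have kac : #K = #(K.image S.a) * #(K.image S.c) :=
    card_eq_mul S.a S.c K S.ac fun x hx y hy => by
      obtain ⟨z, h1, h2⟩ := t.tac ⟨x, hx⟩ ⟨y, hy⟩
      rw [ta] at h1
      rw [tc] at h2
      exact ⟨z.1, z.2, h1, h2⟩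
  have kbc : #K = #(K.image S.b) * #(K.image S.c) :=
    card_eq_mul S.b S.c K S.bc fun x hx y hy => by
      obtain ⟨z, h1, h2⟩ := t.tbc ⟨x, hx⟩ ⟨y, hy⟩
      rw [tb] at h1
      rw [tc] at h2
      exact ⟨z.1, z.2, h1, h2⟩
  have pa : 0 < #(K.image S.a) := card_pos.2 ⟨S.a o, mem_image_of_mem _ ho⟩
  have pc : 0 < #(K.image S.c) := card_pos.2 ⟨S.c o, mem_image_of_mem _ ho⟩
  have e1 : #(K.image S.b) = #(K.image S.c) :=
    Nat.eq_of_mul_eq_mul_left pa (kab.symm.trans kac)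
  have e2 : #(K.image S.a) = #(K.image S.b) :=
    Nat.eq_of_mul_eq_mul_right pc (kac.symm.trans kbc)
  set s := #(K.image S.b) with hs
  rw [← e1] at hP pc kac
  rw [e2] at hP pa kab
  have hsn : s ≤ n := (card_le_card (image_subset_image (subset_univ _))).trans hB
  have hDK : #(D ∩ K) ≤ s ^ 2 := by
    refine (card_le_card inter_subset_right).trans ?_
    rw [kab, pow_two]
  have hP2 : (#D : ℝ) ^ 2 * (s : ℝ) ^ 3 ≤ (n : ℝ) ^ 3 * (#(D ∩ K) : ℝ) ^ 2 := by
    have h1 : #D ^ 2 * (s * s * s) ≤ (n * n * n) * #(D ∩ K) ^ 2 :=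
      hP.trans (Nat.mul_le_mul_right _ (Nat.mul_le_mul (Nat.mul_le_mul hA hB) hC))
    have h2 : ((#D ^ 2 * (s * s * s) : ℕ) : ℝ) ≤ (((n * n * n) * #(D ∩ K) ^ 2 : ℕ) : ℝ) := by
      exact_mod_cast h1
    push_cast at h2
    nlinarith [h2]
  have hs0 : (0 : ℝ) < s := by exact_mod_cast pa
  have hsn' : (s : ℝ) ≤ n := by exact_mod_cast hsn
  have hDK' : (#(D ∩ K) : ℝ) ≤ (s : ℝ) ^ 2 := by exact_mod_cast hDK
  have hP3 : δ ^ 2 * n * (s : ℝ) ^ 3 ≤ (#(D ∩ K) : ℝ) ^ 2 := by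
    have h1 : (δ * (n : ℝ) ^ 2) ^ 2 * (s : ℝ) ^ 3 ≤ (n : ℝ) ^ 3 * (#(D ∩ K) : ℝ) ^ 2 :=
      le_trans (mul_le_mul_of_nonneg_right (pow_le_pow_left₀ (by positivity) hD 2)
        (by positivity)) hP2
    have h2 : (n : ℝ) ^ 3 * (δ ^ 2 * n * (s : ℝ) ^ 3) ≤ (n : ℝ) ^ 3 * (#(D ∩ K) : ℝ) ^ 2 := by
      calc (n : ℝ) ^ 3 * (δ ^ 2 * n * (s : ℝ) ^ 3) = (δ * (n : ℝ) ^ 2) ^ 2 * (s : ℝ) ^ 3 := by ring
        _ ≤ _ := h1
    exact le_of_mul_le_mul_left h2 (by positivity)
  have hsbig : δ ^ 2 * n ≤ s := by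
    have h1 : (#(D ∩ K) : ℝ) ^ 2 ≤ ((s : ℝ) ^ 2) ^ 2 := pow_le_pow_left₀ (by positivity) hDK' 2
    have h2 : (s : ℝ) ^ 3 * (δ ^ 2 * n) ≤ (s : ℝ) ^ 3 * s := by
      calc (s : ℝ) ^ 3 * (δ ^ 2 * n) = δ ^ 2 * n * (s : ℝ) ^ 3 := by ring
        _ ≤ ((s : ℝ) ^ 2) ^ 2 := hP3.trans h1
        _ = (s : ℝ) ^ 3 * s := by ring
    exact le_of_mul_le_mul_left h2 (by positivity)
  have hdens : δ * (s : ℝ) ^ 2 ≤ #(D ∩ K) := by
    refine le_of_pow_le_pow_left₀ (n := 2) (by norm_num) (by positivity) ?_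
    refine le_trans ?_ hP3
    calc (δ * (s : ℝ) ^ 2) ^ 2 = δ ^ 2 * s * (s : ℝ) ^ 3 := by ring
      _ ≤ δ ^ 2 * n * (s : ℝ) ^ 3 := by gcongr
  exact ⟨K, G, t, s, fun x => by rw [ta]; rfl, fun x => by rw [tb]; rfl,
    fun x => by rw [tc]; rfl, by rw [kab, pow_two], hsbig, hdens⟩

/-- Dense subsets of linear relations with a weak near-unanimity operation, three coordinates. -/
theorem dense_sys (hshort : S_SHORT) (e : ℕ) (δ : ℝ) (he : 1 ≤ e) (hδ : 0 < δ) :
    ∃ n₀ : ℕ, ∀ (k : ℕ) (R A B C : Type) [Fintype R] [DecidableEq R] [DecidableEq A]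
      [DecidableEq B] [DecidableEq C]
      (S : Sys k R A B C) (n : ℕ), 2 ≤ k → n₀ ≤ n →
      #((univ : Finset R).image S.a) ≤ n → #((univ : Finset R).image S.b) ≤ n →
      #((univ : Finset R).image S.c) ≤ n → ∀ D : Finset R, δ * (n : ℝ) ^ 2 ≤ #D →
      ∃ T ⊆ D, #T = e ∧ #(T.image S.a) + #(T.image S.b) + #(T.image S.c) ≤ e + 3 := by
  classical
  obtain ⟨M, hM⟩ := long line e δ he hδ
  obtain ⟨s₀, hs₀⟩ := hshort e M δ he hδ
  refine ⟨⌈(s₀ : ℝ) / δ ^ 2⌉₊ + 1, fun k R A B C _ _ _ _ _ S n hk hn hA hB hC D hD => ?_⟩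
  have hn1 : 1 ≤ n := by omega
  obtain ⟨K, G, t, s, ta, tb, tc, hKs, hsbig, hdens⟩ :=
    dense_tab S n δ hδ hk hn1 hA hB hC D hD
  -- the table is large
  have hcardU : Fintype.card {x // x ∈ K} = s ^ 2 := by
    rw [Fintype.card_coe, hKs]
  have hlarge : s₀ ≤ Fintype.card {x // x ∈ K} := by
    rw [hcardU]
    have h1 : (s₀ : ℝ) / δ ^ 2 ≤ n := by
      refine (Nat.le_ceil _).trans ?_
      have : ⌈(s₀ : ℝ) / δ ^ 2⌉₊ ≤ n := by omega
      exact_mod_cast this
    rw [div_le_iff₀ (by positivity)] at h1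
    have h2 : (s₀ : ℝ) ≤ s := by linarith
    have h3 : s₀ ≤ s := by exact_mod_cast h2
    exact h3.trans (Nat.le_self_pow (by norm_num) s)
  let D' : Finset {x // x ∈ K} := univ.filter fun x => x.1 ∈ D
  have hD' : D'.image Subtype.val = D ∩ K := by
    ext x
    simp only [mem_image, mem_inter, D', mem_filter, mem_univ, true_and]
    constructor
    · rintro ⟨y, h1, rfl⟩
      exact ⟨h1, y.2⟩
    · rintro ⟨h1, h2⟩
      exact ⟨⟨x, h2⟩, h1, rfl⟩
  have hD'c : #D' = #(D ∩ K) := by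
    rw [← hD', card_image_of_injective _ Subtype.val_injective]
  have hD'd : δ * (Fintype.card {x // x ∈ K} : ℝ) ≤ #D' := by
    rw [hcardU, hD'c]
    push_cast
    exact hdens
  have hconf : HasConf t e D' := by
    by_cases hg : ∃ g : {x // x ∈ K}, t.a g = t.a 0 ∧ M ≤ addOrderOf g
    · exact hM _ A B C t hg D' hD'd
    · push Not at hg
      exact hs₀ _ A B C t (fun g h => (hg g h).le) hlarge D' hD'd
  obtain ⟨T, hT, hTe, hTc⟩ := hconf
  refine ⟨T.image Subtype.val, ?_, ?_, ?_⟩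
  · refine (image_subset_image hT).trans ?_
    rw [hD']
    exact inter_subset_left
  · rw [card_image_of_injective _ Subtype.val_injective, hTe]
  · have h1 : ∀ {X : Type} [DecidableEq X] (p : R → X) (q : {x // x ∈ K} → X),
        (∀ x, q x = p x.1) →
        #((T.image Subtype.val).image p) = Nat.card ↥(q '' (T : Set {x // x ∈ K})) := by
      intro X _ p q hq
      have hq' : q = fun x => p x.1 := funext hq
      rw [Nat.card_coe_set_eq, ← coe_image, Set.ncard_coe_finset, image_image, hq']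
      rfl
    rw [h1 S.a t.a ta, h1 S.b t.b tb, h1 S.c t.c tc]
    exact hTc

/-- A table in the form `x + y`. -/
theorem Tab.group {U A B C : Type} [AddCommGroup U] (t : Tab U A B C) :
    ∃ (G : Type) (_ : AddCommGroup G) (φ : G × G ≃ U) (α : G → A) (β : G → B) (γ : G → C),
      Function.Injective α ∧ Function.Injective β ∧ Function.Injective γ ∧
      ∀ x y, t.a (φ (x, y)) = α x ∧ t.b (φ (x, y)) = β y ∧ t.c (φ (x, y)) = γ (x + y) := by
  classical
  let G : AddSubgroup U :=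
    { carrier := {u | t.a u = t.a 0}
      add_mem' := fun {u v} hu hv => by
        have h := t.adda u 0 v hu
        rw [zero_add] at h
        exact h.trans hv
      zero_mem' := rfl
      neg_mem' := fun {u} hu => by
        have h := t.adda u 0 (-u) hu
        rw [add_neg_cancel, zero_add] at h
        exact h.symm }
  choose σ hσb hσc using fun y : G => t.tbc 0 y.1
  have ha : ∀ x y : G, t.a (y.1 + σ x) = t.a (σ x) := by
    intro x y
    have h := t.adda y.1 0 (σ x) y.2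
    rwa [zero_add] at h
  have hb : ∀ x y : G, t.b (y.1 + σ x) = t.b y.1 := by
    intro x y
    have h := t.addb (σ x) 0 y.1 (hσb x)
    rwa [zero_add, add_comm] at h
  have hc : ∀ x y : G, t.c (y.1 + σ x) = t.c (x + y).1 := by
    intro x y
    have h := t.addc (σ x) x.1 y.1 (hσc x)
    rwa [add_comm] at h
  have iα : Function.Injective fun x : G => t.a (σ x) := by
    intro x y h
    have h1 : σ x = σ y := t.ab _ _ h ((hσb x).trans (hσb y).symm)
    refine Subtype.ext (t.ac _ _ (x.2.trans y.2.symm) ?_)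
    rw [← hσc, ← hσc, h1]
  have iβ : Function.Injective fun x : G => t.b x.1 := fun x y h =>
    Subtype.ext (t.ab _ _ (x.2.trans y.2.symm) h)
  have iγ : Function.Injective fun x : G => t.c x.1 := fun x y h =>
    Subtype.ext (t.ac _ _ (x.2.trans y.2.symm) h)
  have hbij : Function.Bijective fun p : G × G => p.2.1 + σ p.1 := by
    constructor
    · rintro ⟨x, y⟩ ⟨x', y'⟩ h
      have h' : y.1 + σ x = y'.1 + σ x' := h
      have h1 : x = x' := iα (by
        show t.a (σ x) = t.a (σ x')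
        rw [← ha x y, h', ha])
      have h2 : y = y' := iβ (by
        show t.b y.1 = t.b y'.1
        rw [← hb x y, h', hb])
      rw [h1, h2]
    · intro u
      obtain ⟨y, hy1, hy2⟩ := t.tab 0 u
      obtain ⟨z, hz1, hz2⟩ := t.tac 0 u
      let y' : G := ⟨y, hy1⟩
      let z' : G := ⟨z, hz1⟩
      refine ⟨(z' - y', y'), t.bc _ _ ?_ ?_⟩
      · show t.b (y'.1 + σ (z' - y')) = t.b u
        rw [hb]
        exact hy2
      · show t.c (y'.1 + σ (z' - y')) = t.c u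
        rw [hc, sub_add_cancel]
        exact hz2
  exact ⟨G, inferInstance, Equiv.ofBijective _ hbij, fun x => t.a (σ x), fun x => t.b x.1,
    fun x => t.c x.1, iα, iβ, iγ, fun x y => ⟨ha x y, hb x y, hc x y⟩⟩

/-- The theorem for one piece. -/
theorem dense_piece (hshort : S_SHORT) (r e : ℕ) (δ : ℝ) (hr : 3 ≤ r) (he : 1 ≤ e) (hδ : 0 < δ) :
    ∃ n₀ : ℕ, ∀ (V : Type) [Fintype V] (F H : Set (Finset V)), WnuPiece r F → Linear F →
      n₀ ≤ Fintype.card V → H ⊆ F → δ * (Fintype.card V : ℝ) ^ 2 ≤ H.ncard →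
      ¬ SpanMore H e ((r - 2) * e + 3) := by
  classical
  obtain ⟨n₀, hn₀⟩ := dense_sys hshort e δ he hδ
  refine ⟨n₀, fun V _ F H hF hlin hn hHF hH hsp => ?_⟩
  obtain ⟨X, f, hF⟩ := hF
  obtain ⟨hX⟩ := fintype_rel hF
  obtain ⟨k, w, E, hk, hw, hfi, hf, hinj, hE, rfl⟩ := hF
  have hc : ∀ i, Fintype.card (X i) ≤ Fintype.card V := fun i =>
    Fintype.card_le_of_injective _ (hfi i)
  let i1 : Fin r := ⟨0, by omega⟩
  let i2 : Fin r := ⟨1, by omega⟩
  let i3 : Fin r := ⟨2, by omega⟩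
  have h12 : i1 ≠ i2 := by simp [i1, i2, Fin.ext_iff]
  have h13 : i1 ≠ i3 := by simp [i1, i3, Fin.ext_iff]
  have h23 : i2 ≠ i3 := by simp [i2, i3, Fin.ext_iff]
  let D : Finset E := univ.filter fun x => edgeOf f x.1 ∈ H
  have hDH : (fun x : E => edgeOf f x.1) '' (D : Set E) = H := by
    ext a
    constructor
    · rintro ⟨x, hx, rfl⟩
      exact (mem_filter.1 (mem_coe.1 hx)).2
    · intro ha
      obtain ⟨x, hx, rfl⟩ := hHF ha
      exact ⟨⟨x, hx⟩, mem_coe.2 (mem_filter.2 ⟨mem_univ _, ha⟩), rfl⟩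
  have hinj' : Function.Injective fun x : E => edgeOf f x.1 := fun x y h =>
    Subtype.ext (hinj x.2 y.2 h)
  have hDc : H.ncard = #D := by
    rw [← hDH, Set.ncard_image_of_injective _ hinj', Set.ncard_coe_finset]
  rw [hDc] at hH
  obtain ⟨T, hT, hTe, hTc⟩ := hn₀ k E (X i1) (X i2) (X i3)
    (sys hw hf hinj hE hlin i1 i2 i3 h12 h13 h23) (Fintype.card V) hk hn
    ((card_le_univ _).trans (hc _)) ((card_le_univ _).trans (hc _))
    ((card_le_univ _).trans (hc _)) D hH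
  set T1 : Finset (∀ i, X i) := T.image Subtype.val with hT1
  have hT1c : #T1 = e := by
    rw [hT1, card_image_of_injective _ Subtype.val_injective, hTe]
  have hT1E : ∀ x ∈ T1, x ∈ E := fun x hx => by
    obtain ⟨y, -, rfl⟩ := mem_image.1 hx
    exact y.2
  have h2 := hsp (T1.image (edgeOf f)) (by
    rw [coe_image]
    rintro a ⟨x, hx, rfl⟩
    obtain ⟨y, hy, rfl⟩ := mem_image.1 (mem_coe.1 hx)
    exact (mem_filter.1 (hT hy)).2)
    (by rw [card_image_of_injOn fun x hx y hy h => hinj (hT1E x hx) (hT1E y hy) h, hT1c])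
  have h2' := h2.trans_le (union_le f T1)
  have h3 : ∀ j : Fin r, #(T1.image fun x => x j) = #(T.image fun x => x.1 j) := by
    intro j
    rw [hT1, image_image]
    rfl
  have h4 := sum_three (fun j => #(T1.image fun x => x j)) e i1 i2 i3 h12 h13 h23
    fun j => card_image_le.trans hT1c.le
  have h4' := h2'.trans_le h4
  have e1 : (r - 2) * e = e + (r - 3) * e := by
    obtain ⟨m, rfl⟩ : ∃ m, r = m + 3 := ⟨r - 3, by omega⟩
    have h5 : m + 3 - 2 = m + 1 := by omega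
    have h6 : m + 3 - 3 = m := by omega
    rw [h5, h6]
    ring
  simp only [h3] at h4'
  have h7 : #(T.image fun x => x.1 i1) + #(T.image fun x => x.1 i2) +
    #(T.image fun x => x.1 i3) ≤ e + 3 := hTc
  omega

/-- The theorem for a bounded number of pieces. -/
theorem dense_pieces (hshort : S_SHORT) (r e L : ℕ) (ε : ℝ) (hr : 3 ≤ r) (he : 1 ≤ e)
    (hε : 0 < ε) :
    ∃ n₀ : ℕ, ∀ (V : Type) [Fintype V] (F : Fin L → Set (Finset V)) (H : Set (Finset V)),
      (∀ i, WnuPiece r (F i)) → (∀ i, Linear (F i)) → n₀ ≤ Fintype.card V → H ⊆ ⋃ i, F i →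
      SpanMore H e ((r - 2) * e + 3) → (H.ncard : ℝ) < ε * (Fintype.card V : ℝ) ^ 2 := by
  classical
  obtain ⟨n₀, hn₀⟩ := dense_piece hshort r e (ε / (L + 1)) hr he (by positivity)
  refine ⟨n₀ + 1, fun V _ F H hF hlin hn hHF hsp => ?_⟩
  by_contra hcon
  push Not at hcon
  have hn1 : (0 : ℝ) < Fintype.card V := by
    have : 0 < Fintype.card V := by omega
    exact_mod_cast this
  have h1 : ∀ i, ((H ∩ F i).ncard : ℝ) < ε / (L + 1) * (Fintype.card V : ℝ) ^ 2 := by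
    intro i
    by_contra h2
    push Not at h2
    refine hn₀ V (F i) (H ∩ F i) (hF i) (hlin i) (by omega) Set.inter_subset_right h2 ?_
    intro T hT hTe
    exact hsp T (hT.trans Set.inter_subset_left) hTe
  have h2 : H = ⋃ i, (H ∩ F i) := by
    rw [← Set.inter_iUnion]
    exact (Set.inter_eq_left.2 hHF).symm
  have h3 : H.ncard ≤ ∑ i : Fin L, (H ∩ F i).ncard := by
    conv_lhs => rw [h2]
    exact Set.ncard_iUnion_le_of_fintype _
  have h4 : (H.ncard : ℝ) ≤ ∑ i : Fin L, ((H ∩ F i).ncard : ℝ) := by exact_mod_cast h3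
  have h5 : ∑ i : Fin L, ((H ∩ F i).ncard : ℝ) ≤
      ∑ _i : Fin L, ε / (L + 1) * (Fintype.card V : ℝ) ^ 2 := sum_le_sum fun i _ => (h1 i).le
  rw [sum_const, card_univ, Fintype.card_fin, nsmul_eq_mul] at h5
  have h6 : (L : ℝ) * (ε / (L + 1) * (Fintype.card V : ℝ) ^ 2) <
      ε * (Fintype.card V : ℝ) ^ 2 := by
    have h7 : (L : ℝ) * (ε / (L + 1)) < ε := by
      rw [mul_div_assoc', div_lt_iff₀ (by positivity)]
      nlinarith
    calc (L : ℝ) * (ε / (L + 1) * (Fintype.card V : ℝ) ^ 2) =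
        (L : ℝ) * (ε / (L + 1)) * (Fintype.card V : ℝ) ^ 2 := by ring
      _ < _ := mul_lt_mul_of_pos_right h7 (by positivity)
  linarith

end Pool.Agent.Helper41K9.WN
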