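import Pool.Agent.Helper41K9.WN.St

/-!
# Dense subsets of tables of commutative groups: groups of small exponent
-/

set_option autoImplicit false

namespace Pool.Agent.Helper41K9.WN

open Finset

namespace ShortL

section greedy

variable {R A B C : Type} [DecidableEq R] [DecidableEq A] [DecidableEq B] [DecidableEq C]

theorem card_ins {D : Type} [DecidableEq D] (f : R → D) (z : R) (T : Finset R) :
    #((insert z T).image f) ≤ #(T.image f) + 1 := by
  rw [image_insert]
  exact card_insert_le _ _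

theorem card_ins_mem {D : Type} [DecidableEq D] (f : R → D) (z : R) (T : Finset R)
    (h : f z ∈ T.image f) : #((insert z T).image f) = #(T.image f) := by
  rw [image_insert, insert_eq_of_mem h]

omit [DecidableEq R] in
theorem card_mul {D E : Type} [DecidableEq D] [DecidableEq E] (f : R → D) (g : R → E)
    (T : Finset R) (hinj : ∀ x y, f x = f y → g x = g y → x = y)
    (hs : ∀ x ∈ T, ∀ y ∈ T, ∃ z ∈ T, f z = f x ∧ g z = g y) :
    #T = #(T.image f) * #(T.image g) := by
  rw [← card_product]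
  refine card_bij (fun x _ => (f x, g x)) (fun x hx => ?_) (fun x _ y _ h => ?_) fun p hp => ?_
  · exact mem_product.2 ⟨mem_image_of_mem _ hx, mem_image_of_mem _ hx⟩
  · exact hinj x y (congrArg Prod.fst h) (congrArg Prod.snd h)
  · rw [mem_product, mem_image, mem_image] at hp
    obtain ⟨⟨x, hx, h1⟩, ⟨y, hy, h2⟩⟩ := hp
    obtain ⟨z, hz, h3, h4⟩ := hs x hx y hy
    exact ⟨z, hz, Prod.ext (h3.trans h1) (h4.trans h2)⟩

/-- In a Latin square of at least `t ≥ 1` cells there are `t` cells which meet at most `t + 3` rows,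
columns and symbols. -/
theorem greedy (a : R → A) (b : R → B) (c : R → C)
    (iab : ∀ x y, a x = a y → b x = b y → x = y) (iac : ∀ x y, a x = a y → c x = c y → x = y)
    (ibc : ∀ x y, b x = b y → c x = c y → x = y) (T : Finset R)
    (hab : ∀ x ∈ T, ∀ y ∈ T, ∃ z ∈ T, a z = a x ∧ b z = b y)
    (hac : ∀ x ∈ T, ∀ y ∈ T, ∃ z ∈ T, a z = a x ∧ c z = c y)
    (hbc : ∀ x ∈ T, ∀ y ∈ T, ∃ z ∈ T, b z = b x ∧ c z = c y) (t : ℕ) (ht : t + 1 ≤ #T) :
    ∃ T' ⊆ T, #T' = t + 1 ∧
      #(T'.image a) + #(T'.image b) + #(T'.image c) ≤ (t + 1) + 3 := by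
  induction t with
  | zero =>
    obtain ⟨x, hx⟩ := card_pos.1 ht
    exact ⟨{x}, singleton_subset_iff.2 hx, card_singleton x, by simp⟩
  | succ t ih =>
    obtain ⟨T', hT', h1, h2⟩ := ih (by omega)
    have hne : T'.Nonempty := card_pos.1 (by omega)
    by_cases hst : ∃ z ∈ T, z ∉ T' ∧
      ((a z ∈ T'.image a ∧ b z ∈ T'.image b) ∨
        (a z ∈ T'.image a ∧ c z ∈ T'.image c) ∨
        (b z ∈ T'.image b ∧ c z ∈ T'.image c))
    · obtain ⟨z, hz, hz', h3⟩ := hst
      refine ⟨insert z T', insert_subset hz hT', by rw [card_insert_of_notMem hz', h1], ?_⟩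
      have ia := card_ins a z T'
      have ib := card_ins b z T'
      have ic := card_ins c z T'
      rcases h3 with ⟨h3, h4⟩ | ⟨h3, h4⟩ | ⟨h3, h4⟩
      · rw [card_ins_mem a z T' h3, card_ins_mem b z T' h4]
        omega
      · rw [card_ins_mem a z T' h3, card_ins_mem c z T' h4]
        omega
      · rw [card_ins_mem b z T' h3, card_ins_mem c z T' h4]
        omega
    · have kab : #T' = #(T'.image a) * #(T'.image b) :=
        card_mul a b T' iab fun x hx y hy => by
          obtain ⟨z, hz, h3, h4⟩ := hab x (hT' hx) y (hT' hy)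
          refine ⟨z, ?_, h3, h4⟩
          by_contra hz'
          exact hst ⟨z, hz, hz', Or.inl ⟨h3 ▸ mem_image_of_mem _ hx, h4 ▸ mem_image_of_mem _ hy⟩⟩
      have kac : #T' = #(T'.image a) * #(T'.image c) :=
        card_mul a c T' iac fun x hx y hy => by
          obtain ⟨z, hz, h3, h4⟩ := hac x (hT' hx) y (hT' hy)
          refine ⟨z, ?_, h3, h4⟩
          by_contra hz'
          exact hst ⟨z, hz, hz', Or.inr (Or.inl
            ⟨h3 ▸ mem_image_of_mem _ hx, h4 ▸ mem_image_of_mem _ hy⟩)⟩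
      have kbc : #T' = #(T'.image b) * #(T'.image c) :=
        card_mul b c T' ibc fun x hx y hy => by
          obtain ⟨z, hz, h3, h4⟩ := hbc x (hT' hx) y (hT' hy)
          refine ⟨z, ?_, h3, h4⟩
          by_contra hz'
          exact hst ⟨z, hz, hz', Or.inr (Or.inr
            ⟨h3 ▸ mem_image_of_mem _ hx, h4 ▸ mem_image_of_mem _ hy⟩)⟩
      have pa : 0 < #(T'.image a) := card_pos.2 (hne.image _)
      have pb : 0 < #(T'.image b) := card_pos.2 (hne.image _)
      have e1 : #(T'.image b) = #(T'.image c) :=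
        Nat.eq_of_mul_eq_mul_left pa (kab.symm.trans kac)
      have e2 : #(T'.image a) = #(T'.image c) := by
        refine Nat.eq_of_mul_eq_mul_left pb ?_
        rw [mul_comm, ← kab, kbc]
      have h3 : #(T'.image a) + #(T'.image b) + #(T'.image c) ≤ #T' + 2 := by
        rw [kab, e1, e2]
        rw [e2] at pa
        generalize #(T'.image c) = m at pa ⊢
        obtain ⟨q, rfl⟩ : ∃ q, m = q + 1 := ⟨m - 1, by omega⟩
        nlinarith [Nat.zero_le (q * q), Nat.le_mul_self q]
      -- find an edge outside which shares one coordinate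
      have h4 : ∃ z ∈ T, z ∉ T' ∧ (b z ∈ T'.image b ∨ c z ∈ T'.image c) := by
        obtain ⟨z0, hz0, hz0'⟩ : ∃ z0 ∈ T, z0 ∉ T' := by
          by_contra hcon
          push Not at hcon
          have := card_le_card (show T ⊆ T' from hcon)
          omega
        obtain ⟨x, hx⟩ := hne
        obtain ⟨z, hz, h5, h6⟩ := hbc x (hT' hx) z0 hz0
        by_cases hz' : z ∈ T'
        · exact ⟨z0, hz0, hz0', Or.inr (h6 ▸ mem_image_of_mem _ hz')⟩
        · exact ⟨z, hz, hz', Or.inl (h5 ▸ mem_image_of_mem _ hx)⟩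
      obtain ⟨z, hz, hz', h5⟩ := h4
      refine ⟨insert z T', insert_subset hz hT', by rw [card_insert_of_notMem hz', h1], ?_⟩
      have ia := card_ins a z T'
      have ib := card_ins b z T'
      have ic := card_ins c z T'
      rcases h5 with h5 | h5
      · rw [card_ins_mem b z T' h5]
        omega
      · rw [card_ins_mem c z T' h5]
        omega

end greedy

section span

variable {U : Type} [AddCommGroup U]

/-- The subgroup generated by the first `n` elements. -/
noncomputable def F (g : ℕ → U) (n : ℕ) : Submodule ℤ U :=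
  Submodule.span ℤ (g '' {i | i < n})

theorem F_mono (g : ℕ → U) {m n : ℕ} (h : m ≤ n) : F g m ≤ F g n :=
  Submodule.span_mono (Set.image_mono fun _ hi => lt_of_lt_of_le hi h)

theorem mem_F (g : ℕ → U) {i n : ℕ} (h : i < n) : g i ∈ F g n :=
  Submodule.subset_span ⟨i, h, rfl⟩

theorem F_congr (g g' : ℕ → U) (n : ℕ) (h : ∀ i < n, g i = g' i) : F g n = F g' n := by
  unfold F
  congr 1
  exact Set.image_congr fun i hi => h i hi

/-- The elements of the subgroup are combinations with small coefficients. -/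
theorem exists_coeff [Finite U] (g : ℕ → U) (n M : ℕ) (hM : ∀ i < n, addOrderOf (g i) ≤ M) (x : U)
    (hx : x ∈ F g n) : ∃ i : Fin n → Fin (M + 1), ∑ l, (i l : ℕ) • g l = x := by
  have h1 : g '' {i | i < n} = Set.range fun l : Fin n => g l := by
    ext y
    constructor
    · rintro ⟨i, hi, rfl⟩
      exact ⟨⟨i, hi⟩, rfl⟩
    · rintro ⟨i, rfl⟩
      exact ⟨i, i.2, rfl⟩
  unfold F at hx
  rw [h1, Submodule.mem_span_range_iff_exists_fun] at hx
  obtain ⟨c, hc⟩ := hx
  have hpos : ∀ l : Fin n, 0 < addOrderOf (g l) := fun l => addOrderOf_pos _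
  have hlt : ∀ l : Fin n, (c l % (addOrderOf (g l) : ℤ)).toNat < M + 1 := by
    intro l
    have h2 := Int.emod_lt_of_pos (c l) (Int.natCast_pos.2 (hpos l))
    have h3 := Int.emod_nonneg (c l) (Int.natCast_pos.2 (hpos l)).ne'
    have h4 := hM l l.2
    omega
  refine ⟨fun l => ⟨(c l % (addOrderOf (g l) : ℤ)).toNat, hlt l⟩, ?_⟩
  rw [← hc]
  refine sum_congr rfl fun l _ => ?_
  have h3 := Int.emod_nonneg (c l) (Int.natCast_pos.2 (hpos l)).ne'
  rw [← natCast_zsmul, Int.toNat_of_nonneg h3, mod_addOrderOf_zsmul]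

theorem card_F [Finite U] (g : ℕ → U) (n M : ℕ) (hM : ∀ i < n, addOrderOf (g i) ≤ M) :
    Nat.card (F g n) ≤ (M + 1) ^ n := by
  have h1 : ∀ x : F g n, ∃ i : Fin n → Fin (M + 1), ∑ l, (i l : ℕ) • g l = x := fun x =>
    exists_coeff g n M hM x x.2
  choose f hf using h1
  have h2 : Function.Injective f := by
    intro x y hxy
    apply Subtype.ext
    rw [← hf x, ← hf y, hxy]
  have h3 := Nat.card_le_card_of_injective f h2
  rwa [Nat.card_fun, Nat.card_fin, Nat.card_fin] at h3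

/-- An independent sequence in a large subgroup. -/
theorem exists_seq [Finite U] (A0 : AddSubgroup U) (M K : ℕ) (hM : ∀ x ∈ A0, addOrderOf x ≤ M)
    (hK : (M + 1) ^ K < Nat.card A0) (n : ℕ) (hn : n ≤ K) :
    ∃ g : ℕ → U, (∀ i < n, g i ∈ A0) ∧ ∀ i < n, g i ∉ F g i := by
  induction n with
  | zero => exact ⟨fun _ => 0, fun i hi => absurd hi (Nat.not_lt_zero _),
      fun i hi => absurd hi (Nat.not_lt_zero _)⟩
  | succ n ih =>
    obtain ⟨g, h1, h2⟩ := ih (by omega)
    obtain ⟨x, hx, hx'⟩ : ∃ x ∈ A0, x ∉ F g n := by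
      by_contra hcon
      push Not at hcon
      have h3 : Nat.card A0 ≤ Nat.card (F g n) :=
        Nat.card_le_card_of_injective (fun x : A0 => (⟨x.1, hcon x.1 x.2⟩ : F g n))
          fun x y hxy => Subtype.ext (congrArg (fun z : F g n => (z : U)) hxy)
      have h4 := card_F g n M fun i hi => hM _ (h1 i hi)
      have h5 : (M + 1) ^ n ≤ (M + 1) ^ K := Nat.pow_le_pow_right (Nat.succ_pos _) (by omega)
      omega
    refine ⟨Function.update g n x, fun i hi => ?_, fun i hi => ?_⟩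
    · rcases Nat.lt_succ_iff_lt_or_eq.1 hi with h | h
      · rw [Function.update_of_ne h.ne]
        exact h1 i h
      · rw [h, Function.update_self]
        exact hx
    · have h6 : F (Function.update g n x) i = F g i := by
        refine F_congr _ _ _ fun j hj => ?_
        rw [Function.update_of_ne]
        omega
      rw [h6]
      rcases Nat.lt_succ_iff_lt_or_eq.1 hi with h | h
      · rw [Function.update_of_ne h.ne]
        exact h2 i h
      · rw [h, Function.update_self]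
        exact hx'

/-- Chains of subgroups. -/
theorem two_pow_le [Finite U] (G : ℕ → U) (n : ℕ) (h : ∀ l < n, G l ∉ F G l) :
    2 ^ n ≤ Nat.card (F G n) := by
  induction n with
  | zero =>
    rw [pow_zero]
    exact Nat.card_pos
  | succ n ih =>
    have h1 := ih fun l hl => h l (by omega)
    have h2 : (F G n).toAddSubgroup ≤ (F G (n + 1)).toAddSubgroup :=
      fun x hx => F_mono G (Nat.le_succ n) hx
    obtain ⟨k, hk⟩ := AddSubgroup.card_dvd_of_le h2
    have h3 : Nat.card (F G (n + 1)) = Nat.card (F G n) * k := hk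
    have h4 : k ≠ 0 := by
      rintro rfl
      have : 0 < Nat.card (F G (n + 1)) := Nat.card_pos
      omega
    have h5 : k ≠ 1 := by
      rintro rfl
      have h6 : (F G n).toAddSubgroup = (F G (n + 1)).toAddSubgroup := by
        refine AddSubgroup.eq_of_le_of_card_ge h2 ?_
        change Nat.card (F G (n + 1)) ≤ Nat.card (F G n)
        omega
      have h7 : G n ∈ (F G (n + 1)).toAddSubgroup := mem_F G (Nat.lt_succ_self n)
      rw [← h6] at h7
      exact h n (Nat.lt_succ_self n) h7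
    rw [h3, pow_succ]
    exact Nat.mul_le_mul h1 (by omega)

end span

section tab

variable {U A B C : Type} [AddCommGroup U]

/-- The kernel of a coordinate. -/
def ker {A : Type} (f : U → A) (hf : ∀ x y z, f x = f y → f (x + z) = f (y + z)) :
    AddSubgroup U where
  carrier := {g | f g = f 0}
  zero_mem' := rfl
  add_mem' := by
    intro x y hx hy
    have h := hf x 0 y hx
    rw [zero_add] at h
    exact h.trans hy
  neg_mem' := by
    intro x hx
    have h := hf x 0 (-x) hx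
    rw [add_neg_cancel, zero_add] at h
    exact h.symm

/-- The isomorphism of the subgroups. -/
theorem exists_psi (t : Tab U A B C) : ∃ ψ : U →+ U, (∀ g, t.b (ψ g) = t.b 0) ∧
    (∀ g, t.c (g + ψ g) = t.c 0) ∧ ∀ x, ∃ g h, t.a g = t.a 0 ∧ t.a h = t.a 0 ∧ g + ψ h = x := by
  have h1 : ∀ g, ∃ h, t.b h = t.b 0 ∧ t.c (g + h) = t.c 0 := by
    intro g
    obtain ⟨z, hz, hz'⟩ := t.tbc g 0
    refine ⟨z - g, ?_, ?_⟩
    · have h := t.addb z g (-g) hz
      rwa [add_neg_cancel, ← sub_eq_add_neg] at h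
    · rwa [add_sub_cancel]
  choose ψ hb hc using h1
  have hu : ∀ g h, t.b h = t.b 0 → t.c (g + h) = t.c 0 → h = ψ g := by
    intro g h h2 h3
    refine t.bc _ _ (h2.trans (hb g).symm) ?_
    have h4 := t.addc _ _ (-g) (h3.trans (hc g).symm)
    rwa [add_neg_cancel_comm, add_neg_cancel_comm] at h4
  have hadd : ∀ g h, ψ (g + h) = ψ g + ψ h := by
    intro g h
    refine (hu _ _ ?_ ?_).symm
    · exact (ker t.b t.addb).add_mem (hb g) (hb h)
    · rw [add_add_add_comm]
      exact (ker t.c t.addc).add_mem (hc g) (hc h)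
  refine ⟨AddMonoidHom.mk' ψ hadd, hb, hc, fun x => ?_⟩
  obtain ⟨z, hz, hz'⟩ := t.tab x 0
  obtain ⟨w, hw, hw'⟩ := t.tac z 0
  refine ⟨x - z, w - z, ?_, ?_, ?_⟩
  · have h := t.adda x z (-z) hz.symm
    rwa [add_neg_cancel, ← sub_eq_add_neg] at h
  · have h := t.adda w z (-z) hw
    rwa [add_neg_cancel, ← sub_eq_add_neg] at h
  · have h5 : z = ψ (w - z) := hu _ _ hz' (by rwa [sub_add_cancel])
    change x - z + ψ (w - z) = x
    rw [← h5, sub_add_cancel]

theorem card_le_sq [Fintype U] (t : Tab U A B C) :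
    Fintype.card U ≤ Nat.card (ker t.a t.adda) ^ 2 := by
  obtain ⟨ψ, -, -, h⟩ := exists_psi t
  rw [pow_two, ← Nat.card_prod, ← Nat.card_eq_fintype_card]
  refine Nat.card_le_card_of_surjective
    (fun p : ker t.a t.adda × ker t.a t.adda => (p.1 : U) + ψ p.2) fun x => ?_
  obtain ⟨g, h', h1, h2, h3⟩ := h x
  exact ⟨(⟨g, h1⟩, ⟨h', h2⟩), h3⟩

theorem conf [Fintype U] (t : Tab U A B C) (ψ : U →+ U) (hb : ∀ g, t.b (ψ g) = t.b 0)
    (hc : ∀ g, t.c (g + ψ g) = t.c 0) (H : AddSubgroup U) (hH : ∀ h ∈ H, t.a h = t.a 0) (x : U)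
    (D : Finset U) (hD : ∀ h ∈ H, ∀ k ∈ H, x + (h + ψ k) ∈ D) (e : ℕ) (he : 1 ≤ e)
    (hcard : e ≤ Nat.card H) : HasConf t e D := by
  classical
  let T : Finset U := D.filter fun y => ∃ h ∈ H, ∃ k ∈ H, x + (h + ψ k) = y
  have hT : ∀ h ∈ H, ∀ k ∈ H, x + (h + ψ k) ∈ T := fun h hh k hk =>
    mem_filter.2 ⟨hD h hh k hk, h, hh, k, hk, rfl⟩
  have hT' : ∀ y ∈ T, ∃ h ∈ H, ∃ k ∈ H, x + (h + ψ k) = y := fun y hy => (mem_filter.1 hy).2
  have ha1 : ∀ h ∈ H, ∀ k, t.a (x + (h + ψ k)) = t.a (x + ψ k) := by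
    intro h hh k
    have h1 := t.adda h 0 (x + ψ k) (hH h hh)
    rw [zero_add] at h1
    rw [← h1]
    congr 1
    abel
  have hb1 : ∀ h k, t.b (x + (h + ψ k)) = t.b (x + h) := by
    intro h k
    have h1 := t.addb (ψ k) 0 (x + h) (hb k)
    rw [zero_add] at h1
    rw [← h1]
    congr 1
    abel
  have hc1 : ∀ h k, t.c (x + (h + ψ k)) = t.c (x + (h - k)) := by
    intro h k
    have h1 := t.addc (k + ψ k) 0 (x + (h - k)) (hc k)
    rw [zero_add] at h1
    rw [← h1]
    congr 1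
    abel
  have hab : ∀ x ∈ T, ∀ y ∈ T, ∃ z ∈ T, t.a z = t.a x ∧ t.b z = t.b y := by
    intro y hy z hz
    obtain ⟨h, hh, k, hk, rfl⟩ := hT' y hy
    obtain ⟨h', hh', k', hk', rfl⟩ := hT' z hz
    refine ⟨_, hT h' hh' k hk, ?_, ?_⟩
    · rw [ha1 h hh, ha1 h' hh']
    · rw [hb1, hb1]
  have hac : ∀ x ∈ T, ∀ y ∈ T, ∃ z ∈ T, t.a z = t.a x ∧ t.c z = t.c y := by
    intro y hy z hz
    obtain ⟨h, hh, k, hk, rfl⟩ := hT' y hy
    obtain ⟨h', hh', k', hk', rfl⟩ := hT' z hz
    have h3 : h' - k' + k ∈ H := H.add_mem (H.sub_mem hh' hk') hk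
    refine ⟨_, hT _ h3 k hk, ?_, ?_⟩
    · rw [ha1 h hh, ha1 _ h3]
    · rw [hc1, hc1, add_sub_cancel_right]
  have hbc : ∀ x ∈ T, ∀ y ∈ T, ∃ z ∈ T, t.b z = t.b x ∧ t.c z = t.c y := by
    intro y hy z hz
    obtain ⟨h, hh, k, hk, rfl⟩ := hT' y hy
    obtain ⟨h', hh', k', hk', rfl⟩ := hT' z hz
    have h3 : h - (h' - k') ∈ H := H.sub_mem hh (H.sub_mem hh' hk')
    refine ⟨_, hT h hh _ h3, ?_, ?_⟩
    · rw [hb1, hb1]
    · rw [hc1, hc1, sub_sub_cancel]
  have hcT : e ≤ #T := by
    refine hcard.trans ?_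
    have h4 := Nat.card_le_card_of_injective
      (fun h : H => (⟨x + ((h : U) + ψ 0), hT h h.2 0 H.zero_mem⟩ : T)) fun h h' hh => by
        have h5 : x + ((h : U) + ψ 0) = x + ((h' : U) + ψ 0) := congrArg (fun z : T => (z : U)) hh
        exact Subtype.ext (add_right_cancel (add_left_cancel h5))
    rwa [Nat.card_eq_fintype_card (α := T), Fintype.card_coe] at h4
  obtain ⟨T', h1, h2, h3⟩ := greedy t.a t.b t.c t.ab t.ac t.bc T hab hac hbc (e - 1) (by omega)
  refine ⟨T', h1.trans (filter_subset _ _), by omega, ?_⟩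
  rw [← coe_image, ← coe_image, ← coe_image, Nat.card_coe_set_eq, Nat.card_coe_set_eq,
    Nat.card_coe_set_eq, Set.ncard_coe_finset, Set.ncard_coe_finset, Set.ncard_coe_finset]
  omega

end tab

end ShortL

open ShortL in
theorem short (hL : S_LINE) : S_SHORT := by
  intro e M δ he hδ
  obtain ⟨N, -, hline⟩ := hL ((Fin e → Fin (M + 1)) × (Fin e → Fin (M + 1))) δ hδ
  refine ⟨((M + 1) ^ (e * N) + 1) ^ 2, ?_⟩
  intro U A B C _ _ t hord hs D hD
  obtain ⟨ψ, hb, hc, -⟩ := exists_psi t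
  have hlt : (M + 1) ^ (e * N) < Nat.card (ker t.a t.adda) := by
    have h1 := hs.trans (card_le_sq t)
    have h2 := lt_of_pow_lt_pow_left₀ 2 (Nat.zero_le _)
      (lt_of_lt_of_le (Nat.pow_lt_pow_left (Nat.lt_succ_self ((M + 1) ^ (e * N))) two_ne_zero) h1)
    exact h2
  obtain ⟨g, hg, hg'⟩ := exists_seq (ker t.a t.adda) M (e * N) (fun x hx => hord x hx) hlt (e * N)
    le_rfl
  obtain ⟨S, hS, x, hx⟩ := hline U (fun τ v => ∑ l, (v.1 l : ℕ) • g (l * N + τ) +
    ψ (∑ l, (v.2 l : ℕ) • g (l * N + τ))) D hD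
  let G : ℕ → U := fun l => ∑ τ ∈ S, g (l * N + τ)
  have hidx : ∀ l < e, ∀ τ : Fin N, l * N + τ < e * N := by
    intro l hl τ
    have h1 : (l + 1) * N ≤ e * N := Nat.mul_le_mul_right N hl
    have h2 := τ.2
    rw [add_mul, one_mul] at h1
    omega
  have hG0 : ∀ l < e, G l ∈ ker t.a t.adda := fun l hl =>
    AddSubgroup.sum_mem _ fun τ _ => hg _ (hidx l hl τ)
  -- the chain
  have hGF : ∀ l < e, G l ∉ F G l := by
    intro l hl hmem
    have h1 : F G l ≤ F g (l * N) := by
      refine Submodule.span_le.2 ?_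
      rintro _ ⟨j, hj, rfl⟩
      refine Submodule.sum_mem _ fun τ _ => mem_F g ?_
      have h2 : (j + 1) * N ≤ l * N := Nat.mul_le_mul_right N hj
      have h3 := τ.2
      rw [add_mul, one_mul] at h2
      omega
    set σ := S.max' hS with hσ
    have h2 : G l = g (l * N + σ) + ∑ τ ∈ S.erase σ, g (l * N + τ) :=
      (add_sum_erase S (fun τ : Fin N => g (l * N + τ)) (S.max'_mem hS)).symm
    have h3 : ∑ τ ∈ S.erase σ, g (l * N + τ) ∈ F g (l * N + σ) := by
      refine Submodule.sum_mem _ fun τ hτ => mem_F g ?_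
      have h4 : τ < σ := lt_of_le_of_ne (S.le_max' τ (mem_of_mem_erase hτ)) (ne_of_mem_erase hτ)
      have h5 : (τ : ℕ) < σ := h4
      omega
    have h4 : G l ∈ F g (l * N + σ) := F_mono g (Nat.le_add_right _ _) (h1 hmem)
    have h5 : g (l * N + σ) ∈ F g (l * N + σ) := by
      have h6 := Submodule.sub_mem _ h4 h3
      rwa [h2, add_sub_cancel_right] at h6
    exact hg' _ (hidx l hl σ) h5
  have hcard : e ≤ Nat.card (F G e).toAddSubgroup :=
    Nat.lt_two_pow_self.le.trans (two_pow_le G e hGF)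
  have hFa : ∀ h ∈ F G e, h ∈ ker t.a t.adda := by
    intro h hh
    obtain ⟨i, rfl⟩ := exists_coeff G e M (fun l hl => hord _ (hG0 l hl)) h hh
    exact AddSubgroup.sum_mem _ fun l _ => AddSubgroup.nsmul_mem _ (hG0 l l.2) _
  refine conf t ψ hb hc (F G e).toAddSubgroup (fun h hh => hFa h hh) x D ?_ e he hcard
  intro h hh k hk
  obtain ⟨i, rfl⟩ := exists_coeff G e M (fun l hl => hord _ (hG0 l hl)) h hh
  obtain ⟨j, rfl⟩ := exists_coeff G e M (fun l hl => hord _ (hG0 l hl)) k hk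
  have h1 := hx (i, j)
  have h2 : ∀ i : Fin e → Fin (M + 1),
      ∑ τ ∈ S, ∑ l, (i l : ℕ) • g (l * N + τ) = ∑ l, (i l : ℕ) • G l := by
    intro i
    rw [sum_comm]
    exact sum_congr rfl fun l _ => (smul_sum).symm
  rw [sum_add_distrib, h2, ← map_sum, h2] at h1
  exact h1

end Pool.Agent.Helper41K9.WN
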