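import Pool.Agent.Helper41K9.WN.Dense
import Pool.Agent.Helper41K9.WN.Short

/-!
# Dense subsets of pieces are dense on tables of commutative groups; tables are pieces
-/

set_option autoImplicit false

namespace Pool.Agent.Helper41K9.WN

open Finset Function Pool.Agent.R181.Maj

theorem short' : S_SHORT := short line

/-- The structure theorem for one piece. -/
theorem piece_tab {V : Type} [Fintype V] {r : ℕ} (hr : 3 ≤ r) {F H : Set (Finset V)} (δ : ℝ)
    (hδ : 0 < δ) (hF : WnuPiece r F) (hlin : Linear F) (hV : 1 ≤ Fintype.card V) (hHF : H ⊆ F)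
    (hH : δ * (Fintype.card V : ℝ) ^ 2 ≤ H.ncard) :
    ∃ (G : Type) (_ : AddCommGroup G) (α β γ : G → V) (φ : G × G → Finset V),
      Function.Injective α ∧ Function.Injective β ∧ Function.Injective γ ∧
      Function.Injective φ ∧ (∀ x y z, α x ≠ β y ∧ α x ≠ γ z ∧ β y ≠ γ z) ∧
      (∀ x y, φ (x, y) ∈ F ∧ α x ∈ φ (x, y) ∧ β y ∈ φ (x, y) ∧ γ (x + y) ∈ φ (x, y)) ∧
      δ ^ 2 * (Fintype.card V : ℝ) ≤ Nat.card G ∧
      δ * (Nat.card G : ℝ) ^ 2 ≤ Nat.card {p : G × G // φ p ∈ H} := by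
  classical
  obtain ⟨X, f, hF⟩ := hF
  obtain ⟨hX⟩ := fintype_rel hF
  obtain ⟨k, w, E, hk, hw, hfi, hf, hinj, hE, rfl⟩ := hF
  have hc : ∀ i, Fintype.card (X i) ≤ Fintype.card V := fun i =>
    Fintype.card_le_of_injective _ (hfi i)
  let i1 : Fin r := ⟨0, by omega⟩
  let i2 : Fin r := ⟨1, by omega⟩
  let i3 : Fin r := ⟨2, by omega⟩
  have h12 : i1 ≠ i2 := by simp [i1, i2, Fin.ext_iff]
  have h13 : i1 ≠ i3 := by simp [i1, i3, Fin.ext_iff]
  have h23 : i2 ≠ i3 := by simp [i2, i3, Fin.ext_iff]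
  let D : Finset E := univ.filter fun x => edgeOf f x.1 ∈ H
  have hDH : (fun x : E => edgeOf f x.1) '' (D : Set E) = H := by
    ext a
    constructor
    · rintro ⟨x, hx, rfl⟩
      exact (mem_filter.1 (mem_coe.1 hx)).2
    · intro ha
      obtain ⟨x, hx, rfl⟩ := hHF ha
      exact ⟨⟨x, hx⟩, mem_coe.2 (mem_filter.2 ⟨mem_univ _, ha⟩), rfl⟩
  have hinj' : Function.Injective fun x : E => edgeOf f x.1 := fun x y h =>
    Subtype.ext (hinj x.2 y.2 h)
  have hDc : H.ncard = #D := by
    rw [← hDH, Set.ncard_image_of_injective _ hinj', Set.ncard_coe_finset]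
  rw [hDc] at hH
  obtain ⟨K, _, t, s, ta, tb, tc, hKs, hsbig, hdens⟩ := dense_tab
    (sys hw hf hinj hE hlin i1 i2 i3 h12 h13 h23) (Fintype.card V) δ hδ hk hV
    ((card_le_univ _).trans (hc _)) ((card_le_univ _).trans (hc _))
    ((card_le_univ _).trans (hc _)) D hH
  obtain ⟨G, _, ψ, α, β, γ, iα, iβ, iγ, h⟩ := t.group
  have hα : ∀ x y, α x = (ψ (x, y)).1.1 i1 := fun x y => (h x y).1.symm.trans (ta _)
  have hβ : ∀ x y, β y = (ψ (x, y)).1.1 i2 := fun x y => (h x y).2.1.symm.trans (tb _)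
  have hγ : ∀ x y, γ (x + y) = (ψ (x, y)).1.1 i3 := fun x y => (h x y).2.2.symm.trans (tc _)
  have hGs : Nat.card G = s := by
    have h1 : Nat.card (G × G) = Nat.card {x // x ∈ K} := Nat.card_congr ψ
    rw [Nat.card_prod, Nat.card_eq_fintype_card (α := {x // x ∈ K}), Fintype.card_coe, hKs,
      pow_two] at h1
    exact Nat.mul_self_inj.1 h1
  refine ⟨G, inferInstance, fun x => f i1 (α x), fun x => f i2 (β x), fun x => f i3 (γ x),
    fun p => edgeOf f (ψ p).1.1, (hfi i1).comp iα, (hfi i2).comp iβ, (hfi i3).comp iγ, ?_, ?_, ?_,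
    ?_, ?_⟩
  · intro p q hpq
    exact ψ.injective (Subtype.ext (hinj' hpq))
  · intro x y z
    refine ⟨fun h1 => ?_, fun h1 => ?_, fun h1 => ?_⟩
    · have h1 : f i1 (α x) = f i2 (β y) := h1
      rw [hα x y, hβ x y] at h1
      exact h12 (hf _ (ψ (x, y)).1.2 h1)
    · have h1 : f i1 (α x) = f i3 (γ z) := h1
      have h2 : γ z = γ (x + (z - x)) := by rw [add_sub_cancel]
      rw [h2, hα x (z - x), hγ x (z - x)] at h1
      exact h13 (hf _ (ψ (x, z - x)).1.2 h1)
    · have h1 : f i2 (β y) = f i3 (γ z) := h1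
      have h2 : γ z = γ ((z - y) + y) := by rw [sub_add_cancel]
      rw [h2, hβ (z - y) y, hγ (z - y) y] at h1
      exact h23 (hf _ (ψ (z - y, y)).1.2 h1)
  · intro x y
    refine ⟨⟨(ψ (x, y)).1.1, (ψ (x, y)).1.2, rfl⟩, ?_, ?_, ?_⟩
    · show f i1 (α x) ∈ _
      rw [hα x y]
      exact mem_edgeOf f _ _
    · show f i2 (β y) ∈ _
      rw [hβ x y]
      exact mem_edgeOf f _ _
    · show f i3 (γ (x + y)) ∈ _
      rw [hγ x y]
      exact mem_edgeOf f _ _
  · rw [hGs]
    exact hsbig
  · rw [hGs]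
    refine hdens.trans ?_
    have h1 : Nat.card {p : G × G // edgeOf f (ψ p).1.1 ∈ H} = #(D ∩ K) := by
      rw [← Fintype.card_coe, ← Nat.card_eq_fintype_card]
      refine Nat.card_congr ?_
      refine (Equiv.subtypeEquiv ψ (q := fun x : {x // x ∈ K} => edgeOf f x.1.1 ∈ H)
        fun p => Iff.rfl).trans ?_
      refine (Equiv.subtypeSubtypeEquivSubtypeInter (fun x : E => x ∈ K)
        (fun x : E => edgeOf f x.1 ∈ H)).trans (Equiv.subtypeEquivRight fun x => ?_)
      simp only [mem_inter, D, mem_filter, mem_univ, true_and]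
      exact and_comm
    have h2 : Nat.card {p : G × G // (fun p => edgeOf f (ψ p).1.1) p ∈ H} = #(D ∩ K) := h1
    rw [h2]

theorem mem_edgeOf_iff {V : Type} {r : ℕ} {X : Fin r → Type} (f : ∀ i, X i → V) (x : ∀ i, X i)
    (v : V) : v ∈ edgeOf f x ↔ ∃ i, f i (x i) = v := by
  classical
  rw [edgeOf, mem_image]
  simp

/-- The addition table of a commutative group, as a set of triples of vertices in three copies
of the group. -/
def table (G : Type) [AddCommGroup G] : Set (Finset (Fin 3 × G)) :=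
  Set.range fun p : G × G => edgeOf (r := 3) (X := fun _ => G) (fun i a => (i, a))
    ![p.1, p.2, p.1 + p.2]

theorem edge3_injective (G : Type) :
    Function.Injective (edgeOf (r := 3) (X := fun _ => G) fun i (a : G) => (i, a)) := by
  intro x y h
  funext i
  have h1 := mem_edgeOf (fun (i : Fin 3) (a : G) => (i, a)) x i
  rw [h, mem_edgeOf_iff] at h1
  obtain ⟨j, hj⟩ := h1
  have h2 : j = i := congrArg Prod.fst hj
  have h3 : y j = x i := congrArg Prod.snd hj
  rw [← h3, h2]

theorem table_piece (G : Type) [AddCommGroup G] [Fintype G] : PartiteWnuPiece 3 (table G) := by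
  classical
  refine ⟨fun _ => G, fun i a => (i, a), ⟨Fintype.card G + 1, fun _ z => ∑ j, z j,
    Set.range fun p : G × G => ![p.1, p.2, p.1 + p.2], ?_, fun _ => ⟨?_, ?_⟩, ?_, ?_, ?_, ?_, ?_⟩, ?_⟩
  · have : 0 < Fintype.card G := Fintype.card_pos
    omega
  · intro x
    show ∑ _j : Fin (Fintype.card G + 1), x = x
    rw [sum_const, card_univ, Fintype.card_fin, add_smul, one_smul, card_nsmul_eq_zero, zero_add]
  · intro x y i j
    have h1 : ∀ i : Fin (Fintype.card G + 1), ∑ j, update (fun _ => x) i y j =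
        y + Fintype.card G • x := by
      intro i
      rw [← add_sum_erase univ _ (mem_univ i), update_self,
        sum_congr rfl fun j hj => update_of_ne (ne_of_mem_erase hj) _ _, sum_const,
        card_erase_of_mem (mem_univ i), card_univ, Fintype.card_fin, Nat.add_sub_cancel]
    show ∑ j', update (fun _ => x) i y j' = ∑ j', update (fun _ => x) j y j'
    rw [h1, h1]
  · intro i a b h
    exact congrArg Prod.snd h
  · rintro x - i j h
    exact congrArg Prod.fst h
  · exact (edge3_injective G).injOn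
  · intro z hz
    choose p hp using hz
    refine ⟨(∑ j, (p j).1, ∑ j, (p j).2), ?_⟩
    funext i
    have h1 : ∀ j, z j i = ![(p j).1, (p j).2, (p j).1 + (p j).2] i := fun j => by rw [← hp j]
    show ![∑ j, (p j).1, ∑ j, (p j).2, ∑ j, (p j).1 + ∑ j, (p j).2] i = ∑ j, z j i
    rw [sum_congr rfl fun j _ => h1 j]
    fin_cases i
    · rfl
    · rfl
    · exact sum_add_distrib.symm
  · rw [table, ← Set.range_comp]
    rfl
  · intro i j a b h
    exact congrArg Prod.fst h

theorem table_linear (G : Type) [AddCommGroup G] : Linear (table G) := by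
  classical
  rintro _ ⟨p, rfl⟩ _ ⟨q, rfl⟩ u v huv hup hvp huq hvq
  have key : ∀ (p : G × G) (u : Fin 3 × G),
      u ∈ edgeOf (r := 3) (X := fun _ => G) (fun i a => (i, a)) ![p.1, p.2, p.1 + p.2] →
      u.2 = ![p.1, p.2, p.1 + p.2] u.1 := by
    intro p u hu
    rw [mem_edgeOf_iff] at hu
    obtain ⟨i, rfl⟩ := hu
    rfl
  have h1 := key p u hup
  have h2 := key p v hvp
  have h3 := key q u huq
  have h4 := key q v hvq
  have hpos : u.1 ≠ v.1 := by
    intro h
    refine huv (Prod.ext h ?_)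
    rw [h1, h2, h]
  rw [h1] at h3
  rw [h2] at h4
  obtain ⟨p1, p2⟩ := p
  obtain ⟨q1, q2⟩ := q
  obtain ⟨i, a⟩ := u
  obtain ⟨j, b⟩ := v
  have h5 : p1 = q1 ∧ p2 = q2 := by
    fin_cases i <;> fin_cases j <;> simp_all
  rw [h5.1, h5.2]

theorem table_card (G : Type) [AddCommGroup G] [Fintype G] :
    (table G).ncard = Fintype.card G ^ 2 := by
  have hinj : Function.Injective fun p : G × G =>
      edgeOf (r := 3) (X := fun _ => G) (fun i a => (i, a)) ![p.1, p.2, p.1 + p.2] := by
    intro p q h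
    have h1 := edge3_injective G h
    exact Prod.ext (congrFun h1 0) (congrFun h1 1)
  rw [table, ← Set.image_univ, Set.ncard_image_of_injective _ hinj, Set.ncard_univ,
    Nat.card_eq_fintype_card, Fintype.card_prod, pow_two]

end Pool.Agent.Helper41K9.WN
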