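import Pool.Agent.Helper41K9.WN.Basic

/-!
# A block of `s` elements gives a Latin square of order at least `s`
-/

set_option autoImplicit false

namespace Pool.Agent.Helper41K9.WN

open Finset Function Relation

variable {k : ℕ} {R A B C : Type}

/-- The closure of `D` under `w`. -/
inductive Cl (S : Sys k R A B C) (D : R → Prop) : R → Prop
  | base (x : R) (h : D x) : Cl S D x
  | op (z : Fin k → R) (h : ∀ i, Cl S D (z i)) : Cl S D (S.w z)

/-- The conditions on a subalgebra of a block. -/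
structure Blk (S : Sys k R A B C) (K : R → Prop) : Prop where
  cl : ∀ z : Fin k → R, (∀ i, K (z i)) → K (S.w z)
  a : ∀ x y, K x → K y → S.a x = S.a y
  conn : ∀ x y, K x → K y → S.Conn x y
  bc : ∀ x y, K x → K y → ∃ z, S.b z = S.b x ∧ S.c z = S.c y

theorem Blk.swap {S : Sys k R A B C} {K : R → Prop} (h : Blk S K) : Blk S.swap K where
  cl := h.cl
  a := h.a
  conn := fun x y hx hy => S.conn_swap (h.conn x y hx hy)
  bc := fun x y hx hy => by
    obtain ⟨z, h1, h2⟩ := h.bc y x hy hx
    exact ⟨z, h2, h1⟩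

theorem Blk.pol {S : Sys k R A B C} {K : R → Prop} (h : Blk S K) {s : Finset (Fin k)}
    {z : Fin k → R} (hz : ∀ l, K (z l)) {x : R} (hx : K x) : K (S.pol s z x) :=
  h.cl _ fun i => by split_ifs <;> first | exact hx | exact hz i

theorem Blk.pol_surj {S : Sys k R A B C} [Finite R] {K : R → Prop} (h : Blk S K)
    (l : Fin k) {z : Fin k → R} (hz : ∀ l, K (z l)) {y : R} (hy : K y) :
    ∃ x, K x ∧ S.pol {l} z x = y := by
  let f : {x // K x} → {x // K x} := fun x => ⟨S.pol {l} z x.1, h.pol hz x.2⟩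
  have hf : Injective f := fun x y hxy =>
    Subtype.ext (S.cancel z l x.1 y.1 (fun j => h.conn _ _ (hz j) x.2) (h.conn _ _ x.2 y.2)
      (h.a _ _ x.2 y.2) (congrArg Subtype.val hxy))
  obtain ⟨x, hx⟩ := Finite.surjective_of_injective hf ⟨y, hy⟩
  exact ⟨x.1, x.2, congrArg Subtype.val hx⟩

/-- The rectangle spanned by `K`. -/
def Rect (S : Sys k R A B C) (K : R → Prop) (z : R) : Prop :=
  ∃ u v, K u ∧ K v ∧ S.b z = S.b u ∧ S.c z = S.c v

theorem Blk.rect_pol {S : Sys k R A B C} {K : R → Prop} (h : Blk S K) {s : Finset (Fin k)}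
    {z : Fin k → R} (hz : ∀ l, K (z l)) {x : R} (hx : Rect S K x) :
    Rect S K (S.pol s z x) := by
  obtain ⟨u, v, hu, hv, h1, h2⟩ := hx
  exact ⟨S.pol s z u, S.pol s z v, h.pol hz hu, h.pol hz hv, S.pol_b s z h1, S.pol_c s z h2⟩

theorem Blk.rect_inj {S : Sys k R A B C} {K : R → Prop} (h : Blk S K)
    (l : Fin k) {z : Fin k → R} (hz : ∀ l, K (z l)) {x y : R} (hx : Rect S K x) (hy : Rect S K y)
    (hxy : S.pol {l} z x = S.pol {l} z y) : x = y := by
  obtain ⟨u, v, hu, hv, h1, h2⟩ := hx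
  obtain ⟨u', v', hu', hv', h1', h2'⟩ := hy
  have hb : S.b (S.pol {l} z u) = S.b (S.pol {l} z u') := by
    rw [← S.pol_b {l} z h1, ← S.pol_b {l} z h1', hxy]
  have hc : S.c (S.pol {l} z v) = S.c (S.pol {l} z v') := by
    rw [← S.pol_c {l} z h2, ← S.pol_c {l} z h2', hxy]
  have e1 := S.ab _ _ (h.a _ _ (h.pol hz hu) (h.pol hz hu')) hb
  have e2 := S.ac _ _ (h.a _ _ (h.pol hz hv) (h.pol hz hv')) hc
  have e3 := S.cancel z l u u' (fun j => h.conn _ _ (hz j) hu) (h.conn _ _ hu hu')
    (h.a _ _ hu hu') e1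
  have e4 := S.cancel z l v v' (fun j => h.conn _ _ (hz j) hv) (h.conn _ _ hv hv')
    (h.a _ _ hv hv') e2
  exact S.bc _ _ (by rw [h1, h1', e3]) (by rw [h2, h2', e4])

/-- The maps `pol` are injective on the values of `a`. -/
theorem Blk.rect_a {S : Sys k R A B C} [Finite R] {K : R → Prop} (h : Blk S K)
    (l : Fin k) {z : Fin k → R} (hz : ∀ l, K (z l)) {x y : R} (hx : Rect S K x) (hy : Rect S K y)
    (hxy : S.a (S.pol {l} z x) = S.a (S.pol {l} z y)) : S.a x = S.a y := by
  classical
  let f : {x // Rect S K x} → {x // Rect S K x} := fun x => ⟨S.pol {l} z x.1, h.rect_pol hz x.2⟩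
  have hf : Injective f := fun x y hxy =>
    Subtype.ext (h.rect_inj l hz x.2 y.2 (congrArg Subtype.val hxy))
  let σ : Equiv.Perm {x // Rect S K x} :=
    Equiv.ofBijective f ⟨hf, Finite.surjective_of_injective hf⟩
  have h1 : ∀ n : ℕ, S.a ((σ ^ (n + 1)) ⟨x, hx⟩).1 = S.a ((σ ^ (n + 1)) ⟨y, hy⟩).1 := by
    intro n
    induction n with
    | zero =>
      rw [zero_add, pow_one]
      exact hxy
    | succ n ih =>
      rw [pow_succ' σ (n + 1), Equiv.Perm.mul_apply, Equiv.Perm.mul_apply]
      exact S.pol_a _ _ ih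
  have h2 := h1 (orderOf σ - 1)
  rw [Nat.sub_add_cancel (orderOf_pos σ), pow_orderOf_eq_one] at h2
  exact h2

theorem Blk.ab {S : Sys k R A B C} [Finite R] (hk : 2 ≤ k) {K : R → Prop} (h : Blk S K)
    {z x : R} (hz : Rect S K z) (hx : K x) :
    ∃ z', Rect S K z' ∧ S.a z' = S.a z ∧ S.b z' = S.b x := by
  obtain ⟨u, v, hu, hv, hzu, hzv⟩ := hz
  let m : Fin k := ⟨0, by omega⟩
  let l : Fin k := ⟨1, by omega⟩
  have hml : m ≠ l := by
    intro h
    have := congrArg Fin.val h
    simp [m, l] at this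
  have hX : K (S.w (update (update (fun _ => u) m v) l x)) := h.cl _ fun i => by
    by_cases hi : i = l
    · subst hi
      rw [update_self]
      exact hx
    · rw [update_of_ne hi]
      by_cases him : i = m
      · subst him
        rw [update_self]
        exact hv
      · rw [update_of_ne him]
        exact hu
  obtain ⟨v', hv', hv''⟩ := h.pol_surj m (z := fun _ => u) (fun _ => hu) hX
  obtain ⟨z', hb', hc'⟩ := h.bc x v' hx hv'
  have hz' : Rect S K z' := ⟨x, v', hx, hv', hb', hc'⟩
  have hz : Rect S K z := ⟨u, v, hu, hv, hzu, hzv⟩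
  refine ⟨z', hz', ?_, hb'⟩
  refine h.rect_a m (z := fun _ => u) (fun _ => hu) hz' hz ?_
  have e1 : S.pol {m} (fun _ => u) z' = S.w (update (update (fun _ => u) m z) l x) := by
    apply S.bc
    · rw [S.pol_b _ _ hb']
      have e2 : S.pol {m} (fun _ => u) x = S.w (update (fun _ => u) l x) := by
        rw [← S.wnu u x m l]
        unfold Sys.pol
        congr 1
        funext i
        by_cases hi : i = m
        · subst hi
          simp
        · simp [hi]
      rw [e2]
      refine S.wb _ _ fun i => ?_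
      by_cases hi : i = l
      · subst hi
        rw [update_self, update_self]
      · rw [update_of_ne hi, update_of_ne hi]
        by_cases him : i = m
        · subst him
          rw [update_self, hzu]
        · rw [update_of_ne him]
    · rw [S.pol_c _ _ hc', hv'']
      refine S.wc _ _ fun i => ?_
      by_cases hi : i = l
      · subst hi
        rw [update_self, update_self]
      · rw [update_of_ne hi, update_of_ne hi]
        by_cases him : i = m
        · subst him
          rw [update_self, update_self, hzv]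
        · rw [update_of_ne him, update_of_ne him]
  rw [e1]
  refine S.wa _ _ fun i => ?_
  by_cases hi : i = l
  · subst hi
    rw [update_self]
    simp only [mem_singleton, hml.symm, if_false]
    exact h.a _ _ hx hu
  · rw [update_of_ne hi]
    by_cases him : i = m
    · subst him
      simp
    · rw [update_of_ne him]
      simp [him]

/-- The completeness of the rectangle. -/
theorem Blk.complete {S : Sys k R A B C} [Finite R] (hk : 2 ≤ k) {K : R → Prop} (h : Blk S K)
    {x y : R} (hx : Rect S K x) (hy : Rect S K y) :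
    (∃ z, Rect S K z ∧ S.a z = S.a x ∧ S.b z = S.b y) ∧
    (∃ z, Rect S K z ∧ S.a z = S.a x ∧ S.c z = S.c y) ∧
    (∃ z, Rect S K z ∧ S.b z = S.b x ∧ S.c z = S.c y) := by
  obtain ⟨u, v, hu, hv, hyu, hyv⟩ := hy
  refine ⟨?_, ?_, ?_⟩
  · obtain ⟨z, h1, h2, h3⟩ := h.ab hk hx hu
    exact ⟨z, h1, h2, h3.trans hyu.symm⟩
  · have hx' : Rect S.swap K x := by
      obtain ⟨u, v, hu, hv, h1, h2⟩ := hx
      exact ⟨v, u, hv, hu, h2, h1⟩
    obtain ⟨z, h1, h2, h3⟩ := h.swap.ab hk hx' hv
    refine ⟨z, ?_, h2, h3.trans hyv.symm⟩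
    obtain ⟨u, v, hu, hv, h1, h2⟩ := h1
    exact ⟨v, u, hv, hu, h2, h1⟩
  · obtain ⟨u', v', hu', hv', h1, h2⟩ := hx
    obtain ⟨z, h3, h4⟩ := h.bc u' v hu' hv
    exact ⟨z, ⟨u', v, hu', hv, h3, h4⟩, h3.trans h1.symm, h4.trans hyv.symm⟩

/-- The closure of a good family in which all pairs are `rho`-related. -/
theorem blk_cl (S : Sys k R A B C) {I : Type} {g : I → R} (hg : S.Good g)
    (hr : ∀ i j, S.rho (g i) (g j)) : Blk S (Cl S fun x => ∃ i, g i = x) := by
  have h1 : ∀ x, Cl S (fun x => ∃ i, g i = x) x → ∀ i, S.a x = S.a (g i) ∧ S.Conn x (g i) ∧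
      S.rho x (g i) := by
    intro x hx
    induction hx with
    | base x h =>
      obtain ⟨j, rfl⟩ := h
      exact fun i => ⟨(hg.2 j i).1, (hg.2 j i).2, hr j i⟩
    | op z _ ih =>
      intro i
      refine ⟨?_, ?_, ?_⟩
      · rw [← S.idem (g i)]
        exact S.wa _ _ fun j => (ih j i).1
      · rw [← S.idem (g i)]
        exact S.w_conn fun j => (ih j i).2.1
      · choose m h1 h2 using fun j => (ih j i).2.2
        refine ⟨S.w m, S.wb _ _ h1, ?_⟩
        rw [← S.idem (g i)]
        exact S.wc _ _ h2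
  have h2 : ∀ y, Cl S (fun x => ∃ i, g i = x) y → ∀ x, Cl S (fun x => ∃ i, g i = x) x →
      S.a x = S.a y ∧ S.Conn x y ∧ S.rho x y := by
    intro y hy
    induction hy with
    | base y h =>
      obtain ⟨j, rfl⟩ := h
      exact fun x hx => h1 x hx j
    | op z _ ih =>
      intro x hx
      refine ⟨?_, ?_, ?_⟩
      · rw [← S.idem x]
        exact S.wa _ _ fun j => (ih j x hx).1
      · rw [← S.idem x]
        exact S.w_conn fun j => (ih j x hx).2.1
      · choose m h1 h2 using fun j => (ih j x hx).2.2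
        refine ⟨S.w m, ?_, S.wc _ _ h2⟩
        rw [← S.idem x]
        exact S.wb _ _ h1
  exact ⟨fun z hz => Cl.op z hz, fun x y hx hy => (h2 y hy x hx).1,
    fun x y hx hy => (h2 y hy x hx).2.1, fun x y hx hy => by
      obtain ⟨m, h3, h4⟩ := (h2 y hy x hx).2.2
      exact ⟨m, h3.symm, h4⟩⟩

end Pool.Agent.Helper41K9.WN
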